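import Mathlib
import Pool.Agent.H82.SZ.Defs

/-!
# MP_103a5c SimpleZeros, block K (kernel): definitions

`L = log T`, `Δ² = T² / L`. Text: /team-store/H82_SZ1.md, block K.
-/

open Finset
open scoped ArithmeticFunction.vonMangoldt ArithmeticFunction.Moebius ArithmeticFunction.zeta

namespace H74SZ

noncomputable section

/-- `X(s) = 2 (2π)^{-s} Γ(s) cos (π s / 2)`, so that `ζ(1 - s) = X(s) ζ(s)` -/
def Xf (s : ℂ) : ℂ :=
  2 * (2 * (Real.pi : ℂ)) ^ (-s) * Complex.Gamma s * Complex.cos (Real.pi * s / 2)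

/-- vertical line integral `(1/2π) ∫ f(a + it) dt` -/
def vint (a : ℝ) (f : ℂ → ℂ) : ℂ := (2 * Real.pi : ℂ)⁻¹ * ∫ t : ℝ, f (a + t * Complex.I)

/-- `φ(τ) = ω exp (-T² τ² / (4 L))` -/
def ph (T τ : ℝ) : ℝ := H82SZ.om T * Real.exp (-(T ^ 2 * τ ^ 2 / (4 * Real.log T)))

/-- the kernel `K_0(r)` on the line `Re s = a` -/
def KA (a T r : ℝ) : ℂ := vint a fun s => Xf s * (r : ℂ) ^ (-s) * H82SZ.Gs T s

/-- the kernel with `G'` in place of `G` -/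
def KD (a T r : ℝ) : ℂ := vint a fun s => Xf s * (r : ℂ) ^ (-s) * deriv (H82SZ.Gs T) s

/-- the kernel `K_1(r)`: `X'` in place of `X` -/
def KB (a T r : ℝ) : ℂ := vint a fun s => deriv Xf s * (r : ℂ) ^ (-s) * H82SZ.Gs T s

/-- the `τ` form of `K_0` -/
def T0 (T r : ℝ) : ℂ := ∫ τ : ℝ, (2 * Real.cos (2 * Real.pi * r * Real.exp τ) : ℝ) *
  (Complex.exp ((1 / 2 + T * Complex.I) * τ) * (ph T τ : ℂ))

/-- the `τ` form of the kernel with `G'` -/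
def T1 (T r : ℝ) : ℂ := ∫ τ : ℝ, (2 * Real.cos (2 * Real.pi * r * Real.exp τ) : ℝ) *
  (-(τ : ℂ) * (Complex.exp ((1 / 2 + T * Complex.I) * τ) * (ph T τ : ℂ)))

/-- the Dirichlet series `∑ c(n) n^{-s}` (`n ≥ 1`) of a real arithmetic function -/
def dser (c : ArithmeticFunction ℝ) (s : ℂ) : ℂ := ∑' n : ℕ, (c n : ℂ) * (n : ℂ) ^ (-s)

/-- `∑ |c(n)| n^{-a}` -/
def SS (a : ℝ) (c : ArithmeticFunction ℝ) : ℝ := ∑' n : ℕ, |c n| * (n : ℝ) ^ (-a)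

/-- absolute convergence on `Re s = a` -/
def SC (a : ℝ) (c : ArithmeticFunction ℝ) : Prop := Summable fun n : ℕ => |c n| * (n : ℝ) ^ (-a)

end

end H74SZ
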