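import Mathlib
import Pool.Agent.H74.SZ.Defs

/-!
# MP_103a5c SimpleZeros, block K: definitions, second part
-/

open Finset

namespace H74SZ

noncomputable section

/-- `K_0(r)` (`j = 0`) and `K_1(r)` (`j = 1`) in the `τ` form -/
def KJ (j : ℕ) (T r : ℝ) : ℂ :=
  if j = 0 then T0 T r else (Real.log r : ℂ) * T0 T r - T1 T r

/-- the main term of the kernel, cut at `n ≤ N₀ k` -/
def KM (j : ℕ) (T : ℝ) (k n : ℕ) : ℂ :=
  if n ≤ H82SZ.N0 T * k then ((H82SZ.wt T (n / k) * Real.log (n / k) ^ j : ℝ) : ℂ) * H69LB.ee (-((n : ℝ) / k)) else 0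

/-- `J(ρ) = ρ^{-1/2-iT} φ(log ρ)`, the kernel of the diagonal sum -/
def JJ (T ρ : ℝ) : ℂ := Complex.exp (-((1 / 2 + T * Complex.I) * Real.log ρ)) * (ph T (Real.log ρ) : ℂ)

end

end H74SZ
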