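import Mathlib
import Pool.Agent.H74.SZ.Defs

/-!
SCB: the sums `SS a c = ∑ |c(n)| n^{-a}`, general properties.

Proof. `SC_mul`: `|(c * d)(n)| ≤ ∑_{uv = n} |c(u)| |d(v)|` and `(uv)^{-a} = u^{-a} v^{-a}`; the family `(u,v) ↦ |c(u)| u^{-a} |d(v)| v^{-a}` is summable on `ℕ × ℕ` (product), regroup it by `n = u v` (for instance `LSeriesSummable.convolution` / `ArithmeticFunction.LSeriesSummable_mul` applied
 to the functions `|c|`, `|d|` cast to `ℂ` at the real point `a`, or directly over the fibres of the multiplication; `n = 0` has `c 0 = d 0 = 0`). `SC_fin`: finite support. The rest is `Summable.add`, `tsum_mul_left`, `tsum_le_tsum`.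
-/

open Finset
open scoped ArithmeticFunction.vonMangoldt ArithmeticFunction.Moebius ArithmeticFunction.zeta

namespace H74SZ

private theorem SZKScb_term (a : ℝ) (F : ℕ → ℝ) (h0 : F 0 = 0) (n : ℕ) :
    LSeries.term (fun n => (F n : ℂ)) (a : ℂ) n = ((F n * (n : ℝ) ^ (-a) : ℝ) : ℂ) := by
  rcases eq_or_ne n 0 with rfl | hn
  · rw [LSeries.term_zero, h0, zero_mul, Complex.ofReal_zero]
  · rw [LSeries.term_of_ne_zero hn, Complex.ofReal_mul, Complex.ofReal_cpow (Nat.cast_nonneg n),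
      Complex.ofReal_neg, Complex.ofReal_natCast, Complex.cpow_neg, div_eq_mul_inv]

private theorem SZKScb_pos (a : ℝ) (n : ℕ) : 0 ≤ (n : ℝ) ^ (-a) := Real.rpow_nonneg (Nat.cast_nonneg n) _

private noncomputable def SZKScb_C (c : ArithmeticFunction ℝ) : ArithmeticFunction ℂ :=
  ⟨fun n => ((|c n| : ℝ) : ℂ), by simp⟩

private theorem SZKScb_has {a : ℝ} {c : ArithmeticFunction ℝ} (hc : SC a c) :
    LSeriesHasSum (fun n => SZKScb_C c n) (a : ℂ) ((SS a c : ℝ) : ℂ) := by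
  have h1 : HasSum (fun n : ℕ => |c n| * (n : ℝ) ^ (-a)) (SS a c) := hc.hasSum
  have h2 := Complex.hasSum_ofReal.2 h1
  have h3 : LSeries.term (fun n => SZKScb_C c n) (a : ℂ) = fun n : ℕ => ((|c n| * (n : ℝ) ^ (-a) : ℝ) : ℂ) := by
    funext n
    exact SZKScb_term a (fun n => |c n|) (by simp) n
  change HasSum (LSeries.term (fun n => SZKScb_C c n) (a : ℂ)) _
  rw [h3]
  exact h2

private theorem SZKScb_prod (c d : ArithmeticFunction ℝ) (n : ℕ) :
    (SZKScb_C c * SZKScb_C d) n = ((∑ x ∈ n.divisorsAntidiagonal, |c x.1| * |d x.2| : ℝ) : ℂ) := by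
  rw [ArithmeticFunction.mul_apply, Complex.ofReal_sum]
  refine Finset.sum_congr rfl fun x _ => ?_
  rw [Complex.ofReal_mul]
  rfl

theorem SC_mul {a : ℝ} {c d : ArithmeticFunction ℝ} (hc : SC a c) (hd : SC a d) :
    SC a (c * d) ∧ SS a (c * d) ≤ SS a c * SS a d := by
  have h1 := ArithmeticFunction.LSeriesHasSum_mul (SZKScb_has hc) (SZKScb_has hd)
  have h2 : LSeries.term (fun n => (SZKScb_C c * SZKScb_C d) n) (a : ℂ) =
      fun n : ℕ => (((∑ x ∈ n.divisorsAntidiagonal, |c x.1| * |d x.2|) * (n : ℝ) ^ (-a) : ℝ) : ℂ) := by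
    have e : (fun n => (SZKScb_C c * SZKScb_C d) n) =
        fun n : ℕ => ((∑ x ∈ n.divisorsAntidiagonal, |c x.1| * |d x.2| : ℝ) : ℂ) := by
      funext n
      exact SZKScb_prod c d n
    rw [e]
    funext n
    exact SZKScb_term a (fun n => ∑ x ∈ n.divisorsAntidiagonal, |c x.1| * |d x.2|) (by simp) n
  change HasSum (LSeries.term (fun n => (SZKScb_C c * SZKScb_C d) n) (a : ℂ)) _ at h1
  rw [h2, ← Complex.ofReal_mul] at h1
  have h3 := Complex.hasSum_ofReal.1 h1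
  have h4 : ∀ n : ℕ, |(c * d) n| * (n : ℝ) ^ (-a) ≤
      (∑ x ∈ n.divisorsAntidiagonal, |c x.1| * |d x.2|) * (n : ℝ) ^ (-a) := by
    intro n
    refine mul_le_mul_of_nonneg_right ?_ (SZKScb_pos a n)
    rw [ArithmeticFunction.mul_apply]
    refine (Finset.abs_sum_le_sum_abs _ _).trans (le_of_eq ?_)
    exact Finset.sum_congr rfl fun x _ => abs_mul _ _
  have h5 : SC a (c * d) := Summable.of_nonneg_of_le
    (fun n => mul_nonneg (abs_nonneg _) (SZKScb_pos a n)) h4 h3.summable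
  refine ⟨h5, ?_⟩
  rw [← h3.tsum_eq]
  exact h5.tsum_le_tsum h4 h3.summable

theorem SC_add {a : ℝ} {c d : ArithmeticFunction ℝ} (hc : SC a c) (hd : SC a d) :
    SC a (c + d) ∧ SS a (c + d) ≤ SS a c + SS a d := by
  have h4 : ∀ n : ℕ, |(c + d) n| * (n : ℝ) ^ (-a) ≤ |c n| * (n : ℝ) ^ (-a) + |d n| * (n : ℝ) ^ (-a) := by
    intro n
    rw [← add_mul, ArithmeticFunction.add_apply]
    exact mul_le_mul_of_nonneg_right (abs_add_le _ _) (SZKScb_pos a n)
  have h3 : Summable fun n : ℕ => |c n| * (n : ℝ) ^ (-a) + |d n| * (n : ℝ) ^ (-a) := Summable.add hc hd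
  have h5 : SC a (c + d) := Summable.of_nonneg_of_le
    (fun n => mul_nonneg (abs_nonneg _) (SZKScb_pos a n)) h4 h3
  refine ⟨h5, ?_⟩
  have h6 : SS a c + SS a d = ∑' n : ℕ, (|c n| * (n : ℝ) ^ (-a) + |d n| * (n : ℝ) ^ (-a)) :=
    (Summable.tsum_add hc hd).symm
  rw [h6]
  exact h5.tsum_le_tsum h4 h3

theorem SC_smul {a : ℝ} {c : ArithmeticFunction ℝ} (hc : SC a c) (z : ℝ) :
    SC a (z • c) ∧ SS a (z • c) = |z| * SS a c := by
  have h1 : (fun n : ℕ => |(z • c) n| * (n : ℝ) ^ (-a)) = fun n : ℕ => |z| * (|c n| * (n : ℝ) ^ (-a)) := by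
    funext n
    have e : (z • c) n = z * c n := rfl
    rw [e, abs_mul, mul_assoc]
  constructor
  · unfold SC
    rw [h1]
    exact Summable.mul_left _ hc
  · unfold SS
    rw [h1, tsum_mul_left]

theorem SC_fin {a : ℝ} {c : ArithmeticFunction ℝ} {N : ℕ} (hc : ∀ n, N < n → c n = 0) : SC a c := by
  refine summable_of_ne_finset_zero (s := Finset.range (N + 1)) fun n hn => ?_
  rw [hc n (by
    rw [Finset.mem_range, not_lt] at hn
    omega), abs_zero, zero_mul]

theorem SS_nonneg {a : ℝ} {c : ArithmeticFunction ℝ} : 0 ≤ SS a c :=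
  tsum_nonneg fun n => mul_nonneg (abs_nonneg _) (SZKScb_pos a n)

end H74SZ
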