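import Mathlib
import Pool.Agent.H74.SZ.Scb

/-!
SCC: the sums `SS a c = ∑ |c(n)| n^{-a}` of the standard functions, `a = aT T = 1 + 1/L`, `L = log T ≥ 1`. Use the STATEMENTS of `Scb.lean`.

Proof. `SS_zeta`: `∑_{n ≥ 1} n^{-a} ≤ 1 + ∫_1^∞ x^{-a} dx = 1 + L ≤ 2 L` (comparison with the integral, or telescoping `n^{-1-δ} ≤ δ⁻¹ ((n-1)^{-δ} - n^{-δ})` for `n ≥ 2`). More generally `∑ n^{-1-δ} ≤ 1 + 1/δ` for `δ > 0`.
 `SS_log`: `log n ≤ 2 L n^{1/(2L)}` (`log x ≤ x^ε/ε`, `Real.log_le_rpow_div`), so `∑ log n · n^{-a} ≤ 2 L ∑ n^{-1-1/(2L)} ≤ 2 L (1 + 2 L) ≤ 6 L²`. `SS_vM`: `0 ≤ Λ(n) ≤ log n` (`ArithmeticFunction.vonMangoldt_le_log`).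
 `SS_fk`: `|P|, |α| ≤ B` (continuous with compact support), `|xk| ≤ B` so `SS (xk) ≤ B · 2 L`; `|yk(n)| ≤ B Λ(n)/L`, so `SS (yk) ≤ 6 B L`; `fk = c0 δ + yk + L⁻¹ (log * xk)`: `SS ≤ |c0| + 6 B L + L⁻¹ · 6 L² · 2 B L ≤ C L²`.
-/

open Finset
open scoped ArithmeticFunction.vonMangoldt ArithmeticFunction.Moebius ArithmeticFunction.zeta

namespace H74SZ

private theorem SZKScc_L {T : ℝ} (hT : 3 ≤ T) : 1 ≤ Real.log T := by
  have h : Real.exp 1 ≤ T := by
    have := Real.exp_one_lt_d9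
    linarith
  have hp : (0 : ℝ) < T := by linarith
  exact (Real.le_log_iff_exp_le hp).mpr h

private theorem SZKScc_zs {s : ℝ} (hs : 1 < s) : (Summable fun n : ℕ => (n : ℝ) ^ (-s)) ∧
    ∑' n : ℕ, (n : ℝ) ^ (-s) ≤ 1 + 1 / (s - 1) := by
  have h1 : Summable fun n : ℕ => (n : ℝ) ^ (-s) := Real.summable_nat_rpow.mpr (by linarith)
  refine ⟨h1, ?_⟩
  rw [h1.tsum_eq_zero_add]
  have h0 : ((0 : ℕ) : ℝ) ^ (-s) = 0 := by
    rw [Nat.cast_zero]
    exact Real.zero_rpow (by linarith)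
  rw [h0, zero_add]
  have h2 := ZetaAsymptotics.zeta_limit_aux1 hs
  have h3 : (∑' n : ℕ, ((n + 1 : ℕ) : ℝ) ^ (-s)) = ∑' n : ℕ, 1 / (n + 1 : ℝ) ^ s := by
    refine tsum_congr fun n => ?_
    rw [Real.rpow_neg (by positivity), one_div]
    push_cast
    rfl
  have h4 : 0 ≤ ZetaAsymptotics.termTSum s := by
    unfold ZetaAsymptotics.termTSum
    exact tsum_nonneg fun n => ZetaAsymptotics.term_nonneg _ _
  rw [h3]
  nlinarith

private theorem SZKScc_le {a : ℝ} {c d : ArithmeticFunction ℝ} (h : ∀ n, |c n| ≤ |d n|) (hd : SC a d) :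
    SC a c ∧ SS a c ≤ SS a d := by
  have hle : ∀ n : ℕ, |c n| * (n : ℝ) ^ (-a) ≤ |d n| * (n : ℝ) ^ (-a) := fun n =>
    mul_le_mul_of_nonneg_right (h n) (Real.rpow_nonneg (Nat.cast_nonneg n) _)
  have h1 : SC a c := Summable.of_nonneg_of_le
    (fun n => mul_nonneg (abs_nonneg _) (Real.rpow_nonneg (Nat.cast_nonneg n) _)) hle hd
  exact ⟨h1, h1.tsum_le_tsum hle hd⟩

theorem SS_zeta {T : ℝ} (hT : 3 ≤ T) : SC (H82SZ.aT T) (ζ : ArithmeticFunction ℝ) ∧
    SS (H82SZ.aT T) (ζ : ArithmeticFunction ℝ) ≤ 2 * Real.log T := by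
  have hL := SZKScc_L hT
  have ha : 1 < H82SZ.aT T := by
    unfold H82SZ.aT
    have : 0 < 1 / Real.log T := by positivity
    linarith
  obtain ⟨h1, h2⟩ := SZKScc_zs ha
  have hle : ∀ n : ℕ, |(ζ : ArithmeticFunction ℝ) n| * (n : ℝ) ^ (-(H82SZ.aT T)) ≤
      (n : ℝ) ^ (-(H82SZ.aT T)) := by
    intro n
    have hn : (0 : ℝ) ≤ (n : ℝ) ^ (-(H82SZ.aT T)) := Real.rpow_nonneg (Nat.cast_nonneg n) _
    have : |(ζ : ArithmeticFunction ℝ) n| ≤ 1 := by
      rw [ArithmeticFunction.natCoe_apply, ArithmeticFunction.zeta_apply]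
      split_ifs <;> simp
    nlinarith
  have h3 : SC (H82SZ.aT T) (ζ : ArithmeticFunction ℝ) := Summable.of_nonneg_of_le
    (fun n => mul_nonneg (abs_nonneg _) (Real.rpow_nonneg (Nat.cast_nonneg n) _)) hle h1
  refine ⟨h3, ?_⟩
  have h4 : SS (H82SZ.aT T) (ζ : ArithmeticFunction ℝ) ≤ ∑' n : ℕ, (n : ℝ) ^ (-(H82SZ.aT T)) :=
    h3.tsum_le_tsum hle h1
  have h5 : 1 / (H82SZ.aT T - 1) = Real.log T := by
    unfold H82SZ.aT
    rw [add_sub_cancel_left, one_div_one_div]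
  rw [h5] at h2
  linarith

theorem SS_log {T : ℝ} (hT : 3 ≤ T) : SC (H82SZ.aT T) ArithmeticFunction.log ∧
    SS (H82SZ.aT T) ArithmeticFunction.log ≤ 6 * Real.log T ^ 2 := by
  have hL := SZKScc_L hT
  have hL0 : 0 < Real.log T := by linarith
  have hs : 1 < 1 + 1 / (2 * Real.log T) := by
    have : 0 < 1 / (2 * Real.log T) := by positivity
    linarith
  obtain ⟨h1, h2⟩ := SZKScc_zs hs
  have hle : ∀ n : ℕ, |ArithmeticFunction.log n| * (n : ℝ) ^ (-(H82SZ.aT T)) ≤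
      2 * Real.log T * (n : ℝ) ^ (-(1 + 1 / (2 * Real.log T))) := by
    intro n
    rcases Nat.eq_zero_or_pos n with rfl | hn
    · simp only [ArithmeticFunction.map_zero, abs_zero, zero_mul]
      exact mul_nonneg (by positivity) (Real.rpow_nonneg (Nat.cast_nonneg _) _)
    · have hn1 : (1 : ℝ) ≤ n := by exact_mod_cast hn
      have hn0 : (0 : ℝ) < n := by linarith
      rw [ArithmeticFunction.log_apply, abs_of_nonneg (Real.log_nonneg hn1)]
      have e1 : Real.log (n : ℝ) ≤ (n : ℝ) ^ (1 / (2 * Real.log T)) / (1 / (2 * Real.log T)) :=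
        Real.log_le_rpow_div hn0.le (by positivity)
      have e2 : (n : ℝ) ^ (1 / (2 * Real.log T)) / (1 / (2 * Real.log T)) =
          2 * Real.log T * (n : ℝ) ^ (1 / (2 * Real.log T)) := by
        field_simp
      rw [e2] at e1
      have e3 : (n : ℝ) ^ (1 / (2 * Real.log T)) * (n : ℝ) ^ (-(H82SZ.aT T)) =
          (n : ℝ) ^ (-(1 + 1 / (2 * Real.log T))) := by
        rw [← Real.rpow_add hn0]
        congr 1
        unfold H82SZ.aT
        field_simp
        ring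
      calc Real.log (n : ℝ) * (n : ℝ) ^ (-(H82SZ.aT T)) ≤
          (2 * Real.log T * (n : ℝ) ^ (1 / (2 * Real.log T))) * (n : ℝ) ^ (-(H82SZ.aT T)) :=
            mul_le_mul_of_nonneg_right e1 (Real.rpow_nonneg hn0.le _)
        _ = 2 * Real.log T * (n : ℝ) ^ (-(1 + 1 / (2 * Real.log T))) := by
            rw [mul_assoc, e3]
  have h1' := h1.mul_left (2 * Real.log T)
  have h3 : SC (H82SZ.aT T) ArithmeticFunction.log := Summable.of_nonneg_of_le
    (fun n => mul_nonneg (abs_nonneg _) (Real.rpow_nonneg (Nat.cast_nonneg n) _)) hle h1'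
  refine ⟨h3, ?_⟩
  have h4 : SS (H82SZ.aT T) ArithmeticFunction.log ≤
      ∑' n : ℕ, 2 * Real.log T * (n : ℝ) ^ (-(1 + 1 / (2 * Real.log T))) :=
    h3.tsum_le_tsum hle h1'
  rw [tsum_mul_left] at h4
  have h5 : 1 / (1 + 1 / (2 * Real.log T) - 1) = 2 * Real.log T := by
    rw [add_sub_cancel_left, one_div_one_div]
  rw [h5] at h2
  have h6 : 2 * Real.log T * ∑' n : ℕ, (n : ℝ) ^ (-(1 + 1 / (2 * Real.log T))) ≤
      2 * Real.log T * (1 + 2 * Real.log T) := mul_le_mul_of_nonneg_left h2 (by positivity)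
  nlinarith

theorem SS_vM {T : ℝ} (hT : 3 ≤ T) : SC (H82SZ.aT T) (Λ : ArithmeticFunction ℝ) ∧
    SS (H82SZ.aT T) (Λ : ArithmeticFunction ℝ) ≤ 6 * Real.log T ^ 2 := by
  obtain ⟨h1, h2⟩ := SS_log hT
  have h : ∀ n, |(Λ : ArithmeticFunction ℝ) n| ≤ |ArithmeticFunction.log n| := by
    intro n
    rw [abs_of_nonneg ArithmeticFunction.vonMangoldt_nonneg]
    exact ArithmeticFunction.vonMangoldt_le_log.trans (le_abs_self _)
  obtain ⟨h3, h4⟩ := SZKScc_le h h1
  exact ⟨h3, h4.trans h2⟩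

theorem SS_fk {c0 θ θ' : ℝ} {α P : ℝ → ℝ} (hα : H82SZ.Adm θ α) (hP : H82SZ.Adm θ' P) : ∃ C : ℝ, 0 ≤ C ∧
    ∀ T : ℝ, 3 ≤ T → SC (H82SZ.aT T) (H82SZ.fk c0 α P T) ∧
      SS (H82SZ.aT T) (H82SZ.fk c0 α P T) ≤ C * Real.log T ^ 2 := by
  obtain ⟨A, hA⟩ := hα.cpt.exists_bound_of_continuous hα.smooth.continuous
  obtain ⟨B, hB⟩ := hP.cpt.exists_bound_of_continuous hP.smooth.continuous
  have hA0 : 0 ≤ A := (norm_nonneg _).trans (hA 0)
  have hB0 : 0 ≤ B := (norm_nonneg _).trans (hB 0)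
  refine ⟨2 * |c0| + 6 * A + 12 * B, by positivity, fun T hT => ?_⟩
  have hL := SZKScc_L hT
  have hL0 : 0 < Real.log T := by linarith
  obtain ⟨z1, z2⟩ := SS_zeta hT
  obtain ⟨l1, l2⟩ := SS_log hT
  obtain ⟨v1, v2⟩ := SS_vM hT
  -- the function `1`
  have o := SZKScc_le (a := H82SZ.aT T) (c := (1 : ArithmeticFunction ℝ)) (d := (ζ : ArithmeticFunction ℝ))
    (fun n => by
      rw [ArithmeticFunction.natCoe_apply, ArithmeticFunction.zeta_apply, ArithmeticFunction.one_apply]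
      rcases Nat.eq_zero_or_pos n with rfl | hn
      · simp
      · rcases eq_or_ne n 1 with rfl | h1
        · simp
        · simp [h1]) z1
  have o1 := SC_smul o.1 c0
  -- `xk`
  have x := SZKScc_le (a := H82SZ.aT T) (c := H82SZ.xk P T) (d := B • (ζ : ArithmeticFunction ℝ))
    (fun n => by
      rcases Nat.eq_zero_or_pos n with rfl | hn
      · simp
      · have e1 : (B • (ζ : ArithmeticFunction ℝ)) n = B := by
          rw [ArithmeticFunction.smul_map, ArithmeticFunction.natCoe_apply, ArithmeticFunction.zeta_apply,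
            if_neg hn.ne']
          simp
        rw [e1, abs_of_nonneg hB0]
        show |(ArithmeticFunction.moebius n : ℝ) * P (Real.log n / Real.log T)| ≤ B
        rw [abs_mul]
        have e2 : |(ArithmeticFunction.moebius n : ℝ)| ≤ 1 := by
          exact_mod_cast (ArithmeticFunction.abs_moebius_le_one (n := n))
        have e3 : |P (Real.log n / Real.log T)| ≤ B := hB _
        nlinarith [abs_nonneg (P (Real.log n / Real.log T)), abs_nonneg ((ArithmeticFunction.moebius n : ℝ))])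
    (SC_smul z1 B).1
  have x2 : SS (H82SZ.aT T) (H82SZ.xk P T) ≤ B * (2 * Real.log T) := by
    have := x.2
    rw [(SC_smul z1 B).2, abs_of_nonneg hB0] at this
    exact this.trans (mul_le_mul_of_nonneg_left z2 hB0)
  -- `yk`
  have y := SZKScc_le (a := H82SZ.aT T) (c := H82SZ.yk α T) (d := (A / Real.log T) • (Λ : ArithmeticFunction ℝ))
    (fun n => by
      show |ArithmeticFunction.vonMangoldt n * α (Real.log n / Real.log T) / Real.log T| ≤ _
      rw [ArithmeticFunction.smul_map, smul_eq_mul, abs_mul, abs_div, abs_mul, abs_div,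
        abs_of_nonneg hA0, abs_of_pos hL0]
      have e3 : |α (Real.log n / Real.log T)| ≤ A := hA _
      have e4 : |(Λ : ArithmeticFunction ℝ) n| * |α (Real.log n / Real.log T)| ≤
        |(Λ : ArithmeticFunction ℝ) n| * A := mul_le_mul_of_nonneg_left e3 (abs_nonneg _)
      calc |(Λ : ArithmeticFunction ℝ) n| * |α (Real.log n / Real.log T)| / Real.log T ≤
          |(Λ : ArithmeticFunction ℝ) n| * A / Real.log T := by gcongr
        _ = A / Real.log T * |(Λ : ArithmeticFunction ℝ) n| := by ring)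
    (SC_smul v1 (A / Real.log T)).1
  have y2 : SS (H82SZ.aT T) (H82SZ.yk α T) ≤ 6 * A * Real.log T := by
    have := y.2
    rw [(SC_smul v1 (A / Real.log T)).2, abs_of_nonneg (by positivity)] at this
    refine this.trans ?_
    calc A / Real.log T * SS (H82SZ.aT T) (Λ : ArithmeticFunction ℝ) ≤
        A / Real.log T * (6 * Real.log T ^ 2) := mul_le_mul_of_nonneg_left v2 (by positivity)
      _ = 6 * A * Real.log T := by field_simp
  -- `log * xk`
  have m := SC_mul l1 x.1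
  have m2 : SS (H82SZ.aT T) (ArithmeticFunction.log * H82SZ.xk P T) ≤
      6 * Real.log T ^ 2 * (B * (2 * Real.log T)) :=
    m.2.trans (mul_le_mul l2 x2 SS_nonneg (by positivity))
  have m3 := SC_smul m.1 (Real.log T)⁻¹
  have m4 : SS (H82SZ.aT T) ((Real.log T)⁻¹ • (ArithmeticFunction.log * H82SZ.xk P T)) ≤
      12 * B * Real.log T ^ 2 := by
    rw [m3.2, abs_of_nonneg (by positivity)]
    calc (Real.log T)⁻¹ * SS (H82SZ.aT T) (ArithmeticFunction.log * H82SZ.xk P T) ≤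
        (Real.log T)⁻¹ * (6 * Real.log T ^ 2 * (B * (2 * Real.log T))) :=
          mul_le_mul_of_nonneg_left m2 (by positivity)
      _ = 12 * B * Real.log T ^ 2 := by field_simp; ring
  have s1 := SC_add o1.1 y.1
  have s2 := SC_add s1.1 m3.1
  refine ⟨s2.1, s2.2.trans ?_⟩
  have o2 : SS (H82SZ.aT T) (c0 • (1 : ArithmeticFunction ℝ)) ≤ |c0| * (2 * Real.log T) := by
    rw [o1.2]
    exact mul_le_mul_of_nonneg_left (o.2.trans z2) (abs_nonneg _)
  have hLL : Real.log T ≤ Real.log T ^ 2 := by nlinarith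
  have hc : |c0| * (2 * Real.log T) ≤ 2 * |c0| * Real.log T ^ 2 := by
    nlinarith [abs_nonneg c0, mul_le_mul_of_nonneg_left hLL (abs_nonneg c0)]
  have ha : 6 * A * Real.log T ≤ 6 * A * Real.log T ^ 2 := by
    nlinarith [mul_le_mul_of_nonneg_left hLL hA0]
  have := s1.2
  nlinarith

end H74SZ
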