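import Mathlib
import Pool.Agent.H74.SZ.Scc

/-!
DSE: Dirichlet series on `Re s > 1`. Use the STATEMENTS of `Scb.lean`, `Scc.lean`.

Proof. `dser c s` is `LSeries (fun n => (c n : ℂ)) s` (`LSeries.term`: the term `n = 0` is `0`, and `c 0 = 0` here; `(c n) / n^s = c n * n^(-s)`), and `SC (Re s) c` is `LSeriesSummable`. `dser_mul`: `ArithmeticFunction.LSeries_mul` (for the casts to `ℂ` of `c`, `d`; the cast of the Dirichlet convolution is the convolution
 of the casts) or `LSeries_convolution'`. `dser_zeta`: `ArithmeticFunction.LSeries_zeta_eq_riemannZeta`. `dser_log`: `LSeries_deriv` for the constant one (`LSeries.term`-wise derivative) i.e. `∑ log n n^{-s} = - ζ'(s)`; in Mathlib: `LSeries_deriv`, `LSeries_one_eq_riemannZeta`, `LSeries.logMul`.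
 `dser_vM`: `ArithmeticFunction.LSeries_vonMangoldt_eq_deriv_riemannZeta_div`. `dser_fin`: the terms with `n > ⌊T⌋` vanish. `FF_dser`: `xk P T n = 0` and `y0 c0 α T n = 0` for `n > ⌊T⌋` (`log n / L > 1`), so `FF = dser y0 + dser log · dser xk / L = dser fk` (additivity of `dser` under absolute convergence).
-/

open Finset
open scoped ArithmeticFunction.vonMangoldt ArithmeticFunction.Moebius ArithmeticFunction.zeta

namespace H74SZ

private theorem SZKDse_term (c : ArithmeticFunction ℝ) (s : ℂ) (n : ℕ) :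
    (c n : ℂ) * (n : ℂ) ^ (-s) = LSeries.term (fun n => (c n : ℂ)) s n := by
  rw [LSeries.term_def₀ (by simp)]

private theorem SZKDse_eq (c : ArithmeticFunction ℝ) (s : ℂ) :
    dser c s = LSeries (fun n => (c n : ℂ)) s := by
  unfold dser LSeries
  exact tsum_congr fun n => SZKDse_term c s n

private theorem SZKDse_sum {c : ArithmeticFunction ℝ} {s : ℂ} (hc : SC s.re c) :
    LSeriesSummable (fun n => (c n : ℂ)) s := by
  refine Summable.of_norm ?_
  refine Summable.congr hc fun n => ?_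
  rw [LSeries.norm_term_eq]
  split_ifs with h
  · rw [h]
    simp
  · rw [Complex.norm_real, Real.norm_eq_abs, Real.rpow_neg (Nat.cast_nonneg n), div_eq_mul_inv]

private theorem SZKDse_sum' {c : ArithmeticFunction ℝ} {s : ℂ} (hc : SC s.re c) :
    Summable fun n : ℕ => (c n : ℂ) * (n : ℂ) ^ (-s) := by
  refine Summable.congr (SZKDse_sum hc) fun n => ?_
  rw [SZKDse_term]

theorem dser_mul {c d : ArithmeticFunction ℝ} {s : ℂ} (hc : SC s.re c) (hd : SC s.re d) :
    dser (c * d) s = dser c s * dser d s := by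
  obtain ⟨cc, hcc⟩ : ∃ cc : ArithmeticFunction ℂ, ∀ n, cc n = (c n : ℂ) :=
    ⟨⟨fun n => (c n : ℂ), by simp⟩, fun n => rfl⟩
  obtain ⟨dd, hdd⟩ : ∃ dd : ArithmeticFunction ℂ, ∀ n, dd n = (d n : ℂ) :=
    ⟨⟨fun n => (d n : ℂ), by simp⟩, fun n => rfl⟩
  have e1 : (fun n => (c n : ℂ)) = fun n => cc n := funext fun n => (hcc n).symm
  have e2 : (fun n => (d n : ℂ)) = fun n => dd n := funext fun n => (hdd n).symm
  have e3 : (fun n => ((c * d) n : ℂ)) = fun n => (cc * dd) n := by
    funext n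
    rw [ArithmeticFunction.mul_apply, ArithmeticFunction.mul_apply, Complex.ofReal_sum]
    refine sum_congr rfl fun x _ => ?_
    rw [hcc, hdd, Complex.ofReal_mul]
  have h1 := SZKDse_sum hc
  have h2 := SZKDse_sum hd
  rw [e1] at h1
  rw [e2] at h2
  rw [SZKDse_eq, SZKDse_eq, SZKDse_eq, e1, e2, e3]
  exact ArithmeticFunction.LSeries_mul' h1 h2

theorem dser_add {c d : ArithmeticFunction ℝ} {s : ℂ} (hc : SC s.re c) (hd : SC s.re d) :
    dser (c + d) s = dser c s + dser d s := by
  unfold dser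
  rw [← (SZKDse_sum' hc).tsum_add (SZKDse_sum' hd)]
  refine tsum_congr fun n => ?_
  rw [ArithmeticFunction.add_apply, Complex.ofReal_add, add_mul]

theorem dser_zeta {s : ℂ} (hs : 1 < s.re) : dser (ζ : ArithmeticFunction ℝ) s = riemannZeta s := by
  rw [SZKDse_eq, ← ArithmeticFunction.LSeries_zeta_eq_riemannZeta hs]
  congr 1

theorem dser_log {s : ℂ} (hs : 1 < s.re) : dser ArithmeticFunction.log s = -deriv riemannZeta s := by
  have h1 : deriv (LSeries 1) s = deriv riemannZeta s := by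
    apply Filter.EventuallyEq.deriv_eq
    have hopen : IsOpen {z : ℂ | 1 < z.re} := isOpen_lt continuous_const Complex.continuous_re
    filter_upwards [hopen.mem_nhds hs] with z hz
    exact LSeries_one_eq_riemannZeta hz
  have h2 := LSeries_deriv (f := 1) (s := s) (by
    rw [LSeries.abscissaOfAbsConv_one]
    exact_mod_cast hs)
  rw [h1] at h2
  rw [h2, neg_neg, SZKDse_eq]
  congr 1
  funext n
  simp [LSeries.logMul, ArithmeticFunction.log_apply]

theorem dser_vM {s : ℂ} (hs : 1 < s.re) : dser (Λ : ArithmeticFunction ℝ) s = -logDeriv riemannZeta s := by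
  rw [SZKDse_eq, ArithmeticFunction.LSeries_vonMangoldt_eq_deriv_riemannZeta_div hs, logDeriv_apply,
    neg_div]

theorem dser_fin {T : ℝ} {c : ArithmeticFunction ℝ} (hc : ∀ n, H82SZ.NT T < n → c n = 0) (s : ℂ) :
    dser c s = H82SZ.dpol T c s := by
  unfold dser H82SZ.dpol
  refine tsum_eq_sum fun n hn => ?_
  rw [mem_Icc, not_and_or, not_le, not_le] at hn
  rcases hn with h | h
  · have h0 : n = 0 := by omega
    rw [h0]
    simp
  · rw [hc n h]
    simp

private theorem SZKDse_adm {θ : ℝ} (hθ : θ ≤ 1) {P : ℝ → ℝ} (hP : H82SZ.Adm θ P) {T : ℝ}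
    (hT : 3 ≤ T) {n : ℕ} (hn : H82SZ.NT T < n) : P (Real.log n / Real.log T) = 0 := by
  apply hP.zero
  have h1 : T < n := Nat.lt_of_floor_lt hn
  have h2 : 0 < Real.log T := Real.log_pos (by linarith)
  have h3 : Real.log T ≤ Real.log n := Real.log_le_log (by linarith) h1.le
  exact hθ.trans ((one_le_div h2).2 h3)

theorem FF_dser {c0 θ θ' : ℝ} (hθ : θ ≤ 1) (hθ' : θ' ≤ 1) {α P : ℝ → ℝ} (hα : H82SZ.Adm θ α)
    (hP : H82SZ.Adm θ' P) {T : ℝ} (hT : 3 ≤ T) {s : ℂ} (hs : s.re = H82SZ.aT T) :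
    H82SZ.FF c0 α P T s = dser (H82SZ.fk c0 α P T) s := by
  have hL : 0 < Real.log T := Real.log_pos (by linarith)
  have hs1 : 1 < s.re := by
    rw [hs]
    unfold H82SZ.aT
    have : 0 < 1 / Real.log T := by positivity
    linarith
  have hx : ∀ n, H82SZ.NT T < n → H82SZ.xk P T n = 0 := by
    intro n hn
    show (ArithmeticFunction.moebius n : ℝ) * P (Real.log n / Real.log T) = 0
    rw [SZKDse_adm hθ' hP hT hn, mul_zero]
  have hy : ∀ n, H82SZ.NT T < n → H82SZ.y0 c0 α T n = 0 := by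
    intro n hn
    have h3 : 1 ≤ H82SZ.NT T := by
      unfold H82SZ.NT
      exact Nat.le_floor (by push_cast; linarith)
    have e1 : (H82SZ.yk α T) n = 0 := by
      show ArithmeticFunction.vonMangoldt n * α (Real.log n / Real.log T) / Real.log T = 0
      rw [SZKDse_adm hθ hα hT hn, mul_zero, zero_div]
    have e2 : (1 : ArithmeticFunction ℝ) n = 0 := ArithmeticFunction.one_apply_ne (by omega)
    show (c0 • (1 : ArithmeticFunction ℝ) + H82SZ.yk α T) n = 0
    rw [ArithmeticFunction.add_apply, e1, add_zero]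
    show c0 • ((1 : ArithmeticFunction ℝ) n) = 0
    rw [e2, smul_zero]
  have cx : SC s.re (H82SZ.xk P T) := SC_fin hx
  have cy : SC s.re (H82SZ.y0 c0 α T) := SC_fin hy
  have cl : SC s.re ArithmeticFunction.log := by
    rw [hs]
    exact (SS_log hT).1
  have clx : SC s.re (ArithmeticFunction.log * H82SZ.xk P T) := (SC_mul cl cx).1
  have csm : SC s.re ((Real.log T)⁻¹ • (ArithmeticFunction.log * H82SZ.xk P T)) :=
    (SC_smul clx _).1
  have hsm : dser ((Real.log T)⁻¹ • (ArithmeticFunction.log * H82SZ.xk P T)) s =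
      (Real.log T : ℂ)⁻¹ * dser (ArithmeticFunction.log * H82SZ.xk P T) s := by
    unfold dser
    rw [← tsum_mul_left]
    refine tsum_congr fun n => ?_
    have e3 : ((Real.log T)⁻¹ • (ArithmeticFunction.log * H82SZ.xk P T)) n =
      (Real.log T)⁻¹ * (ArithmeticFunction.log * H82SZ.xk P T) n := rfl
    rw [e3, Complex.ofReal_mul, Complex.ofReal_inv, mul_assoc]
  unfold H82SZ.FF H82SZ.fk
  rw [dser_add cy csm, hsm, dser_mul cl cx, dser_log hs1, dser_fin hx, dser_fin hy]
  ring

end H74SZ
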