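import Mathlib
import Pool.Agent.H74.SZ.Defs

/-!
GAU: the Gaussian weight `Gs T` (`L = log T > 0`).

Proof. `A := L / T² > 0`, `b := a - 1/2`, `u := t - T`: `(s - 1/2 - iT)² = (b + i u)² = b² + 2 i b u - u²`, so `‖Gs T (a + it)‖ = exp (A (b² - u²))` (`Gs_norm`). `Gs_int`: `(1+|t|)^n e^{c|t|} exp(-A (t-T)²)` is integrable (compare with
 `exp (-A/2 (t-T)²)`-type Gaussians: `integrable_exp_neg_mul_sq`, polynomial and exponential factors are `O(exp (A/4 t²))`; or `integrable_rpow_mul_exp_neg_mul_sq`-type lemmas). `Gs_deriv`: `Gs` is an exponential of a polynomial.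
 `gau0`: `Gs T (a+it) e^{(a+it)τ} = exp (-A u² + (2 A i b + i τ) u + A b² + b τ) · e^{(1/2 + iT) τ}` and `integral_cexp_quadratic` (after the shift `t ↦ t - T`, `integral_sub_right_eq_self`): the value is `√(π/A) exp (A b² + b τ + (2Aib + iτ)²/(4A)) = √(π/A) exp (-τ²/(4A))`,
 and `(2π)⁻¹ √(π/A) = T/(2 √π √L) = om T`, `τ²/(4A) = T² τ²/(4L)`.
 `gau1`: the function `t ↦ Gs T (a+it) e^{(a+it)τ}` has the integrable derivative `i (G' e^{sτ} + τ G e^{sτ})`, whose integral is `0` (`MeasureTheory.integral_eq_zero_of_hasDerivAt_of_integrable`), so the integral of `G' e^{sτ}` is `-τ` times that of `gau0`.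
-/

open Finset MeasureTheory

namespace H74SZ

private lemma SZKGau_sq (a t T : ℝ) : ((a : ℂ) + t * Complex.I - 1 / 2 - T * Complex.I) ^ 2 =
    (((a - 1 / 2) ^ 2 - (t - T) ^ 2 : ℝ) : ℂ) + ((2 * (a - 1 / 2) * (t - T) : ℝ) : ℂ) * Complex.I := by
  push_cast
  linear_combination (t - T) ^ 2 * Complex.I_sq

theorem Gs_norm {T : ℝ} (hT : T ≠ 0) (a t : ℝ) : ‖H82SZ.Gs T (a + t * Complex.I)‖ =
    Real.exp (((a - 1 / 2) ^ 2 - (t - T) ^ 2) * Real.log T / T ^ 2) := by
  have _ := hT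
  unfold H82SZ.Gs
  rw [Complex.norm_exp, SZKGau_sq]
  congr 1
  have h : (((((a - 1 / 2) ^ 2 - (t - T) ^ 2 : ℝ) : ℂ) +
      ((2 * (a - 1 / 2) * (t - T) : ℝ) : ℂ) * Complex.I) * (Real.log T : ℂ) / (T : ℂ) ^ 2) =
      ((((a - 1 / 2) ^ 2 - (t - T) ^ 2) * Real.log T / T ^ 2 : ℝ) : ℂ) +
        ((2 * (a - 1 / 2) * (t - T) * Real.log T / T ^ 2 : ℝ) : ℂ) * Complex.I := by
    push_cast
    ring
  rw [h, Complex.add_re, Complex.ofReal_re, Complex.re_ofReal_mul, Complex.I_re, mul_zero,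
    add_zero]

theorem Gs_deriv (T : ℝ) (s : ℂ) : HasDerivAt (H82SZ.Gs T)
    (2 * (s - 1 / 2 - T * Complex.I) * (Real.log T : ℂ) / (T : ℂ) ^ 2 * H82SZ.Gs T s) s := by
  have h1 : HasDerivAt (fun s : ℂ => (s - 1 / 2 - T * Complex.I) ^ 2 * (Real.log T : ℂ) / (T : ℂ) ^ 2)
      (2 * (s - 1 / 2 - T * Complex.I) * (Real.log T : ℂ) / (T : ℂ) ^ 2) s := by
    have h2 : HasDerivAt (fun s : ℂ => s - 1 / 2 - T * Complex.I) 1 s :=
      ((hasDerivAt_id s).sub_const _).sub_const _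
    have h3 := ((h2.pow 2).mul_const (Real.log T : ℂ)).div_const ((T : ℂ) ^ 2)
    refine h3.congr_deriv ?_
    push_cast
    ring
  have h4 := h1.cexp
  refine h4.congr_deriv ?_
  unfold H82SZ.Gs
  ring

private lemma SZKGau_cont (T a : ℝ) : Continuous fun t : ℝ => H82SZ.Gs T (a + t * Complex.I) := by
  have h1 : Continuous (H82SZ.Gs T) := continuous_iff_continuousAt.2 fun s =>
    (Gs_deriv T s).continuousAt
  exact h1.comp (by fun_prop)

private lemma SZKGau_gauss {A : ℝ} (hA : 0 < A) (c d : ℝ) :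
    Integrable fun t : ℝ => Real.exp (-A * t ^ 2 + c * t + d) := by
  have h1 := (integrable_cexp_quadratic (b := (A : ℂ)) (by simpa using hA) (c : ℂ) (d : ℂ)).norm
  refine h1.congr (Filter.Eventually.of_forall fun t => ?_)
  change ‖Complex.exp (-(A : ℂ) * (t : ℂ) ^ 2 + c * t + d)‖ = _
  rw [show (-(A : ℂ) * (t : ℂ) ^ 2 + c * t + d) = ((-A * t ^ 2 + c * t + d : ℝ) : ℂ) by
    push_cast
    ring, Complex.norm_exp, Complex.ofReal_re]

private lemma SZKGau_A {T : ℝ} (hT : 1 < T) : 0 < Real.log T / T ^ 2 := by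
  have := Real.log_pos hT
  positivity

theorem Gs_int {T : ℝ} (hT : 1 < T) (a c : ℝ) (n : ℕ) :
    Integrable fun t : ℝ => (1 + |t|) ^ n * Real.exp (c * |t|) * ‖H82SZ.Gs T (a + t * Complex.I)‖ := by
  have hA := SZKGau_A hT
  set A := Real.log T / T ^ 2 with hAdef
  set k : ℝ := n + |c| with hk
  have h1 := (SZKGau_gauss hA (2 * A * T + k) (A * (a - 1 / 2) ^ 2 - A * T ^ 2)).add
    (SZKGau_gauss hA (2 * A * T - k) (A * (a - 1 / 2) ^ 2 - A * T ^ 2))
  refine h1.mono' ?_ (Filter.Eventually.of_forall fun t => ?_)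
  · have hc := SZKGau_cont T a
    have h2 : Continuous fun t : ℝ => (1 + |t|) ^ n * Real.exp (c * |t|) *
        ‖H82SZ.Gs T (a + t * Complex.I)‖ :=
      (((continuous_const.add continuous_abs).pow n).mul
        (Real.continuous_exp.comp (continuous_const.mul continuous_abs))).mul hc.norm
    exact h2.aestronglyMeasurable
  · have h0 : (0 : ℝ) ≤ (1 + |t|) ^ n * Real.exp (c * |t|) * ‖H82SZ.Gs T (a + t * Complex.I)‖ := by
      positivity
    rw [Real.norm_of_nonneg h0, Gs_norm (by positivity)]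
    have h2 : (1 + |t|) ^ n ≤ Real.exp (n * |t|) := by
      rw [Real.exp_nat_mul]
      refine pow_le_pow_left₀ (by positivity) ?_ n
      have := Real.add_one_le_exp |t|
      linarith
    have h3 : Real.exp (c * |t|) ≤ Real.exp (|c| * |t|) :=
      Real.exp_le_exp.2 (mul_le_mul_of_nonneg_right (le_abs_self c) (abs_nonneg t))
    have h4 : (1 + |t|) ^ n * Real.exp (c * |t|) ≤ Real.exp (k * |t|) := by
      refine (mul_le_mul h2 h3 (Real.exp_pos _).le (Real.exp_pos _).le).trans (le_of_eq ?_)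
      rw [← Real.exp_add, hk]
      ring_nf
    refine (mul_le_mul_of_nonneg_right h4 (Real.exp_pos _).le).trans ?_
    rw [← Real.exp_add]
    have h5 : ((a - 1 / 2) ^ 2 - (t - T) ^ 2) * Real.log T / T ^ 2 =
        ((a - 1 / 2) ^ 2 - (t - T) ^ 2) * A := by
      rw [hAdef]
      ring
    rw [h5]
    rcases abs_cases t with ⟨h6, _⟩ | ⟨h6, _⟩
    · rw [h6]
      have h7 : k * t + ((a - 1 / 2) ^ 2 - (t - T) ^ 2) * A =
        -A * t ^ 2 + (2 * A * T + k) * t + (A * (a - 1 / 2) ^ 2 - A * T ^ 2) := by ring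
      rw [h7]
      exact le_add_of_nonneg_right (Real.exp_pos _).le
    · rw [h6]
      have h7 : k * -t + ((a - 1 / 2) ^ 2 - (t - T) ^ 2) * A =
        -A * t ^ 2 + (2 * A * T - k) * t + (A * (a - 1 / 2) ^ 2 - A * T ^ 2) := by ring
      rw [h7]
      exact le_add_of_nonneg_left (Real.exp_pos _).le

private lemma SZKGau_dcont (T a : ℝ) :
    Continuous fun t : ℝ => deriv (H82SZ.Gs T) (a + t * Complex.I) := by
  have h0 : deriv (H82SZ.Gs T) = fun s => 2 * (s - 1 / 2 - T * Complex.I) * (Real.log T : ℂ) /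
      (T : ℂ) ^ 2 * H82SZ.Gs T s := funext fun s => (Gs_deriv T s).deriv
  rw [h0]
  have h1 : Continuous (H82SZ.Gs T) := continuous_iff_continuousAt.2 fun s =>
    (Gs_deriv T s).continuousAt
  have h2 : Continuous fun s : ℂ => 2 * (s - 1 / 2 - T * Complex.I) * (Real.log T : ℂ) /
      (T : ℂ) ^ 2 * H82SZ.Gs T s := by fun_prop
  exact h2.comp (by fun_prop : Continuous fun t : ℝ => (a : ℂ) + t * Complex.I)

theorem dGs_int {T : ℝ} (hT : 1 < T) (a c : ℝ) (n : ℕ) :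
    Integrable fun t : ℝ => (1 + |t|) ^ n * Real.exp (c * |t|) * ‖deriv (H82SZ.Gs T) (a + t * Complex.I)‖ := by
  have hA := SZKGau_A hT
  have h1 := (Gs_int hT a c (n + 1)).const_mul (2 * (|a - 1 / 2| + |T| + 1) * (Real.log T / T ^ 2))
  refine h1.mono' ?_ (Filter.Eventually.of_forall fun t => ?_)
  · have hc := SZKGau_dcont T a
    have h2 : Continuous fun t : ℝ => (1 + |t|) ^ n * Real.exp (c * |t|) *
        ‖deriv (H82SZ.Gs T) (a + t * Complex.I)‖ :=
      (((continuous_const.add continuous_abs).pow n).mul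
        (Real.continuous_exp.comp (continuous_const.mul continuous_abs))).mul hc.norm
    exact h2.aestronglyMeasurable
  · have h0 : (0 : ℝ) ≤ (1 + |t|) ^ n * Real.exp (c * |t|) *
      ‖deriv (H82SZ.Gs T) (a + t * Complex.I)‖ := by positivity
    rw [Real.norm_of_nonneg h0, (Gs_deriv T _).deriv, norm_mul]
    have h2 : ‖2 * ((a : ℂ) + t * Complex.I - 1 / 2 - T * Complex.I) * (Real.log T : ℂ) /
        (T : ℂ) ^ 2‖ ≤ 2 * (|a - 1 / 2| + |T| + 1) * (Real.log T / T ^ 2) * (1 + |t|) := by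
      have h3 : (2 * ((a : ℂ) + t * Complex.I - 1 / 2 - T * Complex.I) * (Real.log T : ℂ) /
        (T : ℂ) ^ 2) = ((2 * (Real.log T / T ^ 2) : ℝ) : ℂ) *
          (((a - 1 / 2 : ℝ) : ℂ) + ((t - T : ℝ) : ℂ) * Complex.I) := by
        push_cast
        ring
      rw [h3, norm_mul, Complex.norm_real, Real.norm_of_nonneg (by positivity)]
      have h4 : ‖((a - 1 / 2 : ℝ) : ℂ) + ((t - T : ℝ) : ℂ) * Complex.I‖ ≤
          |a - 1 / 2| + (|t| + |T|) := by
        refine (norm_add_le _ _).trans (add_le_add ?_ ?_)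
        · rw [Complex.norm_real, Real.norm_eq_abs]
        · rw [norm_mul, Complex.norm_I, mul_one, Complex.norm_real, Real.norm_eq_abs]
          exact abs_sub _ _
      have h5 : |a - 1 / 2| + (|t| + |T|) ≤ (|a - 1 / 2| + |T| + 1) * (1 + |t|) := by
        nlinarith [abs_nonneg (a - 1 / 2), abs_nonneg t, abs_nonneg T,
          mul_nonneg (abs_nonneg (a - 1 / 2)) (abs_nonneg t),
          mul_nonneg (abs_nonneg T) (abs_nonneg t)]
      have h6 : 0 ≤ 2 * (Real.log T / T ^ 2) := by positivity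
      have h7 := mul_le_mul_of_nonneg_left (h4.trans h5) h6
      refine h7.trans (le_of_eq ?_)
      ring
    have h8 : (0 : ℝ) ≤ (1 + |t|) ^ n * Real.exp (c * |t|) := by positivity
    have h9 := mul_le_mul_of_nonneg_left (mul_le_mul_of_nonneg_right h2
      (norm_nonneg (H82SZ.Gs T (a + t * Complex.I)))) h8
    refine h9.trans (le_of_eq ?_)
    ring

private lemma SZKGau_om {T : ℝ} (hT : 1 < T) :
    (2 * Real.pi)⁻¹ * Real.sqrt (Real.pi / (Real.log T / T ^ 2)) = H82SZ.om T := by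
  have hL := Real.log_pos hT
  have hT0 : 0 < T := by linarith
  have h1 : Real.pi / (Real.log T / T ^ 2) = Real.pi * (T ^ 2 / Real.log T) := by
    field_simp
  have hs : Real.sqrt Real.pi * Real.sqrt Real.pi = Real.pi :=
    Real.mul_self_sqrt Real.pi_pos.le
  have hs0 : Real.sqrt Real.pi ≠ 0 := (Real.sqrt_pos.2 Real.pi_pos).ne'
  have hl0 : Real.sqrt (Real.log T) ≠ 0 := (Real.sqrt_pos.2 hL).ne'
  rw [h1, Real.sqrt_mul Real.pi_pos.le, Real.sqrt_div (by positivity), Real.sqrt_sq hT0.le]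
  unfold H82SZ.om
  have h2 : (2 * Real.pi)⁻¹ = (2 * (Real.sqrt Real.pi * Real.sqrt Real.pi))⁻¹ := by rw [hs]
  rw [h2]
  field_simp

private lemma SZKGau_shift (T a τ t : ℝ) :
    H82SZ.Gs T (a + t * Complex.I) * Complex.exp ((a + t * Complex.I) * τ) =
      Complex.exp ((1 / 2 + T * Complex.I) * τ) *
        Complex.exp (-((Real.log T / T ^ 2 : ℝ) : ℂ) * ((t - T : ℝ) : ℂ) ^ 2 +
          (2 * ((Real.log T / T ^ 2 : ℝ) : ℂ) * ((a - 1 / 2 : ℝ) : ℂ) + τ) * Complex.I *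
            ((t - T : ℝ) : ℂ) + (((Real.log T / T ^ 2 : ℝ) : ℂ) * ((a - 1 / 2 : ℝ) : ℂ) ^ 2 +
              ((a - 1 / 2 : ℝ) : ℂ) * τ)) := by
  unfold H82SZ.Gs
  rw [← Complex.exp_add, ← Complex.exp_add]
  congr 1
  push_cast
  linear_combination ((Real.log T : ℂ) / (T : ℂ) ^ 2) * (t - T) ^ 2 * Complex.I_sq

theorem gau0 {T : ℝ} (hT : 1 < T) (a τ : ℝ) :
    (2 * Real.pi : ℂ)⁻¹ * ∫ t : ℝ, H82SZ.Gs T (a + t * Complex.I) * Complex.exp ((a + t * Complex.I) * τ) =
      Complex.exp ((1 / 2 + T * Complex.I) * τ) * (ph T τ : ℂ) := by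
  have hA := SZKGau_A hT
  have h0 := integral_sub_right_eq_self (μ := volume) (fun x : ℝ => Complex.exp
    (-((Real.log T / T ^ 2 : ℝ) : ℂ) * (x : ℂ) ^ 2 +
      (2 * ((Real.log T / T ^ 2 : ℝ) : ℂ) * ((a - 1 / 2 : ℝ) : ℂ) + τ) * Complex.I *
        (x : ℂ) + (((Real.log T / T ^ 2 : ℝ) : ℂ) * ((a - 1 / 2 : ℝ) : ℂ) ^ 2 +
          ((a - 1 / 2 : ℝ) : ℂ) * τ))) T
  have h1 : (fun t : ℝ => H82SZ.Gs T (a + t * Complex.I) * Complex.exp ((a + t * Complex.I) * τ)) =
      fun t : ℝ => Complex.exp ((1 / 2 + T * Complex.I) * τ) *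
        Complex.exp (-((Real.log T / T ^ 2 : ℝ) : ℂ) * ((t - T : ℝ) : ℂ) ^ 2 +
          (2 * ((Real.log T / T ^ 2 : ℝ) : ℂ) * ((a - 1 / 2 : ℝ) : ℂ) + τ) * Complex.I *
            ((t - T : ℝ) : ℂ) + (((Real.log T / T ^ 2 : ℝ) : ℂ) * ((a - 1 / 2 : ℝ) : ℂ) ^ 2 +
              ((a - 1 / 2 : ℝ) : ℂ) * τ)) := funext fun t => SZKGau_shift T a τ t
  rw [h1, integral_const_mul, h0, integral_cexp_quadratic (by
    rw [Complex.neg_re, Complex.ofReal_re]
    linarith), neg_neg]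
  have h2 : ((Real.pi : ℂ) / ((Real.log T / T ^ 2 : ℝ) : ℂ)) ^ (1 / 2 : ℂ) =
      ((Real.sqrt (Real.pi / (Real.log T / T ^ 2)) : ℝ) : ℂ) := by
    rw [Real.sqrt_eq_rpow, Complex.ofReal_cpow (by positivity)]
    push_cast
    rfl
  rw [h2]
  have hA0 : ((Real.log T / T ^ 2 : ℝ) : ℂ) ≠ 0 := Complex.ofReal_ne_zero.2 hA.ne'
  have h3 : (((Real.log T / T ^ 2 : ℝ) : ℂ) * ((a - 1 / 2 : ℝ) : ℂ) ^ 2 +
      ((a - 1 / 2 : ℝ) : ℂ) * τ) -
      ((2 * ((Real.log T / T ^ 2 : ℝ) : ℂ) * ((a - 1 / 2 : ℝ) : ℂ) + τ) * Complex.I) ^ 2 /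
        (4 * -((Real.log T / T ^ 2 : ℝ) : ℂ)) =
      ((-(T ^ 2 * τ ^ 2 / (4 * Real.log T)) : ℝ) : ℂ) := by
    have h4 : (-(T ^ 2 * τ ^ 2 / (4 * Real.log T)) : ℝ) = -(τ ^ 2 / (4 * (Real.log T / T ^ 2))) := by
      have := (Real.log_pos hT).ne'
      have hT0 : T ≠ 0 := by positivity
      field_simp
    rw [h4]
    generalize hAA : (Real.log T / T ^ 2 : ℝ) = A at hA0 ⊢
    generalize (a - 1 / 2 : ℝ) = b
    push_cast
    field_simp
    linear_combination ((2 * (A : ℂ) * b + τ) ^ 2) * Complex.I_sq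
  rw [h3]
  have h5 : (ph T τ : ℂ) = (H82SZ.om T : ℂ) * Complex.exp ((-(T ^ 2 * τ ^ 2 / (4 * Real.log T)) : ℝ) : ℂ) := by
    unfold ph
    push_cast
    rfl
  rw [h5, ← SZKGau_om hT]
  push_cast
  ring

private lemma SZKGau_re (a t τ : ℝ) : (((a : ℂ) + t * Complex.I) * τ).re = a * τ := by
  simp

theorem gau1 {T : ℝ} (hT : 1 < T) (a τ : ℝ) :
    (2 * Real.pi : ℂ)⁻¹ * ∫ t : ℝ, deriv (H82SZ.Gs T) (a + t * Complex.I) * Complex.exp ((a + t * Complex.I) * τ) =
      -(τ : ℂ) * (Complex.exp ((1 / 2 + T * Complex.I) * τ) * (ph T τ : ℂ)) := by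
  have hGi : Integrable fun t : ℝ => H82SZ.Gs T (a + t * Complex.I) *
      Complex.exp ((a + t * Complex.I) * τ) := by
    refine ((Gs_int hT a 0 0).const_mul (Real.exp (a * τ))).mono' ?_
      (Filter.Eventually.of_forall fun t => ?_)
    · exact ((SZKGau_cont T a).mul (by fun_prop)).aestronglyMeasurable
    · rw [norm_mul, Complex.norm_exp, SZKGau_re]
      simp [mul_comm]
  have hDi : Integrable fun t : ℝ => deriv (H82SZ.Gs T) (a + t * Complex.I) *
      Complex.exp ((a + t * Complex.I) * τ) := by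
    refine ((dGs_int hT a 0 0).const_mul (Real.exp (a * τ))).mono' ?_
      (Filter.Eventually.of_forall fun t => ?_)
    · exact ((SZKGau_dcont T a).mul (by fun_prop)).aestronglyMeasurable
    · rw [norm_mul, Complex.norm_exp, SZKGau_re]
      simp [mul_comm]
  have hd : ∀ t : ℝ, HasDerivAt (fun t : ℝ => H82SZ.Gs T (a + t * Complex.I) *
      Complex.exp ((a + t * Complex.I) * τ))
      (Complex.I * (deriv (H82SZ.Gs T) (a + t * Complex.I) * Complex.exp ((a + t * Complex.I) * τ)) +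
        Complex.I * (τ : ℂ) * (H82SZ.Gs T (a + t * Complex.I) *
          Complex.exp ((a + t * Complex.I) * τ))) t := by
    intro t
    have h1 : HasDerivAt (fun t : ℝ => (a : ℂ) + t * Complex.I) Complex.I t := by
      have h2 := ((hasDerivAt_id (t : ℂ)).comp_ofReal.mul_const Complex.I).const_add (a : ℂ)
      simpa using h2
    have h3 : HasDerivAt (H82SZ.Gs T) (deriv (H82SZ.Gs T) (a + t * Complex.I)) (a + t * Complex.I) := by
      rw [(Gs_deriv T _).deriv]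
      exact Gs_deriv T _
    have h4 := HasDerivAt.comp t h3 h1
    have h5 := h4.mul (h1.mul_const (τ : ℂ)).cexp
    refine h5.congr_deriv ?_
    rw [Function.comp_apply]
    ring
  have h0 := integral_eq_zero_of_hasDerivAt_of_integrable hd
    ((hDi.const_mul _).add (hGi.const_mul _)) hGi
  rw [integral_add (hDi.const_mul _) (hGi.const_mul _), integral_const_mul, integral_const_mul] at h0
  have h6 : ∫ t : ℝ, deriv (H82SZ.Gs T) (a + t * Complex.I) * Complex.exp ((a + t * Complex.I) * τ) =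
      -(τ : ℂ) * ∫ t : ℝ, H82SZ.Gs T (a + t * Complex.I) * Complex.exp ((a + t * Complex.I) * τ) := by
    have h7 := mul_left_cancel₀ Complex.I_ne_zero (a := Complex.I)
      (b := (∫ t : ℝ, deriv (H82SZ.Gs T) (a + t * Complex.I) * Complex.exp ((a + t * Complex.I) * τ)))
      (c := -(τ : ℂ) * ∫ t : ℝ, H82SZ.Gs T (a + t * Complex.I) *
        Complex.exp ((a + t * Complex.I) * τ)) (by linear_combination h0)
    exact h7
  rw [h6, ← gau0 hT a τ]
  ring

end H74SZ
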