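import Mathlib
import Pool.Agent.H74.SZ.Defs2
import Pool.Agent.H74.SZ.Gau

/-!
FUB: a Dirichlet series under a vertical integral; the diagonal kernel. Use the STATEMENTS of `Gau.lean`.

Proof. `vint_dser`: `‖c(n) n^{-s} H(s)‖ ≤ |c(n)| n^{-a} ‖H(s)‖` on `Re s = a`, so `∑_n ∫ ‖·‖ < ∞` and `MeasureTheory.hasSum_integral_of_summable_integral_norm` applies (each term is integrable: `n^{-s}` is continuous in `t` and bounded). Multiply by `(2π)⁻¹`.
 `vint_J`: `ρ^{-s} = exp (s · (-log ρ))` (`ρ > 0`), so the integral is `gau0` with `τ = -log ρ`; `ph T (-τ) = ph T τ`.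
-/

open Finset MeasureTheory

namespace H74SZ

private lemma SZKFub_c (a : ℝ) (c : ArithmeticFunction ℝ) (n : ℕ) :
    Continuous fun t : ℝ => (c n : ℂ) * (n : ℂ) ^ (-((a : ℂ) + t * Complex.I)) := by
  rcases Nat.eq_zero_or_pos n with rfl | hn
  · simp only [ArithmeticFunction.map_zero, Complex.ofReal_zero, zero_mul]
    exact continuous_const
  · have hn0 : (n : ℂ) ≠ 0 := by exact_mod_cast hn.ne'
    refine continuous_const.mul ?_
    exact Continuous.const_cpow (by fun_prop) (Or.inl hn0)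

private lemma SZKFub_n (a : ℝ) (c : ArithmeticFunction ℝ) (n : ℕ) (t : ℝ) :
    ‖(c n : ℂ) * (n : ℂ) ^ (-((a : ℂ) + t * Complex.I))‖ = |c n| * (n : ℝ) ^ (-a) := by
  rcases Nat.eq_zero_or_pos n with rfl | hn
  · simp
  · rw [norm_mul, Complex.norm_real, Real.norm_eq_abs, Complex.norm_natCast_cpow_of_pos hn]
    simp

private lemma SZKFub_i (a : ℝ) (c : ArithmeticFunction ℝ) {H : ℂ → ℂ}
    (hH : Integrable fun t : ℝ => H (a + t * Complex.I)) (n : ℕ) :
    Integrable fun t : ℝ => (c n : ℂ) * (n : ℂ) ^ (-((a : ℂ) + t * Complex.I)) *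
      H (a + t * Complex.I) := by
  refine hH.bdd_mul (c := |c n| * (n : ℝ) ^ (-a)) (SZKFub_c a c n).aestronglyMeasurable ?_
  exact Filter.Eventually.of_forall fun t => (SZKFub_n a c n t).le

theorem vint_dser {a : ℝ} {c : ArithmeticFunction ℝ} (hc : SC a c) {H : ℂ → ℂ}
    (hH : Integrable fun t : ℝ => H (a + t * Complex.I)) :
    (Summable fun n : ℕ => (c n : ℂ) * vint a fun s => (n : ℂ) ^ (-s) * H s) ∧
    vint a (fun s => dser c s * H s) = ∑' n : ℕ, (c n : ℂ) * vint a fun s => (n : ℂ) ^ (-s) * H s := by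
  have h1 : ∀ n : ℕ, ∫ t : ℝ, ‖(c n : ℂ) * (n : ℂ) ^ (-((a : ℂ) + t * Complex.I)) *
      H (a + t * Complex.I)‖ = |c n| * (n : ℝ) ^ (-a) * ∫ t : ℝ, ‖H (a + t * Complex.I)‖ := by
    intro n
    rw [← integral_const_mul]
    refine integral_congr_ae (Filter.Eventually.of_forall fun t => ?_)
    show ‖(c n : ℂ) * (n : ℂ) ^ (-((a : ℂ) + t * Complex.I)) * H (a + t * Complex.I)‖ = _
    rw [norm_mul, SZKFub_n]
  have h2 := hasSum_integral_of_summable_integral_norm (SZKFub_i a c hH) (by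
    simp only [h1]
    exact hc.mul_right _)
  have h3 := h2.mul_left ((2 * Real.pi : ℂ)⁻¹)
  have h4 : ∀ n : ℕ, (2 * Real.pi : ℂ)⁻¹ * ∫ t : ℝ, (c n : ℂ) *
      (n : ℂ) ^ (-((a : ℂ) + t * Complex.I)) * H (a + t * Complex.I) =
      (c n : ℂ) * vint a fun s => (n : ℂ) ^ (-s) * H s := by
    intro n
    have h5 : ∫ t : ℝ, (c n : ℂ) * (n : ℂ) ^ (-((a : ℂ) + t * Complex.I)) *
        H (a + t * Complex.I) = (c n : ℂ) * ∫ t : ℝ, (n : ℂ) ^ (-((a : ℂ) + t * Complex.I)) *
          H (a + t * Complex.I) := by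
      rw [← integral_const_mul]
      refine integral_congr_ae (Filter.Eventually.of_forall fun t => ?_)
      show (c n : ℂ) * (n : ℂ) ^ (-((a : ℂ) + t * Complex.I)) * H (a + t * Complex.I) =
        (c n : ℂ) * ((n : ℂ) ^ (-((a : ℂ) + t * Complex.I)) * H (a + t * Complex.I))
      rw [mul_assoc]
    unfold vint
    rw [h5]
    ring
  simp only [h4] at h3
  refine ⟨h3.summable, ?_⟩
  rw [h3.tsum_eq]
  unfold vint
  congr 1
  refine integral_congr_ae (Filter.Eventually.of_forall fun t => ?_)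
  show dser c ((a : ℂ) + t * Complex.I) * H (a + t * Complex.I) = _
  unfold dser
  exact tsum_mul_right.symm

theorem int_dser {a : ℝ} {c : ArithmeticFunction ℝ} (hc : SC a c) {H : ℂ → ℂ}
    (hH : Integrable fun t : ℝ => H (a + t * Complex.I)) :
    Integrable fun t : ℝ => dser c (a + t * Complex.I) * H (a + t * Complex.I) := by
  have h1 : Continuous fun t : ℝ => dser c ((a : ℂ) + t * Complex.I) := by
    unfold dser
    exact continuous_tsum (SZKFub_c a c) hc fun n t => (SZKFub_n a c n t).le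
  refine hH.bdd_mul (c := ∑' n : ℕ, |c n| * (n : ℝ) ^ (-a)) h1.aestronglyMeasurable ?_
  refine Filter.Eventually.of_forall fun t => ?_
  have h2 : Summable fun n : ℕ => ‖(c n : ℂ) * (n : ℂ) ^ (-((a : ℂ) + t * Complex.I))‖ := by
    simp only [SZKFub_n]
    exact hc
  have h3 := norm_tsum_le_tsum_norm h2
  simp only [SZKFub_n] at h3
  exact h3

theorem vint_J {T : ℝ} (hT : 1 < T) (a : ℝ) {ρ : ℝ} (hρ : 0 < ρ) :
    vint a (fun s => (ρ : ℂ) ^ (-s) * H82SZ.Gs T s) = JJ T ρ := by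
  have hρ0 : (ρ : ℂ) ≠ 0 := by exact_mod_cast hρ.ne'
  have h1 := gau0 hT a (-Real.log ρ)
  have h2 : ph T (-Real.log ρ) = ph T (Real.log ρ) := by
    unfold ph
    rw [neg_sq]
  rw [h2] at h1
  unfold vint JJ
  have h3 : Complex.exp (-((1 / 2 + T * Complex.I) * Real.log ρ)) =
      Complex.exp ((1 / 2 + T * Complex.I) * ((-Real.log ρ : ℝ) : ℂ)) := by
    congr 1
    push_cast
    ring
  rw [h3, ← h1]
  congr 1
  refine integral_congr_ae (Filter.Eventually.of_forall fun t => ?_)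
  show (ρ : ℂ) ^ (-((a : ℂ) + t * Complex.I)) * H82SZ.Gs T (a + t * Complex.I) = _
  rw [Complex.cpow_def_of_ne_zero hρ0, ← Complex.ofReal_log hρ.le, mul_comm]
  congr 1
  push_cast
  congr 1
  ring

end H74SZ
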