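import Mathlib
import Pool.Agent.H74.SZ.Defs

/-!
GAM: bounds of the Gamma function on vertical lines.

Proof. `gamma_one`: `Γ(1+it) Γ(1-it) = it Γ(it) Γ(1-it) = π i t / sin(π i t) = π t / sinh(π t)` (`Complex.Gamma_mul_Gamma_one_sub`, `Complex.Gamma_add_one`, `t ≠ 0`; the case `t = 0` is `Γ(1) = 1`), and
 `Γ(1 - it) = conj Γ(1 + it)` (`Complex.Gamma_conj`), so `‖Γ(1+it)‖² = π t / sinh (π t)`. For `x > 0`: `1 - e^{-2x} ≥ 2x / (1 + 2x)` (from `e^{2x} ≥ 1 + 2x`), so `x / sinh x = 2 x e^{-x} / (1 - e^{-2x}) ≤ (1 + 2x) e^{-x}`.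
 Hence `‖Γ(1+it)‖² ≤ (1 + 2π|t|) e^{-π|t|} ≤ (3 (1+|t|))² e^{-π|t|}`.
 `gamma_nat`: induction on `m`, `Γ(m + 1 + it) = (m + it) Γ(m + it)`, `‖m + it‖ ≤ (m + 1)(1 + |t|)`.
 `gamma_strip`: `s = σ + it`, `b = 2 - σ > 0` real: `Γ(s) Γ(b) = Γ(2 + it) B(s, b)` (`Complex.Gamma_mul_Gamma_eq_betaIntegral`), and `‖B(s, b)‖ ≤ ∫_0^1 x^{σ-1} (1-x)^{b-1} dx = Γ(σ)Γ(b)/Γ(2)` (norm of the integral
 at most the integral of the norms; the right side is the same identity for the real parameters, `‖Γ(σ)‖` is the real Gamma function), so `‖Γ(s)‖ ≤ Γ(σ) ‖Γ(2 + it)‖`; `Γ(σ)` is bounded for `σ` in `[1/2, 7/4]` (continuity on a compact set).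
 `gamma_le`: `‖Γ(s)‖ ≤ ∫_0^∞ e^{-x} x^{Re s - 1} dx = ‖Γ(Re s)‖` for `Re s > 0` (`Complex.Gamma_eq_integral`, `Complex.GammaIntegral`, norm of the integral).
-/

open Finset

namespace H74SZ

private theorem SZKGam_x {x : ℝ} (hx : 0 < x) : x / Real.sinh x ≤ (1 + 2 * x) * Real.exp (-x) := by
  have hs : 0 < Real.sinh x := Real.sinh_pos_iff.2 hx
  rw [div_le_iff₀ hs]
  have h1 : 1 + 2 * x ≤ Real.exp (2 * x) := by
    have h := Real.add_one_le_exp (2 * x)
    linarith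
  have h2 : Real.exp (-x) * Real.sinh x = (1 - Real.exp (-(2 * x))) / 2 := by
    rw [Real.sinh_eq, mul_div_assoc', mul_sub, ← Real.exp_add, ← Real.exp_add]
    have e1 : -x + x = 0 := by ring
    have e2 : -x + -x = -(2 * x) := by ring
    rw [e1, e2, Real.exp_zero]
  rw [mul_assoc, h2]
  have h3 : (1 + 2 * x) * Real.exp (-(2 * x)) ≤ 1 := by
    calc (1 + 2 * x) * Real.exp (-(2 * x)) ≤ Real.exp (2 * x) * Real.exp (-(2 * x)) :=
          mul_le_mul_of_nonneg_right h1 (Real.exp_pos _).le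
      _ = 1 := by rw [← Real.exp_add, add_neg_cancel, Real.exp_zero]
  nlinarith [h3]

private theorem SZKGam_sq {t : ℝ} (ht : t ≠ 0) : ‖Complex.Gamma (1 + t * Complex.I)‖ ^ 2 =
    (Real.pi * |t|) / Real.sinh (Real.pi * |t|) := by
  have hI : (t : ℂ) * Complex.I ≠ 0 := mul_ne_zero (Complex.ofReal_ne_zero.2 ht) Complex.I_ne_zero
  have h1 : Complex.Gamma (1 + t * Complex.I) = (t * Complex.I) * Complex.Gamma (t * Complex.I) := by
    rw [add_comm]
    exact Complex.Gamma_add_one _ hI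
  have h2 := Complex.Gamma_mul_Gamma_one_sub ((t : ℂ) * Complex.I)
  have h3 : Complex.Gamma (1 - t * Complex.I) = (starRingEnd ℂ) (Complex.Gamma (1 + t * Complex.I)) := by
    rw [← Complex.Gamma_conj]
    congr 1
    rw [map_add, map_one, map_mul, Complex.conj_ofReal, Complex.conj_I]
    ring
  have h4 : Complex.Gamma (1 + t * Complex.I) * Complex.Gamma (1 - t * Complex.I) =
      (t * Complex.I) * (Real.pi / Complex.sin (Real.pi * (t * Complex.I))) := by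
    rw [h1, mul_assoc, h2]
  have h5 : ‖Complex.Gamma (1 + t * Complex.I)‖ ^ 2 =
      ‖(t * Complex.I) * (Real.pi / Complex.sin (Real.pi * (t * Complex.I)))‖ := by
    rw [← h4, norm_mul, h3, RCLike.norm_conj, sq]
  rw [h5]
  have h6 : Complex.sin (Real.pi * (t * Complex.I)) = ((Real.sinh (Real.pi * t) : ℝ) : ℂ) * Complex.I := by
    rw [← mul_assoc, Complex.sin_mul_I, Complex.ofReal_sinh, Complex.ofReal_mul]
  rw [h6, norm_mul, norm_mul, norm_div, norm_mul, Complex.norm_I, Complex.norm_real, Complex.norm_real,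
    Complex.norm_real, mul_one, mul_one, Real.norm_eq_abs, Real.norm_eq_abs, Real.norm_eq_abs,
    abs_of_pos Real.pi_pos, Real.abs_sinh, abs_mul, abs_of_pos Real.pi_pos]
  ring

private theorem SZKGam_one (t : ℝ) : ‖Complex.Gamma (1 + t * Complex.I)‖ ≤
    3 * (1 + |t|) * Real.exp (-(Real.pi * |t| / 2)) := by
  by_cases ht : t = 0
  · subst ht
    simp
  · have ht0 : 0 < |t| := abs_pos.2 ht
    have hx : 0 < Real.pi * |t| := mul_pos Real.pi_pos ht0
    have h1 := SZKGam_sq ht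
    have h2 := SZKGam_x hx
    have hb : 0 ≤ 3 * (1 + |t|) * Real.exp (-(Real.pi * |t| / 2)) := by positivity
    have h3 : ‖Complex.Gamma (1 + t * Complex.I)‖ ^ 2 ≤
        (3 * (1 + |t|) * Real.exp (-(Real.pi * |t| / 2))) ^ 2 := by
      rw [h1]
      refine h2.trans ?_
      have h4 : Real.exp (-(Real.pi * |t| / 2)) ^ 2 = Real.exp (-(Real.pi * |t|)) := by
        rw [← Real.exp_nat_mul]
        congr 1
        push_cast
        ring
      rw [mul_pow, h4]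
      refine mul_le_mul_of_nonneg_right ?_ (Real.exp_pos _).le
      have hpi : Real.pi ≤ 4 := Real.pi_le_four
      nlinarith [mul_le_mul_of_nonneg_right hpi ht0.le, sq_nonneg (|t|)]
    exact (pow_le_pow_iff_left₀ (norm_nonneg _) hb two_ne_zero).1 h3

private theorem SZKGam_Ioo (u v : ℂ) : Complex.betaIntegral u v =
    ∫ x : ℝ in Set.Ioo 0 1, (x : ℂ) ^ (u - 1) * (1 - (x : ℂ)) ^ (v - 1) := by
  unfold Complex.betaIntegral
  rw [intervalIntegral.integral_of_le zero_le_one, MeasureTheory.integral_Ioc_eq_integral_Ioo]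

private theorem SZKGam_beta (σ b t : ℝ) :
    ‖Complex.betaIntegral (σ + t * Complex.I) b‖ ≤ ‖Complex.betaIntegral σ b‖ := by
  rw [SZKGam_Ioo, SZKGam_Ioo]
  have h1 : ∫ x : ℝ in Set.Ioo 0 1, (x : ℂ) ^ ((σ : ℂ) - 1) * (1 - (x : ℂ)) ^ ((b : ℂ) - 1) =
      ((∫ x : ℝ in Set.Ioo 0 1, x ^ (σ - 1) * (1 - x) ^ (b - 1) : ℝ) : ℂ) := by
    rw [← integral_complex_ofReal]
    refine MeasureTheory.setIntegral_congr_fun measurableSet_Ioo fun x hx => ?_
    show (x : ℂ) ^ ((σ : ℂ) - 1) * (1 - (x : ℂ)) ^ ((b : ℂ) - 1) = ((x ^ (σ - 1) * (1 - x) ^ (b - 1) : ℝ) : ℂ)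
    rw [Complex.ofReal_mul, Complex.ofReal_cpow hx.1.le, Complex.ofReal_cpow (sub_nonneg.2 hx.2.le)]
    push_cast
    rfl
  rw [h1, Complex.norm_real, Real.norm_eq_abs]
  refine le_trans ?_ (le_abs_self _)
  refine (MeasureTheory.norm_integral_le_integral_norm _).trans (le_of_eq ?_)
  refine MeasureTheory.setIntegral_congr_fun measurableSet_Ioo fun x hx => ?_
  show ‖(x : ℂ) ^ ((σ : ℂ) + t * Complex.I - 1) * (1 - (x : ℂ)) ^ ((b : ℂ) - 1)‖ = x ^ (σ - 1) * (1 - x) ^ (b - 1)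
  have h2 : (1 : ℂ) - (x : ℂ) = ((1 - x : ℝ) : ℂ) := by push_cast; rfl
  rw [norm_mul, h2, Complex.norm_cpow_eq_rpow_re_of_pos hx.1, Complex.norm_cpow_eq_rpow_re_of_pos (sub_pos.2 hx.2)]
  have h3 : ((σ : ℂ) + t * Complex.I - 1).re = σ - 1 := by simp
  have h4 : ((b : ℂ) - 1).re = b - 1 := by simp
  rw [h3, h4]

theorem gamma_one : ∃ C : ℝ, ∀ t : ℝ, ‖Complex.Gamma (1 + t * Complex.I)‖ ≤
    C * (1 + |t|) * Real.exp (-(Real.pi * |t| / 2)) :=
  ⟨3, SZKGam_one⟩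

theorem gamma_nat (m : ℕ) (hm : 1 ≤ m) : ∃ C : ℝ, ∀ t : ℝ, ‖Complex.Gamma (m + t * Complex.I)‖ ≤
    C * (1 + |t|) ^ m * Real.exp (-(Real.pi * |t| / 2)) := by
  induction m, hm using Nat.le_induction with
  | base =>
    refine ⟨3, fun t => ?_⟩
    rw [Nat.cast_one, pow_one]
    exact SZKGam_one t
  | succ m hm ih =>
    obtain ⟨C, hC⟩ := ih
    refine ⟨((m : ℝ) + 1) * C, fun t => ?_⟩
    have hne : (m : ℂ) + t * Complex.I ≠ 0 := by
      intro h
      have h1 := congrArg Complex.re h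
      simp at h1
      omega
    have h1 : Complex.Gamma (((m + 1 : ℕ) : ℂ) + t * Complex.I) =
        ((m : ℂ) + t * Complex.I) * Complex.Gamma ((m : ℂ) + t * Complex.I) := by
      rw [← Complex.Gamma_add_one _ hne]
      congr 1
      push_cast
      ring
    rw [h1, norm_mul]
    have h2 : ‖(m : ℂ) + t * Complex.I‖ ≤ ((m : ℝ) + 1) * (1 + |t|) := by
      refine (norm_add_le _ _).trans ?_
      rw [norm_mul, Complex.norm_I, mul_one, Complex.norm_real, Real.norm_eq_abs, Complex.norm_natCast]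
      have hm0 : (0 : ℝ) ≤ (m : ℝ) := Nat.cast_nonneg m
      nlinarith [abs_nonneg t, mul_nonneg hm0 (abs_nonneg t)]
    refine (mul_le_mul h2 (hC t) (norm_nonneg _) (by positivity)).trans (le_of_eq ?_)
    ring

theorem gamma_strip : ∃ C : ℝ, ∀ σ t : ℝ, 1 / 2 ≤ σ → σ ≤ 7 / 4 → ‖Complex.Gamma (σ + t * Complex.I)‖ ≤
    C * (1 + |t|) ^ 2 * Real.exp (-(Real.pi * |t| / 2)) := by
  obtain ⟨C, hC⟩ := gamma_nat 2 one_le_two
  have hcont : ContinuousOn (fun x : ℝ => Real.Gamma x) (Set.Icc (1 / 2) (7 / 4)) := by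
    intro x hx
    refine (Real.differentiableAt_Gamma fun m => ?_).continuousAt.continuousWithinAt
    have h0 : (0 : ℝ) ≤ (m : ℝ) := Nat.cast_nonneg m
    have h1 := hx.1
    intro h
    linarith
  obtain ⟨M, hM⟩ := isCompact_Icc.exists_bound_of_continuousOn hcont
  refine ⟨M * C, fun σ t h1 h2 => ?_⟩
  have hσ : 0 < σ := by linarith
  have hb : 0 < 2 - σ := by linarith
  have hbeta := SZKGam_beta σ (2 - σ) t
  have hre1 : 0 < ((σ : ℂ) + t * Complex.I).re := by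
    simp only [Complex.add_re, Complex.ofReal_re, Complex.mul_re, Complex.I_re, mul_zero, Complex.ofReal_im,
      Complex.I_im, mul_one, sub_self, add_zero]
    exact hσ
  have hre2 : 0 < (((2 - σ : ℝ) : ℂ)).re := by
    rw [Complex.ofReal_re]
    exact hb
  have hre3 : 0 < ((σ : ℂ)).re := by
    rw [Complex.ofReal_re]
    exact hσ
  have e1 := Complex.Gamma_mul_Gamma_eq_betaIntegral hre1 hre2
  have e2 := Complex.Gamma_mul_Gamma_eq_betaIntegral hre3 hre2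
  have a1 : (σ : ℂ) + t * Complex.I + ((2 - σ : ℝ) : ℂ) = ((2 : ℕ) : ℂ) + t * Complex.I := by
    push_cast
    ring
  have a2 : (σ : ℂ) + ((2 - σ : ℝ) : ℂ) = 1 + 1 := by
    push_cast
    ring
  rw [a1] at e1
  have hG2 : Complex.Gamma (1 + 1) = 1 := by
    rw [Complex.Gamma_add_one 1 one_ne_zero, Complex.Gamma_one, mul_one]
  rw [a2, hG2, one_mul] at e2
  have hpos : 0 < ‖Complex.Gamma ((2 - σ : ℝ) : ℂ)‖ :=
    norm_pos_iff.2 (Complex.Gamma_ne_zero_of_re_pos hre2)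
  have h3 : ‖Complex.Gamma (σ + t * Complex.I)‖ * ‖Complex.Gamma ((2 - σ : ℝ) : ℂ)‖ ≤
      (‖Complex.Gamma (σ : ℂ)‖ * ‖Complex.Gamma (((2 : ℕ) : ℂ) + t * Complex.I)‖) * ‖Complex.Gamma ((2 - σ : ℝ) : ℂ)‖ := by
    rw [← norm_mul, e1, norm_mul]
    refine (mul_le_mul_of_nonneg_left hbeta (norm_nonneg _)).trans (le_of_eq ?_)
    rw [← e2, norm_mul]
    ring
  have h4 := le_of_mul_le_mul_right h3 hpos
  have h5 : ‖Complex.Gamma (σ : ℂ)‖ ≤ M := by
    rw [Complex.Gamma_ofReal, Complex.norm_real]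
    exact hM σ ⟨h1, h2⟩
  have hM0 : 0 ≤ M := (norm_nonneg _).trans h5
  refine h4.trans ((mul_le_mul h5 (hC t) (norm_nonneg _) hM0).trans (le_of_eq ?_))
  ring

theorem gamma_le {s : ℂ} (hs : 0 < s.re) : ‖Complex.Gamma s‖ ≤ ‖Complex.Gamma (s.re : ℂ)‖ := by
  rw [Complex.Gamma_ofReal, Complex.norm_real, Real.Gamma_eq_integral hs, Complex.Gamma_eq_integral hs,
    Real.norm_eq_abs]
  refine le_trans ?_ (le_abs_self _)
  unfold Complex.GammaIntegral
  refine (MeasureTheory.norm_integral_le_integral_norm _).trans (le_of_eq ?_)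
  refine MeasureTheory.setIntegral_congr_fun measurableSet_Ioi fun x hx => ?_
  show ‖((Real.exp (-x) : ℝ) : ℂ) * (x : ℂ) ^ (s - 1)‖ = Real.exp (-x) * x ^ (s.re - 1)
  rw [norm_mul, Complex.norm_real, Real.norm_eq_abs, abs_of_pos (Real.exp_pos _),
    Complex.norm_cpow_eq_rpow_re_of_pos hx]
  have h3 : (s - 1).re = s.re - 1 := by simp
  rw [h3]

end H74SZ
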