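import Mathlib
import Pool.Agent.H74.SZ.Gam

/-!
MEL: the Mellin transform of `e^{-z x}` in the variable `τ = log x`, and the regularised kernel formula.

Proof. `mel_int`, `mel`: `Complex.integral_cpow_mul_exp_neg_mul_Ioi` is `∫_{x > 0} x^{s-1} e^{-z x} dx = (1/z)^s Γ(s)`; substitute `x = e^τ` (`MeasureTheory.integral_image_eq_integral_abs_deriv_smul` for `exp` on `univ`, image `Ioi 0`, resp.
 `MeasureTheory.integrableOn_image_iff_integrableOn_abs_deriv_smul`): `x^{s-1} dx = e^{sτ} dτ`; `(1/z)^s = z^{-s}` since `arg z ≠ π`. Integrability: `‖e^{-z e^τ} e^{sτ}‖ = e^{-Re z e^τ} e^{Re s τ}` is the substitution of the (convergent) real Gamma integral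
 (`Real.GammaIntegral_convergent` scaled, or `integrable` part of the complex one).
 `mel_fub`: by `mel`, the left side is `(2π)⁻¹ ∫ g(t) ∫ e^{-z e^τ} e^{(a+it)τ} dτ dt`; Fubini (`MeasureTheory.integral_integral_swap`) is allowed as `|g(t)| e^{-Re z e^τ} e^{a τ}` is integrable on the product (`Integrable.mul_prod`
 of `g` and the function of `mel_int`, times a measurable factor of modulus one); then the hypothesis `hΦ` for every `τ`.
-/

open Finset MeasureTheory

namespace H74SZ

private theorem SZKMel_re (τ : ℝ) (z s : ℂ) :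
    Complex.exp (-(z * Real.exp τ)) * Complex.exp (s * τ) =
      Real.exp τ • ((fun x : ℝ => (x : ℂ) ^ (s - 1) * Complex.exp (-(z * x))) (Real.exp τ)) := by
  have h0 : ((Real.exp τ : ℝ) : ℂ) ≠ 0 := Complex.ofReal_ne_zero.2 (Real.exp_pos τ).ne'
  have h1 : ((Real.exp τ : ℝ) : ℂ) ^ (s - 1) = Complex.exp (τ * (s - 1)) := by
    rw [Complex.cpow_def_of_ne_zero h0, ← Complex.ofReal_log (Real.exp_pos τ).le, Real.log_exp]
  show _ = Real.exp τ • (((Real.exp τ : ℝ) : ℂ) ^ (s - 1) * Complex.exp (-(z * ((Real.exp τ : ℝ) : ℂ))))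
  rw [h1, Complex.real_smul, ← mul_assoc]
  have h2 : ((Real.exp τ : ℝ) : ℂ) * Complex.exp (τ * (s - 1)) = Complex.exp (s * τ) := by
    rw [Complex.ofReal_exp, ← Complex.exp_add]
    congr 1
    ring
  rw [h2, mul_comm]

private theorem SZKMel_img : Real.exp '' Set.univ = Set.Ioi 0 := by
  rw [Set.image_univ, Real.range_exp]

private theorem SZKMel_val (g : ℝ → ℂ) : ∫ x in Set.Ioi (0 : ℝ), g x = ∫ τ : ℝ, Real.exp τ • g (Real.exp τ) := by
  rw [← SZKMel_img, integral_image_eq_integral_abs_deriv_smul MeasurableSet.univ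
    (fun x _ => (Real.hasDerivAt_exp x).hasDerivWithinAt) (fun x _ y _ hxy => Real.exp_injective hxy) g,
    Measure.restrict_univ]
  simp only [abs_of_pos (Real.exp_pos _)]

private theorem SZKMel_on (g : ℝ → ℝ) : IntegrableOn g (Set.Ioi (0 : ℝ)) ↔
    Integrable (fun τ : ℝ => Real.exp τ • g (Real.exp τ)) := by
  rw [← SZKMel_img, integrableOn_image_iff_integrableOn_abs_deriv_smul MeasurableSet.univ
    (fun x _ => (Real.hasDerivAt_exp x).hasDerivWithinAt) (fun x _ y _ hxy => Real.exp_injective hxy) g,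
    integrableOn_univ]
  simp only [abs_of_pos (Real.exp_pos _)]

private theorem SZKMel_real {r σ : ℝ} (hr : 0 < r) (hσ : 0 < σ) :
    Integrable fun τ : ℝ => Real.exp (-(r * Real.exp τ)) * Real.exp (σ * τ) := by
  have h := integrableOn_rpow_mul_exp_neg_mul_rpow (p := 1) (s := σ - 1) (b := r) (by linarith) one_pos hr
  rw [SZKMel_on] at h
  refine h.congr (Filter.Eventually.of_forall fun τ => ?_)
  show Real.exp τ • (Real.exp τ ^ (σ - 1) * Real.exp (-r * Real.exp τ ^ (1 : ℝ))) = _
  rw [Real.rpow_one, smul_eq_mul, ← Real.exp_mul, ← mul_assoc, ← Real.exp_add, mul_comm]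
  congr 2 <;> ring

private theorem SZKMel_norm (z s : ℂ) (τ : ℝ) :
    ‖Complex.exp (-(z * Real.exp τ)) * Complex.exp (s * τ)‖ =
      Real.exp (-(z.re * Real.exp τ)) * Real.exp (s.re * τ) := by
  rw [norm_mul, Complex.norm_exp, Complex.norm_exp]
  congr 2
  · rw [Complex.neg_re, Complex.re_mul_ofReal]
  · rw [Complex.re_mul_ofReal]

private theorem SZKMel_cont (z s : ℂ) :
    Continuous fun τ : ℝ => Complex.exp (-(z * Real.exp τ)) * Complex.exp (s * τ) := by
  have h1 : Continuous fun τ : ℝ => ((Real.exp τ : ℝ) : ℂ) := Complex.continuous_ofReal.comp Real.continuous_exp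
  exact (Complex.continuous_exp.comp ((continuous_const.mul h1).neg)).mul
    (Complex.continuous_exp.comp (continuous_const.mul Complex.continuous_ofReal))

theorem mel_int {z : ℂ} (hz : 0 < z.re) {s : ℂ} (hs : 0 < s.re) :
    Integrable fun τ : ℝ => Complex.exp (-(z * Real.exp τ)) * Complex.exp (s * τ) := by
  refine (SZKMel_real hz hs).mono' (SZKMel_cont z s).aestronglyMeasurable
    (Filter.Eventually.of_forall fun τ => (SZKMel_norm z s τ).le)


private theorem SZKMel_base {r : ℝ} (hr : 0 < r) {s : ℂ} (hs : 0 < s.re) :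
    ∫ τ : ℝ, Complex.exp (-((r : ℂ) * Real.exp τ)) * Complex.exp (s * τ) = (r : ℂ) ^ (-s) * Complex.Gamma s := by
  have h := Complex.integral_cpow_mul_exp_neg_mul_Ioi hs hr
  rw [SZKMel_val] at h
  have h1 : ∫ τ : ℝ, Complex.exp (-((r : ℂ) * Real.exp τ)) * Complex.exp (s * τ) =
      ∫ τ : ℝ, Real.exp τ • ((fun x : ℝ => (x : ℂ) ^ (s - 1) * Complex.exp (-((r : ℂ) * x))) (Real.exp τ)) :=
    integral_congr_ae (Filter.Eventually.of_forall fun τ => SZKMel_re τ r s)
  rw [h1]
  refine h.trans ?_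
  congr 1
  rw [one_div, Complex.inv_cpow _ _ (by rw [Complex.arg_ofReal_of_nonneg hr.le]; exact Real.pi_pos.ne),
    Complex.cpow_neg]

private theorem SZKMel_diff {s : ℂ} (hs : 0 < s.re) {z₀ : ℂ} (hz : 0 < z₀.re) :
    DifferentiableAt ℂ (fun z : ℂ => ∫ τ : ℝ, Complex.exp (-(z * Real.exp τ)) * Complex.exp (s * τ)) z₀ := by
  have hopen : {z : ℂ | z₀.re / 2 < z.re} ∈ nhds z₀ := by
    refine (isOpen_lt continuous_const Complex.continuous_re).mem_nhds ?_
    show z₀.re / 2 < z₀.re
    linarith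
  have hs1 : (0 : ℝ) < (s + 1).re := by
    rw [Complex.add_re, Complex.one_re]
    linarith
  have hb := SZKMel_real (r := z₀.re / 2) (half_pos hz) hs1
  have key := hasDerivAt_integral_of_dominated_loc_of_deriv_le (μ := volume)
    (F := fun (z : ℂ) (τ : ℝ) => Complex.exp (-(z * Real.exp τ)) * Complex.exp (s * τ))
    (F' := fun (z : ℂ) (τ : ℝ) => -(Complex.exp (-(z * Real.exp τ)) * Complex.exp ((s + 1) * τ)))
    (x₀ := z₀) (s := {z : ℂ | z₀.re / 2 < z.re})
    (bound := fun τ : ℝ => Real.exp (-(z₀.re / 2 * Real.exp τ)) * Real.exp ((s + 1).re * τ)) hopen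
    (Filter.Eventually.of_forall fun z => (SZKMel_cont z s).aestronglyMeasurable)
    (mel_int hz hs) (SZKMel_cont z₀ (s + 1)).neg.aestronglyMeasurable
    (Filter.Eventually.of_forall fun τ z hzz => by
      have hzz' : z₀.re / 2 < z.re := hzz
      rw [norm_neg, SZKMel_norm]
      refine mul_le_mul_of_nonneg_right (Real.exp_le_exp.2 ?_) (Real.exp_pos _).le
      have := mul_le_mul_of_nonneg_right hzz'.le (Real.exp_pos τ).le
      linarith)
    hb
    (Filter.Eventually.of_forall fun τ z _ => by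
      have h1 : HasDerivAt (fun z : ℂ => -(z * ((Real.exp τ : ℝ) : ℂ))) (-(1 * ((Real.exp τ : ℝ) : ℂ))) z :=
        ((hasDerivAt_id z).mul_const _).neg
      have h2 := (h1.cexp).mul_const (Complex.exp (s * τ))
      refine h2.congr_deriv ?_
      have h3 : Complex.exp ((s + 1) * τ) = ((Real.exp τ : ℝ) : ℂ) * Complex.exp (s * τ) := by
        rw [Complex.ofReal_exp, ← Complex.exp_add]
        congr 1
        ring
      rw [h3]
      ring)
  exact key.2.differentiableAt

theorem mel {z : ℂ} (hz : 0 < z.re) {s : ℂ} (hs : 0 < s.re) :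
    ∫ τ : ℝ, Complex.exp (-(z * Real.exp τ)) * Complex.exp (s * τ) = z ^ (-s) * Complex.Gamma s := by
  have hU : IsOpen {z : ℂ | 0 < z.re} := isOpen_lt continuous_const Complex.continuous_re
  have hf : AnalyticOnNhd ℂ (fun z : ℂ => ∫ τ : ℝ, Complex.exp (-(z * Real.exp τ)) * Complex.exp (s * τ))
      {z : ℂ | 0 < z.re} :=
    DifferentiableOn.analyticOnNhd (fun w hw => (SZKMel_diff hs hw).differentiableWithinAt) hU
  have hg : AnalyticOnNhd ℂ (fun z : ℂ => z ^ (-s) * Complex.Gamma s) {z : ℂ | 0 < z.re} := by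
    refine DifferentiableOn.analyticOnNhd (fun w hw => ?_) hU
    have hw' : w ∈ Complex.slitPlane := Or.inl hw
    exact ((differentiableAt_id.cpow (differentiableAt_const _) hw').mul
      (differentiableAt_const _)).differentiableWithinAt
  have hconn : IsPreconnected {z : ℂ | 0 < z.re} := (convex_halfSpace_re_gt 0).isPreconnected
  have h1 : (1 : ℂ) ∈ {z : ℂ | 0 < z.re} := by
    show (0 : ℝ) < (1 : ℂ).re
    rw [Complex.one_re]
    exact one_pos
  have hfreq : ∃ᶠ w in nhdsWithin (1 : ℂ) {1}ᶜ,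
      (fun z : ℂ => ∫ τ : ℝ, Complex.exp (-(z * Real.exp τ)) * Complex.exp (s * τ)) w =
        (fun z : ℂ => z ^ (-s) * Complex.Gamma s) w := by
    have ht : Filter.Tendsto (fun n : ℕ => ((1 + 1 / ((n : ℝ) + 1) : ℝ) : ℂ)) Filter.atTop
        (nhdsWithin (1 : ℂ) {1}ᶜ) := by
      rw [tendsto_nhdsWithin_iff]
      constructor
      · have h2 : Filter.Tendsto (fun n : ℕ => (1 + 1 / ((n : ℝ) + 1) : ℝ)) Filter.atTop (nhds (1 + 0)) :=
          tendsto_const_nhds.add tendsto_one_div_add_atTop_nhds_zero_nat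
        have h3 := (Complex.continuous_ofReal.tendsto (1 + 0 : ℝ)).comp h2
        rw [add_zero, Complex.ofReal_one] at h3
        exact h3
      · refine Filter.Eventually.of_forall fun n => ?_
        intro h4
        have h5 : ((1 + 1 / ((n : ℝ) + 1) : ℝ) : ℂ) = ((1 : ℝ) : ℂ) := by
          rw [Complex.ofReal_one]
          exact h4
        have h6 := Complex.ofReal_injective h5
        have h7 : (0 : ℝ) < 1 / ((n : ℝ) + 1) := by positivity
        linarith
    refine ht.frequently (Filter.Frequently.of_forall fun n => ?_)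
    exact SZKMel_base (by positivity) hs
  exact hf.eqOn_of_preconnected_of_frequently_eq hg hconn h1 hfreq hz

theorem mel_fub {a : ℝ} (ha : 0 < a) {g Φ : ℝ → ℂ} (hg : Continuous g) (hgi : Integrable g)
    (hΦ : ∀ τ : ℝ, (2 * Real.pi : ℂ)⁻¹ * ∫ t : ℝ, g t * Complex.exp ((a + t * Complex.I) * τ) = Φ τ)
    {z : ℂ} (hz : 0 < z.re) :
    (2 * Real.pi : ℂ)⁻¹ * ∫ t : ℝ, g t * (z ^ (-(a + t * Complex.I : ℂ)) * Complex.Gamma (a + t * Complex.I)) =
      ∫ τ : ℝ, Complex.exp (-(z * Real.exp τ)) * Φ τ := by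
  have hre : ∀ t : ℝ, (a + t * Complex.I : ℂ).re = a := fun t => by
    rw [Complex.add_re, Complex.ofReal_re, Complex.re_ofReal_mul, Complex.I_re, mul_zero, add_zero]
  have ha' : (0 : ℝ) < (a : ℂ).re := by
    rw [Complex.ofReal_re]
    exact ha
  have h1 : ∀ t : ℝ, g t * (z ^ (-(a + t * Complex.I : ℂ)) * Complex.Gamma (a + t * Complex.I)) =
      ∫ τ : ℝ, g t * (Complex.exp (-(z * Real.exp τ)) * Complex.exp ((a + t * Complex.I) * τ)) := fun t => by
    rw [integral_const_mul, mel hz (by rw [hre]; exact ha)]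
  have hprod : Integrable (Function.uncurry fun (t τ : ℝ) =>
      g t * (Complex.exp (-(z * Real.exp τ)) * Complex.exp ((a + t * Complex.I) * τ)))
      ((volume : Measure ℝ).prod volume) := by
    have hp := hgi.mul_prod (mel_int hz ha')
    refine hp.mono ?_ (Filter.Eventually.of_forall fun p => ?_)
    · refine Continuous.aestronglyMeasurable ?_
      have c1 : Continuous fun p : ℝ × ℝ => ((Real.exp p.2 : ℝ) : ℂ) :=
        Complex.continuous_ofReal.comp (Real.continuous_exp.comp continuous_snd)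
      have c2 : Continuous fun p : ℝ × ℝ => (p.1 : ℂ) := Complex.continuous_ofReal.comp continuous_fst
      have c3 : Continuous fun p : ℝ × ℝ => (p.2 : ℂ) := Complex.continuous_ofReal.comp continuous_snd
      exact (hg.comp continuous_fst).mul ((Complex.continuous_exp.comp (continuous_const.mul c1).neg).mul
        (Complex.continuous_exp.comp ((continuous_const.add (c2.mul continuous_const)).mul c3)))
    · show ‖g p.1 * (Complex.exp (-(z * Real.exp p.2)) * Complex.exp ((a + p.1 * Complex.I) * p.2))‖ ≤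
        ‖g p.1 * (Complex.exp (-(z * Real.exp p.2)) * Complex.exp ((a : ℂ) * p.2))‖
      rw [norm_mul (g p.1), norm_mul (g p.1), SZKMel_norm, SZKMel_norm, hre, Complex.ofReal_re]
  calc (2 * Real.pi : ℂ)⁻¹ * ∫ t : ℝ, g t * (z ^ (-(a + t * Complex.I : ℂ)) * Complex.Gamma (a + t * Complex.I))
      = (2 * Real.pi : ℂ)⁻¹ * ∫ t : ℝ, ∫ τ : ℝ,
          g t * (Complex.exp (-(z * Real.exp τ)) * Complex.exp ((a + t * Complex.I) * τ)) := by
        congr 1
        exact integral_congr_ae (Filter.Eventually.of_forall h1)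
    _ = (2 * Real.pi : ℂ)⁻¹ * ∫ τ : ℝ, ∫ t : ℝ,
          g t * (Complex.exp (-(z * Real.exp τ)) * Complex.exp ((a + t * Complex.I) * τ)) := by
        rw [integral_integral_swap hprod]
    _ = ∫ τ : ℝ, (2 * Real.pi : ℂ)⁻¹ * ∫ t : ℝ,
          g t * (Complex.exp (-(z * Real.exp τ)) * Complex.exp ((a + t * Complex.I) * τ)) := by
        rw [integral_const_mul]
    _ = ∫ τ : ℝ, Complex.exp (-(z * Real.exp τ)) * Φ τ := by
        refine integral_congr_ae (Filter.Eventually.of_forall fun τ => ?_)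
        show (2 * Real.pi : ℂ)⁻¹ * ∫ t : ℝ,
          g t * (Complex.exp (-(z * Real.exp τ)) * Complex.exp ((a + t * Complex.I) * τ)) =
            Complex.exp (-(z * Real.exp τ)) * Φ τ
        rw [← hΦ τ]
        have e1 : ∫ t : ℝ, g t * (Complex.exp (-(z * Real.exp τ)) * Complex.exp ((a + t * Complex.I) * τ)) =
            ∫ t : ℝ, Complex.exp (-(z * Real.exp τ)) * (g t * Complex.exp ((a + t * Complex.I) * τ)) :=
          integral_congr_ae (Filter.Eventually.of_forall fun t => by
            show g t * (Complex.exp (-(z * Real.exp τ)) * Complex.exp ((a + t * Complex.I) * τ)) =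
              Complex.exp (-(z * Real.exp τ)) * (g t * Complex.exp ((a + t * Complex.I) * τ))
            ring)
        rw [e1, integral_const_mul]
        ring

end H74SZ
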