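import Mathlib
import Pool.Agent.H74.SZ.Gam

/-!
XB: the factor `X(s)` of the functional equation. Use the STATEMENTS of `Gam.lean`.

Proof. `Xf_diff`: product of differentiable functions (`Complex.differentiableAt_Gamma`, the poles have `Re ≤ 0`). `Xf_nat`, `Xf_strip`: `‖(2π)^{-s}‖ = (2π)^{-σ} ≤ 1` (`σ ≥ 0`), `‖cos z‖ ≤ e^{|Im z|}` (from `cos z = (e^{iz} + e^{-iz})/2`),
 `Im (π s / 2) = π t / 2`, and the bounds of `Gam.lean`; the exponentials cancel. `dXf_strip`: Cauchy's estimate `Complex.norm_deriv_le_of_forall_mem_sphere_norm_le` on the circle of radius `1/4` (it lies in `1/2 ≤ Re ≤ 7/4`, and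
 `1 + |Im z| ≤ 2 (1 + |t|)` on it). `Xf_eq`: `2 cos(π s/2) = e^{i π s/2} + e^{-i π s/2}` and `(±2π i)^{-s} = (2π)^{-s} e^{∓ i π s/2}` (`Complex.cpow_def_of_ne_zero`, `log (±2π i) = log 2π ± i π/2`).
 `zeta_one_sub`: `riemannZeta_one_sub`. `dzeta_one_sub`: both sides of `ζ(1 - z) = X(z) ζ(z)` are differentiable near `s` (`Re z > 1` is an open condition), take the derivative at `s`: `- ζ'(1 - s) = X'(s) ζ(s) + X(s) ζ'(s)`.
-/

open Finset

namespace H74SZ

private theorem SZKXb_cos (z : ℂ) : ‖Complex.cos z‖ ≤ Real.exp |z.im| := by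
  have h1 : Complex.cos z = (Complex.exp (z * Complex.I) + Complex.exp (-z * Complex.I)) / 2 := rfl
  have h2 : ‖Complex.exp (z * Complex.I)‖ ≤ Real.exp |z.im| := by
    rw [Complex.norm_exp]
    refine Real.exp_le_exp.2 ?_
    rw [Complex.mul_I_re]
    exact neg_le_abs _
  have h3 : ‖Complex.exp (-z * Complex.I)‖ ≤ Real.exp |z.im| := by
    rw [Complex.norm_exp]
    refine Real.exp_le_exp.2 ?_
    rw [Complex.mul_I_re, Complex.neg_im, neg_neg]
    exact le_abs_self _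
  rw [h1, norm_div, Complex.norm_ofNat]
  have h4 := norm_add_le (Complex.exp (z * Complex.I)) (Complex.exp (-z * Complex.I))
  linarith

private theorem SZKXb_two_pi : (2 * (Real.pi : ℂ)) = ((2 * Real.pi : ℝ) : ℂ) := by
  push_cast
  ring

private theorem SZKXb_cpow {s : ℂ} (hs : 0 ≤ s.re) : ‖(2 * (Real.pi : ℂ)) ^ (-s)‖ ≤ 1 := by
  rw [SZKXb_two_pi, Complex.norm_cpow_eq_rpow_re_of_pos Real.two_pi_pos, Complex.neg_re]
  refine Real.rpow_le_one_of_one_le_of_nonpos ?_ (by linarith)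
  linarith [Real.pi_gt_three]

private theorem SZKXb_bd {s : ℂ} (hs : 0 ≤ s.re) :
    ‖Xf s‖ ≤ 2 * ‖Complex.Gamma s‖ * Real.exp (Real.pi * |s.im| / 2) := by
  have h1 := SZKXb_cpow hs
  have h2 : ‖Complex.cos (Real.pi * s / 2)‖ ≤ Real.exp (Real.pi * |s.im| / 2) := by
    refine (SZKXb_cos _).trans (le_of_eq ?_)
    congr 1
    have e : (Real.pi : ℂ) * s / 2 = ((Real.pi / 2 : ℝ) : ℂ) * s := by
      push_cast
      ring
    rw [e, Complex.im_ofReal_mul, abs_mul, abs_of_pos (half_pos Real.pi_pos)]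
    ring
  unfold Xf
  rw [norm_mul, norm_mul, norm_mul, Complex.norm_ofNat]
  have h3 : 0 ≤ ‖Complex.Gamma s‖ := norm_nonneg _
  calc 2 * ‖(2 * (Real.pi : ℂ)) ^ (-s)‖ * ‖Complex.Gamma s‖ * ‖Complex.cos (Real.pi * s / 2)‖
      ≤ 2 * 1 * ‖Complex.Gamma s‖ * Real.exp (Real.pi * |s.im| / 2) := by gcongr
    _ = _ := by ring

theorem Xf_diff {s : ℂ} (hs : 0 < s.re) : DifferentiableAt ℂ Xf s := by
  have h2 : DifferentiableAt ℂ (fun z : ℂ => (2 * (Real.pi : ℂ)) ^ (-z)) s := by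
    refine DifferentiableAt.const_cpow differentiableAt_id.neg (Or.inl ?_)
    rw [SZKXb_two_pi]
    exact Complex.ofReal_ne_zero.2 Real.two_pi_pos.ne'
  have h3 : DifferentiableAt ℂ Complex.Gamma s := by
    refine Complex.differentiableAt_Gamma s fun m hm => ?_
    have h := congrArg Complex.re hm
    rw [Complex.neg_re, Complex.natCast_re] at h
    have : (0 : ℝ) ≤ m := Nat.cast_nonneg m
    linarith
  have h4 : DifferentiableAt ℂ (fun z : ℂ => Complex.cos (Real.pi * z / 2)) s :=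
    ((differentiableAt_id.const_mul _).div_const _).ccos
  exact (((h2.const_mul 2).mul h3).mul h4)

private theorem SZKXb_re (σ t : ℝ) : ((σ : ℂ) + t * Complex.I).re = σ := by
  simp

private theorem SZKXb_im (σ t : ℝ) : ((σ : ℂ) + t * Complex.I).im = t := by
  simp

private theorem SZKXb_of {σ t G C P : ℝ} (h0 : 0 ≤ σ) (hG : ‖Complex.Gamma (σ + t * Complex.I)‖ = G)
    (h : G ≤ C * P * Real.exp (-(Real.pi * |t| / 2))) : ‖Xf (σ + t * Complex.I)‖ ≤ 2 * C * P := by
  have h1 := SZKXb_bd (s := (σ : ℂ) + t * Complex.I) (by rw [SZKXb_re]; exact h0)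
  rw [SZKXb_im, hG] at h1
  have h2 : Real.exp (-(Real.pi * |t| / 2)) * Real.exp (Real.pi * |t| / 2) = 1 := by
    rw [← Real.exp_add, neg_add_cancel, Real.exp_zero]
  calc ‖Xf (σ + t * Complex.I)‖ ≤ 2 * G * Real.exp (Real.pi * |t| / 2) := h1
    _ ≤ 2 * (C * P * Real.exp (-(Real.pi * |t| / 2))) * Real.exp (Real.pi * |t| / 2) := by gcongr
    _ = 2 * C * P * (Real.exp (-(Real.pi * |t| / 2)) * Real.exp (Real.pi * |t| / 2)) := by ring
    _ = 2 * C * P := by rw [h2, mul_one]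

theorem Xf_nat (m : ℕ) (hm : 1 ≤ m) : ∃ C : ℝ, ∀ t : ℝ, ‖Xf (m + t * Complex.I)‖ ≤ C * (1 + |t|) ^ m := by
  obtain ⟨C, hC⟩ := gamma_nat m hm
  refine ⟨2 * C, fun t => ?_⟩
  have h := SZKXb_of (σ := (m : ℝ)) (t := t) (Nat.cast_nonneg m) rfl
    (by rw [Complex.ofReal_natCast]; exact hC t)
  rw [Complex.ofReal_natCast] at h
  exact h

theorem Xf_strip : ∃ C : ℝ, ∀ σ t : ℝ, 1 / 2 ≤ σ → σ ≤ 7 / 4 → ‖Xf (σ + t * Complex.I)‖ ≤ C * (1 + |t|) ^ 2 := by
  obtain ⟨C, hC⟩ := gamma_strip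
  exact ⟨2 * C, fun σ t h1 h2 => SZKXb_of (by linarith) rfl (hC σ t h1 h2)⟩

theorem dXf_strip : ∃ C : ℝ, ∀ σ t : ℝ, 3 / 4 ≤ σ → σ ≤ 3 / 2 →
    ‖deriv Xf (σ + t * Complex.I)‖ ≤ C * (1 + |t|) ^ 2 := by
  obtain ⟨C, hC⟩ := Xf_strip
  have hC0 : 0 ≤ C := by
    have h := hC 1 0 (by norm_num) (by norm_num)
    rw [abs_zero, add_zero, one_pow, mul_one] at h
    exact (norm_nonneg _).trans h
  refine ⟨16 * C, fun σ t h1 h2 => ?_⟩
  have hre : ∀ z ∈ Metric.closedBall ((σ : ℂ) + t * Complex.I) (1 / 4), |z.re - σ| ≤ 1 / 4 := by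
    intro z hz
    have h := (Complex.abs_re_le_norm (z - ((σ : ℂ) + t * Complex.I))).trans (mem_closedBall_iff_norm.1 hz)
    rwa [Complex.sub_re, SZKXb_re] at h
  have him : ∀ z ∈ Metric.closedBall ((σ : ℂ) + t * Complex.I) (1 / 4), |z.im - t| ≤ 1 / 4 := by
    intro z hz
    have h := (Complex.abs_im_le_norm (z - ((σ : ℂ) + t * Complex.I))).trans (mem_closedBall_iff_norm.1 hz)
    rwa [Complex.sub_im, SZKXb_im] at h
  have hd : DiffContOnCl ℂ Xf (Metric.ball ((σ : ℂ) + t * Complex.I) (1 / 4)) := by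
    refine DifferentiableOn.diffContOnCl fun z hz => (Xf_diff ?_).differentiableWithinAt
    have h := abs_le.1 (hre z (Metric.closure_ball_subset_closedBall hz))
    linarith [h.1]
  have hb : ∀ z ∈ Metric.sphere ((σ : ℂ) + t * Complex.I) (1 / 4), ‖Xf z‖ ≤ C * (2 * (1 + |t|)) ^ 2 := by
    intro z hz
    have hz' := Metric.sphere_subset_closedBall hz
    have h3 := abs_le.1 (hre z hz')
    have h4 := him z hz'
    have h5 : |z.im| ≤ |t| + 1 / 4 := by
      have h6 : |z.im| = |(z.im - t) + t| := by rw [sub_add_cancel]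
      rw [h6]
      exact (abs_add_le _ _).trans (by linarith)
    have h7 := hC z.re z.im (by linarith [h3.1]) (by linarith [h3.2])
    rw [Complex.re_add_im] at h7
    refine h7.trans ?_
    have h8 : 1 + |z.im| ≤ 2 * (1 + |t|) := by linarith [abs_nonneg t]
    have h9 : 0 ≤ 1 + |z.im| := by linarith [abs_nonneg z.im]
    gcongr
  have h := Complex.norm_deriv_le_of_forall_mem_sphere_norm_le (by norm_num : (0 : ℝ) < 1 / 4) hd hb
  refine h.trans (le_of_eq ?_)
  ring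

theorem Xf_eq (s : ℂ) : Xf s = Complex.Gamma s * ((2 * Real.pi * Complex.I) ^ (-s) +
    (-(2 * Real.pi * Complex.I)) ^ (-s)) := by
  have h2pi : (2 * (Real.pi : ℂ)) ≠ 0 := by
    rw [SZKXb_two_pi]
    exact Complex.ofReal_ne_zero.2 Real.two_pi_pos.ne'
  have hI : (2 * (Real.pi : ℂ) * Complex.I) ≠ 0 := mul_ne_zero h2pi Complex.I_ne_zero
  have hlog1 : Complex.log (2 * (Real.pi : ℂ) * Complex.I) = Complex.log (2 * (Real.pi : ℂ)) +
      Real.pi / 2 * Complex.I := by
    rw [SZKXb_two_pi, Complex.log_ofReal_mul Real.two_pi_pos Complex.I_ne_zero, Complex.log_I,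
      Complex.ofReal_log Real.two_pi_pos.le]
  have hlog2 : Complex.log (-(2 * (Real.pi : ℂ) * Complex.I)) = Complex.log (2 * (Real.pi : ℂ)) -
      Real.pi / 2 * Complex.I := by
    rw [← mul_neg, SZKXb_two_pi, Complex.log_ofReal_mul Real.two_pi_pos (neg_ne_zero.2 Complex.I_ne_zero),
      Complex.log_neg_I, Complex.ofReal_log Real.two_pi_pos.le]
    ring
  rw [Complex.cpow_def_of_ne_zero hI, Complex.cpow_def_of_ne_zero (neg_ne_zero.2 hI), hlog1, hlog2]
  unfold Xf
  rw [Complex.cpow_def_of_ne_zero h2pi]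
  have hc : Complex.cos (Real.pi * s / 2) = (Complex.exp (Real.pi * s / 2 * Complex.I) +
      Complex.exp (-(Real.pi * s / 2) * Complex.I)) / 2 := rfl
  rw [hc]
  have e1 : Complex.exp ((Complex.log (2 * (Real.pi : ℂ)) + Real.pi / 2 * Complex.I) * -s) =
      Complex.exp (Complex.log (2 * (Real.pi : ℂ)) * -s) * Complex.exp (-(Real.pi * s / 2) * Complex.I) := by
    rw [← Complex.exp_add]
    congr 1
    ring
  have e2 : Complex.exp ((Complex.log (2 * (Real.pi : ℂ)) - Real.pi / 2 * Complex.I) * -s) =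
      Complex.exp (Complex.log (2 * (Real.pi : ℂ)) * -s) * Complex.exp (Real.pi * s / 2 * Complex.I) := by
    rw [← Complex.exp_add]
    congr 1
    ring
  rw [e1, e2]
  ring

theorem zeta_one_sub {s : ℂ} (hs : 1 < s.re) : riemannZeta (1 - s) = Xf s * riemannZeta s := by
  have h1 : ∀ n : ℕ, s ≠ -n := by
    intro n hn
    have h := congrArg Complex.re hn
    rw [Complex.neg_re, Complex.natCast_re] at h
    have : (0 : ℝ) ≤ n := Nat.cast_nonneg n
    linarith
  have h2 : s ≠ 1 := by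
    intro h
    rw [h, Complex.one_re] at hs
    exact lt_irrefl _ hs
  rw [riemannZeta_one_sub h1 h2]
  rfl

theorem dzeta_one_sub {s : ℂ} (hs : 1 < s.re) : deriv riemannZeta (1 - s) =
    -(deriv Xf s * riemannZeta s + Xf s * deriv riemannZeta s) := by
  have h1 : s ≠ 1 := by
    intro h
    rw [h, Complex.one_re] at hs
    exact lt_irrefl _ hs
  have h2 : (1 : ℂ) - s ≠ 1 := by
    intro h
    have h3 := congrArg Complex.re h
    rw [Complex.sub_re, Complex.one_re] at h3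
    linarith
  have hev : (fun z : ℂ => riemannZeta (1 - z)) =ᶠ[nhds s] fun z => Xf z * riemannZeta z := by
    have ho : IsOpen {z : ℂ | 1 < z.re} := isOpen_lt continuous_const Complex.continuous_re
    filter_upwards [ho.mem_nhds hs] with z hz
    exact zeta_one_sub hz
  have hd := hev.deriv_eq
  have h4 : deriv (fun z : ℂ => riemannZeta (1 - z)) s = -deriv riemannZeta (1 - s) :=
    deriv_comp_const_sub 1 s (f := riemannZeta)
  have h5 : deriv (fun z : ℂ => Xf z * riemannZeta z) s = deriv Xf s * riemannZeta s +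
      Xf s * deriv riemannZeta s :=
    deriv_fun_mul (Xf_diff (by linarith)) (differentiableAt_riemannZeta h1)
  rw [h4, h5] at hd
  rw [← hd, neg_neg]

end H74SZ
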