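import Mathlib
import Pool.Agent.H74.SZ.Mel
import Pool.Agent.H74.SZ.Xb

/-!
PAR: the general kernel formula. Use the STATEMENTS of `Gam.lean`, `Xb.lean`, `Mel.lean`.

Proof. `σ = 1` or `-1`, `δ > 0`, `z = 2π r (δ + σ i)`: `mel_fub`. Let `δ → 0+` (`MeasureTheory.tendsto_integral_filter_of_dominated_convergence`, filter `𝓝[>] 0`). Right side: `‖e^{-z e^τ}‖ ≤ 1`, dominated by `‖Φ‖`, pointwise limit
 `e^{-2π r σ i e^τ} Φ(τ)`. Left side: `‖z^{-s}‖ = ‖z‖^{-a} e^{t arg z}`, `‖z‖ ≥ 2π r`, `|arg z| ≤ π/2`, `‖Γ(s)‖ ≤ ‖Γ(a)‖` (`gamma_le`): dominated by `(2π r)^{-a} ‖Γ(a)‖ ‖g(t)‖ e^{π|t|/2}` (`Complex.norm_cpow_of_ne_zero`); pointwise limit: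
 `z ↦ z^{-s}` is continuous at `2π r σ i` (`σ i` is in the slit plane). So `(2π)⁻¹ ∫ g (2π r σ i)^{-s} Γ(s) = ∫ e^{-2π r σ i e^τ} Φ`. Add the two cases: `(2π r σ i)^{-s} = r^{-s} (2π σ i)^{-s}` (`r > 0`: `Complex.mul_cpow_ofReal_nonneg` or
 `Complex.real_smul`-type lemma) and `Xf_eq` on the left (both integrals converge absolutely by the same bound), `e^{iy} + e^{-iy} = 2 cos y` on the right.
-/

open Finset MeasureTheory

namespace H74SZ

private lemma SZKPar_gam {a : ℝ} (ha : 0 < a) :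
    Continuous fun t : ℝ => Complex.Gamma (a + t * Complex.I) := by
  rw [continuous_iff_continuousAt]
  intro t
  have h1 : DifferentiableAt ℂ Complex.Gamma (a + t * Complex.I) := by
    refine Complex.differentiableAt_Gamma _ fun m h => ?_
    have h2 := congrArg Complex.re h
    simp at h2
    have h3 : (0 : ℝ) ≤ (m : ℝ) := Nat.cast_nonneg m
    linarith
  have h2 : ContinuousAt (fun t : ℝ => (a + t * Complex.I : ℂ)) t := by fun_prop
  exact ContinuousAt.comp (f := fun t : ℝ => (a + t * Complex.I : ℂ)) h1.continuousAt h2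

private lemma SZKPar_cpow {a : ℝ} {z : ℂ} (hz : z ≠ 0) :
    Continuous fun t : ℝ => z ^ (-(a + t * Complex.I : ℂ)) := by
  refine Continuous.const_cpow (by fun_prop) (Or.inl hz)

private lemma SZKPar_bd {a : ℝ} (ha : 0 < a) {y : ℝ} (hy : y ≠ 0) {δ : ℝ} (hδ : 0 ≤ δ) (t : ℝ) :
    ‖((δ : ℂ) + y * Complex.I) ^ (-(a + t * Complex.I : ℂ)) * Complex.Gamma (a + t * Complex.I)‖ ≤
      |y| ^ (-a) * ‖Complex.Gamma (a : ℂ)‖ * Real.exp (Real.pi * |t| / 2) := by
  have him : ((δ : ℂ) + y * Complex.I).im = y := by simp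
  have hre : ((δ : ℂ) + y * Complex.I).re = δ := by simp
  have hz : (δ : ℂ) + y * Complex.I ≠ 0 := by
    intro h0
    rw [h0] at him
    exact hy (by simpa using him.symm)
  have hn : |y| ≤ ‖(δ : ℂ) + y * Complex.I‖ := by
    have h1 := Complex.abs_im_le_norm ((δ : ℂ) + y * Complex.I)
    rwa [him] at h1
  have harg : |((δ : ℂ) + y * Complex.I).arg| ≤ Real.pi / 2 := by
    rw [Complex.abs_arg_le_pi_div_two_iff, hre]
    exact hδ
  have hre' : (-(a + t * Complex.I : ℂ)).re = -a := by simp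
  have him' : (-(a + t * Complex.I : ℂ)).im = -t := by simp
  have h1 : ‖((δ : ℂ) + y * Complex.I) ^ (-(a + t * Complex.I : ℂ))‖ ≤
      |y| ^ (-a) * Real.exp (Real.pi * |t| / 2) := by
    rw [Complex.norm_cpow_of_ne_zero hz, hre', him', div_eq_mul_inv, ← Real.exp_neg]
    have h2 : ‖(δ : ℂ) + y * Complex.I‖ ^ (-a) ≤ |y| ^ (-a) :=
      Real.rpow_le_rpow_of_nonpos (abs_pos.2 hy) hn (by linarith)
    have h3 : Real.exp (-(((δ : ℂ) + y * Complex.I).arg * -t)) ≤
        Real.exp (Real.pi * |t| / 2) := by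
      apply Real.exp_le_exp.2
      have h4 : -(((δ : ℂ) + y * Complex.I).arg * -t) = ((δ : ℂ) + y * Complex.I).arg * t := by
        ring
      rw [h4]
      calc ((δ : ℂ) + y * Complex.I).arg * t ≤ |((δ : ℂ) + y * Complex.I).arg * t| :=
            le_abs_self _
        _ = |((δ : ℂ) + y * Complex.I).arg| * |t| := abs_mul _ _
        _ ≤ Real.pi / 2 * |t| := mul_le_mul_of_nonneg_right harg (abs_nonneg t)
        _ = Real.pi * |t| / 2 := by ring
    exact mul_le_mul h2 h3 (Real.exp_nonneg _) (Real.rpow_nonneg (abs_nonneg y) _)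
  have h5 : ‖Complex.Gamma (a + t * Complex.I)‖ ≤ ‖Complex.Gamma (a : ℂ)‖ := by
    have h6 := gamma_le (s := a + t * Complex.I) (by simpa using ha)
    have h7 : ((a : ℂ) + t * Complex.I).re = a := by simp
    rwa [h7] at h6
  rw [norm_mul]
  calc _ ≤ (|y| ^ (-a) * Real.exp (Real.pi * |t| / 2)) * ‖Complex.Gamma (a : ℂ)‖ :=
        mul_le_mul h1 h5 (norm_nonneg _)
          (mul_nonneg (Real.rpow_nonneg (abs_nonneg y) _) (Real.exp_nonneg _))
    _ = _ := by ring

private lemma SZKPar_meas {a : ℝ} (ha : 0 < a) {g : ℝ → ℂ} (hg : Continuous g) {y : ℝ}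
    (hy : y ≠ 0) (δ : ℝ) :
    AEStronglyMeasurable (fun t : ℝ => g t * (((δ : ℂ) + y * Complex.I) ^
      (-(a + t * Complex.I : ℂ)) * Complex.Gamma (a + t * Complex.I))) volume := by
  have hz : (δ : ℂ) + y * Complex.I ≠ 0 := by
    intro h0
    have h1 := congrArg Complex.im h0
    simp at h1
    exact hy h1
  exact (hg.mul ((SZKPar_cpow hz).mul (SZKPar_gam ha))).aestronglyMeasurable

private lemma SZKPar_int {a : ℝ} (ha : 0 < a) {g : ℝ → ℂ} (hg : Continuous g)
    (hgi : Integrable fun t : ℝ => ‖g t‖ * Real.exp (Real.pi * |t| / 2)) {y : ℝ} (hy : y ≠ 0)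
    {δ : ℝ} (hδ : 0 ≤ δ) :
    Integrable (fun t : ℝ => g t * (((δ : ℂ) + y * Complex.I) ^
      (-(a + t * Complex.I : ℂ)) * Complex.Gamma (a + t * Complex.I))) := by
  refine Integrable.mono' (hgi.const_mul (|y| ^ (-a) * ‖Complex.Gamma (a : ℂ)‖))
    (SZKPar_meas ha hg hy δ) (Filter.Eventually.of_forall fun t => ?_)
  rw [norm_mul]
  calc _ ≤ ‖g t‖ * (|y| ^ (-a) * ‖Complex.Gamma (a : ℂ)‖ * Real.exp (Real.pi * |t| / 2)) :=
        mul_le_mul_of_nonneg_left (SZKPar_bd ha hy hδ t) (norm_nonneg _)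
    _ = _ := by ring

private lemma SZKPar_lim {a : ℝ} (ha : 0 < a) {g Φ : ℝ → ℂ} (hg : Continuous g)
    (hgi : Integrable fun t : ℝ => ‖g t‖ * Real.exp (Real.pi * |t| / 2))
    (hΦ : ∀ τ : ℝ, (2 * Real.pi : ℂ)⁻¹ * ∫ t : ℝ, g t * Complex.exp ((a + t * Complex.I) * τ) = Φ τ)
    (hΦc : Continuous Φ) (hΦi : Integrable Φ) {y : ℝ} (hy : y ≠ 0) :
    (2 * Real.pi : ℂ)⁻¹ * ∫ t : ℝ, g t * ((y * Complex.I : ℂ) ^ (-(a + t * Complex.I : ℂ)) *
      Complex.Gamma (a + t * Complex.I)) =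
      ∫ τ : ℝ, Complex.exp (-((y * Complex.I : ℂ) * Real.exp τ)) * Φ τ := by
  have hgi' : Integrable g := by
    refine Integrable.mono' hgi hg.aestronglyMeasurable (Filter.Eventually.of_forall fun t => ?_)
    have h1 : 1 ≤ Real.exp (Real.pi * |t| / 2) :=
      Real.one_le_exp (div_nonneg (mul_nonneg Real.pi_pos.le (abs_nonneg t)) (by norm_num))
    calc ‖g t‖ = ‖g t‖ * 1 := (mul_one _).symm
      _ ≤ _ := mul_le_mul_of_nonneg_left h1 (norm_nonneg _)
  have hL : Filter.Tendsto (fun δ : ℝ => (2 * Real.pi : ℂ)⁻¹ * ∫ t : ℝ,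
      g t * (((δ : ℂ) + y * Complex.I) ^ (-(a + t * Complex.I : ℂ)) *
        Complex.Gamma (a + t * Complex.I))) (nhdsWithin 0 (Set.Ioi 0))
      (nhds ((2 * Real.pi : ℂ)⁻¹ * ∫ t : ℝ,
        g t * ((y * Complex.I : ℂ) ^ (-(a + t * Complex.I : ℂ)) *
          Complex.Gamma (a + t * Complex.I)))) := by
    refine Filter.Tendsto.const_mul _ ?_
    refine tendsto_integral_filter_of_dominated_convergence
      (fun t => |y| ^ (-a) * ‖Complex.Gamma (a : ℂ)‖ * (‖g t‖ * Real.exp (Real.pi * |t| / 2)))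
      ?_ ?_ ?_ ?_
    · exact Filter.Eventually.of_forall fun δ => SZKPar_meas ha hg hy δ
    · filter_upwards [self_mem_nhdsWithin] with δ hδ
      refine Filter.Eventually.of_forall fun t => ?_
      rw [norm_mul]
      calc _ ≤ ‖g t‖ * (|y| ^ (-a) * ‖Complex.Gamma (a : ℂ)‖ * Real.exp (Real.pi * |t| / 2)) :=
            mul_le_mul_of_nonneg_left (SZKPar_bd ha hy (le_of_lt hδ) t) (norm_nonneg _)
        _ = _ := by ring
    · exact hgi.const_mul _
    · refine Filter.Eventually.of_forall fun t => ?_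
      refine Filter.Tendsto.const_mul _ (Filter.Tendsto.mul_const _ ?_)
      have h1 : ContinuousAt (fun z : ℂ => z ^ (-(a + t * Complex.I : ℂ))) (y * Complex.I) := by
        refine continuousAt_cpow_const ?_
        rw [Complex.mem_slitPlane_iff]
        right
        simpa using hy
      have h2 : Filter.Tendsto (fun δ : ℝ => (δ : ℂ) + y * Complex.I)
          (nhdsWithin 0 (Set.Ioi 0)) (nhds (y * Complex.I)) := by
        have h3 : ContinuousAt (fun δ : ℝ => (δ : ℂ) + y * Complex.I) 0 := by fun_prop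
        have h4 := h3.tendsto
        simp only [Complex.ofReal_zero, zero_add] at h4
        exact h4.mono_left nhdsWithin_le_nhds
      exact h1.tendsto.comp h2
  have hR : Filter.Tendsto (fun δ : ℝ => ∫ τ : ℝ,
      Complex.exp (-(((δ : ℂ) + y * Complex.I) * Real.exp τ)) * Φ τ) (nhdsWithin 0 (Set.Ioi 0))
      (nhds (∫ τ : ℝ, Complex.exp (-((y * Complex.I : ℂ) * Real.exp τ)) * Φ τ)) := by
    refine tendsto_integral_filter_of_dominated_convergence (fun τ => ‖Φ τ‖) ?_ ?_ hΦi.norm ?_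
    · refine Filter.Eventually.of_forall fun δ => Continuous.aestronglyMeasurable ?_
      fun_prop
    · filter_upwards [self_mem_nhdsWithin] with δ hδ
      refine Filter.Eventually.of_forall fun τ => ?_
      rw [norm_mul, Complex.norm_exp]
      have h1 : (-(((δ : ℂ) + y * Complex.I) * (Real.exp τ : ℂ))).re = -(δ * Real.exp τ) := by
        rw [Complex.neg_re, Complex.re_mul_ofReal]
        simp
      rw [h1]
      have h2 : Real.exp (-(δ * Real.exp τ)) ≤ 1 := by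
        rw [Real.exp_le_one_iff]
        have h3 : 0 < δ := hδ
        have h4 := mul_pos h3 (Real.exp_pos τ)
        linarith
      calc _ ≤ 1 * ‖Φ τ‖ := mul_le_mul_of_nonneg_right h2 (norm_nonneg _)
        _ = _ := one_mul _
    · refine Filter.Eventually.of_forall fun τ => ?_
      have h3 : ContinuousAt (fun δ : ℝ =>
          Complex.exp (-(((δ : ℂ) + y * Complex.I) * Real.exp τ)) * Φ τ) 0 := by fun_prop
      have h4 := h3.tendsto
      simp only [Complex.ofReal_zero, zero_add] at h4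
      exact h4.mono_left nhdsWithin_le_nhds
  refine tendsto_nhds_unique hL (hR.congr' ?_)
  filter_upwards [self_mem_nhdsWithin] with δ hδ
  exact (mel_fub ha hg hgi' hΦ (z := (δ : ℂ) + y * Complex.I) (by
    have h1 : ((δ : ℂ) + y * Complex.I).re = δ := by simp
    rw [h1]
    exact hδ)).symm

private lemma SZKPar_split {r : ℝ} (hr : 0 < r) {w : ℂ} (hw : w ≠ 0) (s : ℂ) :
    ((r : ℂ) * w) ^ s = (r : ℂ) ^ s * w ^ s := by
  have hr0 : (r : ℂ) ≠ 0 := Complex.ofReal_ne_zero.2 hr.ne'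
  rw [Complex.cpow_def_of_ne_zero (mul_ne_zero hr0 hw), Complex.cpow_def_of_ne_zero hr0,
    Complex.cpow_def_of_ne_zero hw, Complex.log_ofReal_mul hr hw, ← Complex.ofReal_log hr.le,
    ← Complex.exp_add]
  congr 1
  ring

theorem par {a : ℝ} (ha : 0 < a) {g Φ : ℝ → ℂ} (hg : Continuous g)
    (hgi : Integrable fun t : ℝ => ‖g t‖ * Real.exp (Real.pi * |t| / 2))
    (hΦ : ∀ τ : ℝ, (2 * Real.pi : ℂ)⁻¹ * ∫ t : ℝ, g t * Complex.exp ((a + t * Complex.I) * τ) = Φ τ)
    (hΦc : Continuous Φ) (hΦi : Integrable Φ) {r : ℝ} (hr : 0 < r) :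
    (2 * Real.pi : ℂ)⁻¹ * ∫ t : ℝ, Xf (a + t * Complex.I) * (r : ℂ) ^ (-(a + t * Complex.I : ℂ)) * g t =
      ∫ τ : ℝ, (2 * Real.cos (2 * Real.pi * r * Real.exp τ) : ℝ) * Φ τ := by
  have hpi : (0 : ℝ) < 2 * Real.pi * r := mul_pos (mul_pos two_pos Real.pi_pos) hr
  have hI : (2 * Real.pi * Complex.I : ℂ) ≠ 0 := by
    refine mul_ne_zero (mul_ne_zero two_ne_zero ?_) Complex.I_ne_zero
    exact Complex.ofReal_ne_zero.2 Real.pi_ne_zero
  have e1 := SZKPar_lim ha hg hgi hΦ hΦc hΦi (y := 2 * Real.pi * r) hpi.ne'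
  have e2 := SZKPar_lim ha hg hgi hΦ hΦc hΦi (y := -(2 * Real.pi * r)) (neg_ne_zero.2 hpi.ne')
  have i1 := SZKPar_int ha hg hgi (y := 2 * Real.pi * r) hpi.ne' (le_refl 0)
  have i2 := SZKPar_int ha hg hgi (y := -(2 * Real.pi * r)) (neg_ne_zero.2 hpi.ne') (le_refl 0)
  simp only [Complex.ofReal_zero, zero_add] at i1 i2
  have hfun : ∀ t : ℝ, Xf (a + t * Complex.I) * (r : ℂ) ^ (-(a + t * Complex.I : ℂ)) * g t =
      g t * ((((2 * Real.pi * r : ℝ) : ℂ) * Complex.I : ℂ) ^ (-(a + t * Complex.I : ℂ)) *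
        Complex.Gamma (a + t * Complex.I)) +
      g t * ((((-(2 * Real.pi * r) : ℝ) : ℂ) * Complex.I : ℂ) ^ (-(a + t * Complex.I : ℂ)) *
        Complex.Gamma (a + t * Complex.I)) := by
    intro t
    have h1 : (((2 * Real.pi * r : ℝ) : ℂ) * Complex.I : ℂ) =
        (r : ℂ) * (2 * Real.pi * Complex.I) := by
      push_cast
      ring
    have h2 : (((-(2 * Real.pi * r) : ℝ) : ℂ) * Complex.I : ℂ) =
        (r : ℂ) * (-(2 * Real.pi * Complex.I)) := by
      push_cast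
      ring
    rw [h1, h2, SZKPar_split hr hI, SZKPar_split hr (neg_ne_zero.2 hI), Xf_eq]
    ring
  have hi3 : Integrable fun τ : ℝ =>
      Complex.exp (-((((2 * Real.pi * r : ℝ) : ℂ) * Complex.I : ℂ) * Real.exp τ)) * Φ τ := by
    refine Integrable.mono' hΦi.norm (Continuous.aestronglyMeasurable (by fun_prop))
      (Filter.Eventually.of_forall fun τ => ?_)
    rw [norm_mul, Complex.norm_exp, Complex.neg_re, Complex.re_mul_ofReal]
    simp
  have hi4 : Integrable fun τ : ℝ =>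
      Complex.exp (-((((-(2 * Real.pi * r) : ℝ) : ℂ) * Complex.I : ℂ) * Real.exp τ)) * Φ τ := by
    refine Integrable.mono' hΦi.norm (Continuous.aestronglyMeasurable (by fun_prop))
      (Filter.Eventually.of_forall fun τ => ?_)
    rw [norm_mul, Complex.norm_exp, Complex.neg_re, Complex.re_mul_ofReal]
    simp
  simp only [hfun]
  rw [integral_add i1 i2, mul_add, e1, e2, ← integral_add hi3 hi4]
  congr 1
  funext τ
  rw [← add_mul]
  congr 1
  push_cast
  rw [Complex.cos]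
  have h5 : -((2 * Real.pi * r : ℂ) * Complex.I * Complex.exp τ) =
      -(2 * Real.pi * r * Complex.exp τ) * Complex.I := by ring
  have h6 : -(-(2 * Real.pi * r : ℂ) * Complex.I * Complex.exp τ) =
      2 * Real.pi * r * Complex.exp τ * Complex.I := by ring
  rw [h5, h6]
  ring

end H74SZ
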