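import Mathlib
import Pool.Agent.H74.SZ.Defs

/-!
PHT: the density `φ = ph T` (a Gaussian density of total mass one and variance `2 L / T²`, `L = log T`).

Proof. `∫ exp(-B τ²) = √(π/B)` with `B = T²/(4L)`: `∫ φ = om T · √(4π L)/T = 1` (`integral_gaussian`). `ph_ft`: `∫ e^{iuτ} φ = exp (-u² L / T²)` (`integral_cexp_quadratic` or `fourierIntegral_gaussian`, `u²/(4B) = u² L/T²`).
 `ph_expint`: `(1 + |τ|)^n e^{c|τ|} φ` is integrable. Moments, for `T` large: substitute `τ = x √L / T`, `√L/T ≤ 1` (and `L ≥ 1`): `∫ |τ| e^{2|τ|} φ = (√L/T) (2√π)⁻¹ ∫ |x| e^{2|x| √L / T} e^{-x²/4} dx ≤ (√L/T) ∫ |x| e^{2|x|} e^{-x²/4} dx`, `√L ≤ L`; the second moment in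
 the same way with `L/T²`. The constant `C` is the larger one of the two (convergent) integrals.
-/

open Finset MeasureTheory

namespace H74SZ

theorem SZKPht_e {B : ℝ} (hB : 0 < B) (a : ℝ) :
    Integrable fun τ : ℝ => Real.exp (a * τ) * Real.exp (-B * τ ^ 2) := by
  have h := (integrable_cexp_quadratic (b := (B : ℂ)) (by simpa using hB) (a : ℂ) 0).norm
  refine h.congr (Filter.Eventually.of_forall fun τ => ?_)
  have e1 : (-(B : ℂ) * (τ : ℂ) ^ 2 + (a : ℂ) * (τ : ℂ) + 0) = ((-B * τ ^ 2 + a * τ : ℝ) : ℂ) := by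
    push_cast
    ring
  simp only
  rw [e1, Complex.norm_exp, Complex.ofReal_re, ← Real.exp_add]
  congr 1
  ring

theorem SZKPht_g {B : ℝ} (hB : 0 < B) (a : ℝ) (n : ℕ) :
    Integrable fun τ : ℝ => (1 + |τ|) ^ n * Real.exp (a * |τ|) * Real.exp (-B * τ ^ 2) := by
  have h1 := SZKPht_e hB (|a| + 1)
  have h2 := SZKPht_e hB (-(|a| + 1))
  refine ((h1.add h2).const_mul ((n.factorial : ℝ) * Real.exp 1)).mono' ?_
    (Filter.Eventually.of_forall fun τ => ?_)
  · exact Continuous.aestronglyMeasurable (by fun_prop)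
  · simp only [Pi.add_apply]
    rw [Real.norm_of_nonneg (by positivity)]
    have e1 : (1 + |τ|) ^ n ≤ n.factorial * Real.exp (1 + |τ|) := by
      have h3 := Real.pow_div_factorial_le_exp (1 + |τ|) (by positivity) n
      rw [div_le_iff₀ (by positivity)] at h3
      linarith
    have e2 : Real.exp (a * |τ|) ≤ Real.exp (|a| * |τ|) :=
      Real.exp_le_exp.2 (mul_le_mul_of_nonneg_right (le_abs_self a) (abs_nonneg τ))
    have e3 : Real.exp ((|a| + 1) * |τ|) ≤
        Real.exp ((|a| + 1) * τ) + Real.exp (-(|a| + 1) * τ) := by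
      rcases abs_cases τ with ⟨h, _⟩ | ⟨h, _⟩
      · rw [h]
        linarith [Real.exp_pos (-(|a| + 1) * τ)]
      · rw [h]
        have h4 : (|a| + 1) * -τ = -(|a| + 1) * τ := by ring
        rw [h4]
        linarith [Real.exp_pos ((|a| + 1) * τ)]
    have e4 : Real.exp (1 + |τ|) * Real.exp (|a| * |τ|) =
        Real.exp 1 * Real.exp ((|a| + 1) * |τ|) := by
      rw [← Real.exp_add, ← Real.exp_add]
      congr 1
      ring
    calc (1 + |τ|) ^ n * Real.exp (a * |τ|) * Real.exp (-B * τ ^ 2) ≤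
        (n.factorial * Real.exp (1 + |τ|)) * Real.exp (|a| * |τ|) * Real.exp (-B * τ ^ 2) := by
          gcongr
      _ = n.factorial * (Real.exp (1 + |τ|) * Real.exp (|a| * |τ|)) * Real.exp (-B * τ ^ 2) := by
          ring
      _ = n.factorial * Real.exp 1 * (Real.exp ((|a| + 1) * |τ|) * Real.exp (-B * τ ^ 2)) := by
          rw [e4]
          ring
      _ ≤ n.factorial * Real.exp 1 *
          ((Real.exp ((|a| + 1) * τ) + Real.exp (-(|a| + 1) * τ)) * Real.exp (-B * τ ^ 2)) := by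
          gcongr
      _ = _ := by ring

theorem SZKPht_eq {T : ℝ} (hT : 1 < T) (τ : ℝ) :
    ph T τ = H82SZ.om T * Real.exp (-(T ^ 2 / (4 * Real.log T)) * τ ^ 2) := by
  have hL : 0 < Real.log T := Real.log_pos hT
  unfold ph
  congr 2
  field_simp

theorem SZKPht_B {T : ℝ} (hT : 1 < T) : 0 < T ^ 2 / (4 * Real.log T) := by
  have hL : 0 < Real.log T := Real.log_pos hT
  have hT0 : 0 < T := by linarith
  positivity

theorem SZKPht_om {T : ℝ} (hT : 1 < T) :
    H82SZ.om T * Real.sqrt (Real.pi / (T ^ 2 / (4 * Real.log T))) = 1 := by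
  have hL : 0 < Real.log T := Real.log_pos hT
  have hT0 : 0 < T := by linarith
  have hsL : 0 < Real.sqrt (Real.log T) := Real.sqrt_pos.2 hL
  have hsp : 0 < Real.sqrt Real.pi := Real.sqrt_pos.2 Real.pi_pos
  have e1 : Real.pi / (T ^ 2 / (4 * Real.log T)) =
      (2 * Real.sqrt Real.pi * Real.sqrt (Real.log T) / T) ^ 2 := by
    rw [div_pow, mul_pow, mul_pow, Real.sq_sqrt Real.pi_pos.le, Real.sq_sqrt hL.le]
    field_simp
    ring
  rw [e1, Real.sqrt_sq (by positivity)]
  unfold H82SZ.om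
  field_simp

theorem ph_nonneg {T : ℝ} (hT : 1 < T) (τ : ℝ) : 0 ≤ ph T τ := by
  have hT0 : 0 < T := by linarith
  unfold ph H82SZ.om
  positivity

theorem ph_cont (T : ℝ) : Continuous (ph T) := by
  unfold ph
  fun_prop

theorem ph_expint {T : ℝ} (hT : 1 < T) (c : ℝ) (n : ℕ) :
    Integrable fun τ : ℝ => (1 + |τ|) ^ n * Real.exp (c * |τ|) * ph T τ := by
  refine ((SZKPht_g (SZKPht_B hT) c n).const_mul (H82SZ.om T)).congr
    (Filter.Eventually.of_forall fun τ => ?_)
  simp only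
  rw [SZKPht_eq hT]
  ring

theorem ph_one {T : ℝ} (hT : 1 < T) : ∫ τ : ℝ, ph T τ = 1 := by
  simp only [SZKPht_eq hT]
  rw [integral_const_mul, integral_gaussian, SZKPht_om hT]

theorem ph_ft {T : ℝ} (hT : 1 < T) (u : ℝ) : ∫ τ : ℝ, Complex.exp (u * τ * Complex.I) * (ph T τ : ℂ) =
    (Real.exp (-(u ^ 2 * Real.log T / T ^ 2)) : ℝ) := by
  have hL : 0 < Real.log T := Real.log_pos hT
  have hT0 : 0 < T := by linarith
  obtain ⟨B, hB⟩ : ∃ B, B = T ^ 2 / (4 * Real.log T) := ⟨_, rfl⟩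
  have hB0 : 0 < B := by
    rw [hB]
    exact SZKPht_B hT
  have h1 := fourierIntegral_gaussian (b := (B : ℂ)) (by simpa using hB0) (u : ℂ)
  have e1 : ∀ τ : ℝ, Complex.exp (u * τ * Complex.I) * (ph T τ : ℂ) =
      (H82SZ.om T : ℂ) * (Complex.exp (Complex.I * (u : ℂ) * (τ : ℂ)) *
        Complex.exp (-(B : ℂ) * (τ : ℂ) ^ 2)) := by
    intro τ
    rw [SZKPht_eq hT, ← hB]
    push_cast
    rw [show (u : ℂ) * τ * Complex.I = Complex.I * u * τ by ring]
    ring
  simp only [e1]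
  rw [integral_const_mul, h1]
  have e2 : ((Real.pi : ℂ) / (B : ℂ)) ^ (1 / 2 : ℂ) = ((Real.sqrt (Real.pi / B) : ℝ) : ℂ) := by
    rw [Real.sqrt_eq_rpow, Complex.ofReal_cpow (by positivity)]
    push_cast
    rfl
  have e3 : Complex.exp (-(u : ℂ) ^ 2 / (4 * (B : ℂ))) =
      ((Real.exp (-(u ^ 2 * Real.log T / T ^ 2)) : ℝ) : ℂ) := by
    rw [Complex.ofReal_exp]
    congr 1
    rw [hB]
    push_cast
    have hL' : (Real.log T : ℂ) ≠ 0 := by exact_mod_cast hL.ne'
    have hT' : (T : ℂ) ≠ 0 := by exact_mod_cast hT0.ne'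
    field_simp
  rw [e2, e3, ← mul_assoc, ← Complex.ofReal_mul, hB, SZKPht_om hT, Complex.ofReal_one, one_mul]

theorem ph_mom : ∃ C T0 : ℝ, 0 ≤ C ∧ 3 ≤ T0 ∧ ∀ T, T0 ≤ T →
    ∫ τ : ℝ, |τ| * Real.exp (2 * |τ|) * ph T τ ≤ C * (Real.log T / T) ∧
    ∫ τ : ℝ, τ ^ 2 * Real.exp (2 * |τ|) * ph T τ ≤ C * (Real.log T / T ^ 2) := by
  have g1 : Integrable fun x : ℝ => |x| * Real.exp (2 * |x|) * Real.exp (-(1 / 4) * x ^ 2) := by
    refine (SZKPht_g (B := 1 / 4) (by norm_num) 2 1).mono'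
      (Continuous.aestronglyMeasurable (by fun_prop)) (Filter.Eventually.of_forall fun x => ?_)
    rw [Real.norm_of_nonneg (by positivity), pow_one]
    gcongr
    linarith
  have g2 : Integrable fun x : ℝ => x ^ 2 * Real.exp (2 * |x|) * Real.exp (-(1 / 4) * x ^ 2) := by
    refine (SZKPht_g (B := 1 / 4) (by norm_num) 2 2).mono'
      (Continuous.aestronglyMeasurable (by fun_prop)) (Filter.Eventually.of_forall fun x => ?_)
    rw [Real.norm_of_nonneg (by positivity)]
    have h1 : x ^ 2 ≤ (1 + |x|) ^ 2 := by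
      rw [← sq_abs x]
      have := abs_nonneg x
      gcongr
      linarith
    gcongr
  obtain ⟨M1, hM1⟩ : ∃ M1, M1 = ∫ x : ℝ, |x| * Real.exp (2 * |x|) * Real.exp (-(1 / 4) * x ^ 2) :=
    ⟨_, rfl⟩
  obtain ⟨M2, hM2⟩ : ∃ M2, M2 = ∫ x : ℝ, x ^ 2 * Real.exp (2 * |x|) * Real.exp (-(1 / 4) * x ^ 2) :=
    ⟨_, rfl⟩
  have hM10 : 0 ≤ M1 := by
    rw [hM1]
    exact integral_nonneg fun x => by positivity
  have hM20 : 0 ≤ M2 := by
    rw [hM2]
    exact integral_nonneg fun x => by positivity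
  obtain ⟨c, hc⟩ : ∃ c, c = 1 / (2 * Real.sqrt Real.pi) := ⟨_, rfl⟩
  have hsp : 0 < Real.sqrt Real.pi := Real.sqrt_pos.2 Real.pi_pos
  have hc0 : 0 ≤ c := by
    rw [hc]
    positivity
  refine ⟨c * M1 + c * M2, 3, by positivity, le_rfl, fun T hT => ?_⟩
  have hT1 : 1 < T := by linarith
  have hT0 : 0 < T := by linarith
  have hL1 : 1 ≤ Real.log T := by
    rw [Real.le_log_iff_exp_le hT0]
    linarith [Real.exp_one_lt_d9]
  have hL0 : 0 < Real.log T := by linarith
  have hsL : 0 < Real.sqrt (Real.log T) := Real.sqrt_pos.2 hL0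
  have hsq : Real.sqrt (Real.log T) ^ 2 = Real.log T := Real.sq_sqrt hL0.le
  have hsle : Real.sqrt (Real.log T) ≤ Real.log T := by
    have h1 : 1 ≤ Real.sqrt (Real.log T) := Real.one_le_sqrt.2 hL1
    nlinarith
  obtain ⟨h, hh⟩ : ∃ h, h = Real.sqrt (Real.log T) / T := ⟨_, rfl⟩
  have hh0 : 0 < h := by
    rw [hh]
    positivity
  have hh1 : h ≤ 1 := by
    rw [hh, div_le_one hT0]
    exact hsle.trans (Real.log_le_self hT0.le)
  have hph : ∀ x : ℝ, h * ph T (h * x) = c * Real.exp (-(1 / 4) * x ^ 2) := by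
    intro x
    rw [SZKPht_eq hT1]
    have e1 : -(T ^ 2 / (4 * Real.log T)) * (h * x) ^ 2 = -(1 / 4) * x ^ 2 := by
      rw [hh, mul_pow, div_pow, hsq]
      field_simp
    have e2 : h * H82SZ.om T = c := by
      rw [hh, hc]
      unfold H82SZ.om
      field_simp
    rw [e1, ← mul_assoc, e2]
  have hsub : ∀ f : ℝ → ℝ, ∫ τ : ℝ, f τ = ∫ x : ℝ, h * f (h * x) := by
    intro f
    rw [integral_const_mul, Measure.integral_comp_mul_left, abs_of_pos (inv_pos.2 hh0), smul_eq_mul,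
      ← mul_assoc, mul_inv_cancel₀ hh0.ne', one_mul]
  have hexp : ∀ x : ℝ, Real.exp (2 * |h * x|) ≤ Real.exp (2 * |x|) := by
    intro x
    rw [abs_mul, abs_of_pos hh0]
    apply Real.exp_le_exp.2
    have := abs_nonneg x
    nlinarith
  constructor
  · rw [hsub]
    have e1 : ∀ x : ℝ, h * (|h * x| * Real.exp (2 * |h * x|) * ph T (h * x)) ≤
        (c * h) * (|x| * Real.exp (2 * |x|) * Real.exp (-(1 / 4) * x ^ 2)) := by
      intro x
      have e2 : h * (|h * x| * Real.exp (2 * |h * x|) * ph T (h * x)) =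
          (|h * x| * Real.exp (2 * |h * x|)) * (h * ph T (h * x)) := by ring
      rw [e2, hph]
      have e3 : |h * x| = h * |x| := by rw [abs_mul, abs_of_pos hh0]
      calc |h * x| * Real.exp (2 * |h * x|) * (c * Real.exp (-(1 / 4) * x ^ 2)) ≤
          |h * x| * Real.exp (2 * |x|) * (c * Real.exp (-(1 / 4) * x ^ 2)) := by
            have := hexp x
            gcongr
        _ = _ := by
            rw [e3]
            ring
    have e4 : ∫ x : ℝ, h * (|h * x| * Real.exp (2 * |h * x|) * ph T (h * x)) ≤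
        ∫ x : ℝ, (c * h) * (|x| * Real.exp (2 * |x|) * Real.exp (-(1 / 4) * x ^ 2)) := by
      refine integral_mono_of_nonneg (Filter.Eventually.of_forall fun x => ?_)
        (g1.const_mul _) (Filter.Eventually.of_forall e1)
      have := ph_nonneg hT1 (h * x)
      simp only [Pi.zero_apply]
      positivity
    refine e4.trans ?_
    rw [integral_const_mul, ← hM1]
    have e5 : h ≤ Real.log T / T := by
      rw [hh]
      gcongr
    calc c * h * M1 ≤ c * (Real.log T / T) * M1 := by gcongr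
      _ = (c * M1) * (Real.log T / T) := by ring
      _ ≤ (c * M1 + c * M2) * (Real.log T / T) := by
          have : 0 ≤ c * M2 := by positivity
          gcongr
          linarith
  · rw [hsub]
    have e1 : ∀ x : ℝ, h * ((h * x) ^ 2 * Real.exp (2 * |h * x|) * ph T (h * x)) ≤
        (c * h ^ 2) * (x ^ 2 * Real.exp (2 * |x|) * Real.exp (-(1 / 4) * x ^ 2)) := by
      intro x
      have e2 : h * ((h * x) ^ 2 * Real.exp (2 * |h * x|) * ph T (h * x)) =
          ((h * x) ^ 2 * Real.exp (2 * |h * x|)) * (h * ph T (h * x)) := by ring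
      rw [e2, hph]
      calc (h * x) ^ 2 * Real.exp (2 * |h * x|) * (c * Real.exp (-(1 / 4) * x ^ 2)) ≤
          (h * x) ^ 2 * Real.exp (2 * |x|) * (c * Real.exp (-(1 / 4) * x ^ 2)) := by
            have := hexp x
            gcongr
        _ = _ := by ring
    have e4 : ∫ x : ℝ, h * ((h * x) ^ 2 * Real.exp (2 * |h * x|) * ph T (h * x)) ≤
        ∫ x : ℝ, (c * h ^ 2) * (x ^ 2 * Real.exp (2 * |x|) * Real.exp (-(1 / 4) * x ^ 2)) := by
      refine integral_mono_of_nonneg (Filter.Eventually.of_forall fun x => ?_)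
        (g2.const_mul _) (Filter.Eventually.of_forall e1)
      have := ph_nonneg hT1 (h * x)
      simp only [Pi.zero_apply]
      positivity
    refine e4.trans ?_
    rw [integral_const_mul, ← hM2]
    have e5 : h ^ 2 = Real.log T / T ^ 2 := by
      rw [hh, div_pow, hsq]
    rw [e5]
    calc c * (Real.log T / T ^ 2) * M2 = (c * M2) * (Real.log T / T ^ 2) := by ring
      _ ≤ (c * M1 + c * M2) * (Real.log T / T ^ 2) := by
          have : 0 ≤ c * M1 := by positivity
          gcongr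
          linarith

end H74SZ
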