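import Mathlib
import Pool.Agent.H74.SZ.Par
import Pool.Agent.H74.SZ.Gau
import Pool.Agent.H74.SZ.Pht

/-!
KER: the `τ` form of the kernels. Use the STATEMENTS of `Par.lean`, `Gau.lean`, `Pht.lean`, `Xb.lean`.

Proof. `ka`: `par` with `g t = Gs T (a + it)`, `Φ τ = e^{(1/2+iT)τ} φ(τ)` (`gau0`; `‖Φ‖ = e^{τ/2} φ` is integrable by `ph_expint`, `hgi` by `Gs_int` with `c = π/2`, `n = 0`). `kd`: the same with `deriv (Gs T)` and `gau1`, `dGs_int`.
 `kb` (`1 ≤ a ≤ 3/2`): the function `t ↦ Xf s r^{-s} Gs T s`, `s = a + it`, has the derivative `i (X' r^{-s} G - log r X r^{-s} G + X r^{-s} G')`; it is integrable and so are the three parts (`‖r^{-s}‖ = r^{-a}`, `Xf_strip`, `dXf_strip`, `Gs_int`, `dGs_int`), so the integral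
 of the derivative is `0` (`MeasureTheory.integral_eq_zero_of_hasDerivAt_of_integrable`): `KB = log r · KA - KD`.
-/

open Finset MeasureTheory

namespace H74SZ

private lemma SZKKer_line (a : ℝ) (t : ℝ) :
    HasDerivAt (fun t : ℝ => (a : ℂ) + t * Complex.I) Complex.I t := by
  have h2 := ((hasDerivAt_id (t : ℂ)).comp_ofReal.mul_const Complex.I).const_add (a : ℂ)
  simpa using h2

private lemma SZKKer_G (T a : ℝ) : Continuous fun t : ℝ => H82SZ.Gs T (a + t * Complex.I) := by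
  have h1 : Continuous (H82SZ.Gs T) := continuous_iff_continuousAt.2 fun s =>
    (Gs_deriv T s).continuousAt
  exact h1.comp (by fun_prop : Continuous fun t : ℝ => (a : ℂ) + t * Complex.I)

private lemma SZKKer_dG (T a : ℝ) :
    Continuous fun t : ℝ => deriv (H82SZ.Gs T) (a + t * Complex.I) := by
  have h0 : deriv (H82SZ.Gs T) = fun s => 2 * (s - 1 / 2 - T * Complex.I) * (Real.log T : ℂ) /
      (T : ℂ) ^ 2 * H82SZ.Gs T s := funext fun s => (Gs_deriv T s).deriv
  rw [h0]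
  have h1 : Continuous (H82SZ.Gs T) := continuous_iff_continuousAt.2 fun s =>
    (Gs_deriv T s).continuousAt
  have h2 : Continuous fun s : ℂ => 2 * (s - 1 / 2 - T * Complex.I) * (Real.log T : ℂ) /
      (T : ℂ) ^ 2 * H82SZ.Gs T s := by fun_prop
  exact h2.comp (by fun_prop : Continuous fun t : ℝ => (a : ℂ) + t * Complex.I)

private lemma SZKKer_re (a t : ℝ) : ((a : ℂ) + t * Complex.I).re = a := by simp

private lemma SZKKer_X {a : ℝ} (ha : 0 < a) : Continuous fun t : ℝ => Xf (a + t * Complex.I) := by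
  rw [continuous_iff_continuousAt]
  intro t
  have h1 : DifferentiableAt ℂ Xf (a + t * Complex.I) := Xf_diff (by rw [SZKKer_re]; exact ha)
  have h2 : ContinuousAt (fun t : ℝ => (a + t * Complex.I : ℂ)) t := by fun_prop
  exact ContinuousAt.comp (f := fun t : ℝ => (a + t * Complex.I : ℂ)) h1.continuousAt h2

private lemma SZKKer_dX {a : ℝ} (ha : 0 < a) :
    Continuous fun t : ℝ => deriv Xf (a + t * Complex.I) := by
  have ho : IsOpen {s : ℂ | 0 < s.re} := isOpen_lt continuous_const Complex.continuous_re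
  have hd : DifferentiableOn ℂ Xf {s : ℂ | 0 < s.re} := fun s hs =>
    (Xf_diff hs).differentiableWithinAt
  have hd2 := hd.deriv ho
  rw [continuous_iff_continuousAt]
  intro t
  have hm : ((a : ℂ) + t * Complex.I) ∈ {s : ℂ | 0 < s.re} := by
    show 0 < ((a : ℂ) + t * Complex.I).re
    rw [SZKKer_re]
    exact ha
  have h1 : DifferentiableAt ℂ (deriv Xf) (a + t * Complex.I) :=
    (hd2 _ hm).differentiableAt (ho.mem_nhds hm)
  have h2 : ContinuousAt (fun t : ℝ => (a + t * Complex.I : ℂ)) t := by fun_prop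
  exact ContinuousAt.comp (f := fun t : ℝ => (a + t * Complex.I : ℂ)) h1.continuousAt h2

private lemma SZKKer_rc {r : ℝ} (hr : 0 < r) (a : ℝ) :
    Continuous fun t : ℝ => (r : ℂ) ^ (-(a + t * Complex.I : ℂ)) := by
  refine Continuous.const_cpow (by fun_prop) (Or.inl ?_)
  exact Complex.ofReal_ne_zero.2 hr.ne'

private lemma SZKKer_rn {r : ℝ} (hr : 0 < r) (a t : ℝ) :
    ‖(r : ℂ) ^ (-(a + t * Complex.I : ℂ))‖ = r ^ (-a) := by
  rw [Complex.norm_cpow_eq_rpow_re_of_pos hr, Complex.neg_re, SZKKer_re]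

private lemma SZKKer_int {r : ℝ} (hr : 0 < r) (a : ℝ) {X g : ℝ → ℂ} (hX : Continuous X)
    (hg : Continuous g) {C : ℝ} (hC : ∀ t, ‖X t‖ ≤ C * (1 + |t|) ^ 2)
    (hi : Integrable fun t : ℝ => (1 + |t|) ^ 2 * Real.exp (0 * |t|) * ‖g t‖) :
    Integrable fun t : ℝ => X t * (r : ℂ) ^ (-(a + t * Complex.I : ℂ)) * g t := by
  refine (hi.const_mul (C * r ^ (-a))).mono' ?_ (Filter.Eventually.of_forall fun t => ?_)
  · exact ((hX.mul (SZKKer_rc hr a)).mul hg).aestronglyMeasurable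
  · rw [norm_mul, norm_mul, SZKKer_rn hr]
    have h1 : (0 : ℝ) ≤ r ^ (-a) := Real.rpow_nonneg hr.le _
    have h2 := mul_le_mul_of_nonneg_right (mul_le_mul_of_nonneg_right (hC t) h1)
      (norm_nonneg (g t))
    refine h2.trans (le_of_eq ?_)
    rw [zero_mul, Real.exp_zero]
    ring

private lemma SZKKer_fn (T τ : ℝ) :
    ‖Complex.exp ((1 / 2 + T * Complex.I) * τ)‖ ≤ Real.exp (1 * |τ|) := by
  rw [Complex.norm_exp]
  apply Real.exp_le_exp.2
  have h1 : (((1 : ℂ) / 2 + T * Complex.I) * τ).re = 1 / 2 * τ := by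
    rw [Complex.re_mul_ofReal]
    simp
  rw [h1]
  have h2 := le_abs_self τ
  have h3 := abs_nonneg τ
  linarith

theorem ka {T : ℝ} (hT : 1 < T) {a : ℝ} (ha : 0 < a) {r : ℝ} (hr : 0 < r) : KA a T r = T0 T r := by
  have hg := SZKKer_G T a
  have hgi : Integrable fun t : ℝ => ‖H82SZ.Gs T (a + t * Complex.I)‖ *
      Real.exp (Real.pi * |t| / 2) := by
    refine (Gs_int hT a (Real.pi / 2) 0).congr (Filter.Eventually.of_forall fun t => ?_)
    have h1 : Real.pi / 2 * |t| = Real.pi * |t| / 2 := by ring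
    simp only [pow_zero, one_mul, h1]
    ring
  have hΦc : Continuous fun τ : ℝ => Complex.exp ((1 / 2 + T * Complex.I) * τ) * (ph T τ : ℂ) := by
    have := ph_cont T
    fun_prop
  have hΦi : Integrable fun τ : ℝ => Complex.exp ((1 / 2 + T * Complex.I) * τ) * (ph T τ : ℂ) := by
    refine (ph_expint hT 1 0).mono' hΦc.aestronglyMeasurable
      (Filter.Eventually.of_forall fun τ => ?_)
    rw [norm_mul, Complex.norm_real, Real.norm_of_nonneg (ph_nonneg hT τ), pow_zero, one_mul]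
    exact mul_le_mul_of_nonneg_right (SZKKer_fn T τ) (ph_nonneg hT τ)
  exact par ha hg hgi (gau0 hT a) hΦc hΦi hr

theorem kd {T : ℝ} (hT : 1 < T) {a : ℝ} (ha : 0 < a) {r : ℝ} (hr : 0 < r) : KD a T r = T1 T r := by
  have hg := SZKKer_dG T a
  have hgi : Integrable fun t : ℝ => ‖deriv (H82SZ.Gs T) (a + t * Complex.I)‖ *
      Real.exp (Real.pi * |t| / 2) := by
    refine (dGs_int hT a (Real.pi / 2) 0).congr (Filter.Eventually.of_forall fun t => ?_)
    have h1 : Real.pi / 2 * |t| = Real.pi * |t| / 2 := by ring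
    simp only [pow_zero, one_mul, h1]
    ring
  have hΦc : Continuous fun τ : ℝ => -(τ : ℂ) *
      (Complex.exp ((1 / 2 + T * Complex.I) * τ) * (ph T τ : ℂ)) := by
    have := ph_cont T
    fun_prop
  have hΦi : Integrable fun τ : ℝ => -(τ : ℂ) *
      (Complex.exp ((1 / 2 + T * Complex.I) * τ) * (ph T τ : ℂ)) := by
    refine (ph_expint hT 1 1).mono' hΦc.aestronglyMeasurable
      (Filter.Eventually.of_forall fun τ => ?_)
    rw [norm_mul, norm_mul, norm_neg, Complex.norm_real, Complex.norm_real, Real.norm_eq_abs,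
      Real.norm_of_nonneg (ph_nonneg hT τ), pow_one, mul_assoc]
    have h1 : |τ| ≤ 1 + |τ| := by linarith
    exact mul_le_mul h1 (mul_le_mul_of_nonneg_right (SZKKer_fn T τ) (ph_nonneg hT τ))
      (mul_nonneg (norm_nonneg _) (ph_nonneg hT τ)) (by positivity)
  exact par ha hg hgi (gau1 hT a) hΦc hΦi hr

theorem kb {T : ℝ} (hT : 1 < T) {a : ℝ} (ha : 1 ≤ a) (ha' : a ≤ 3 / 2) {r : ℝ} (hr : 0 < r) :
    KB a T r = (Real.log r : ℂ) * T0 T r - T1 T r := by
  have ha0 : 0 < a := by linarith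
  obtain ⟨C1, hC1⟩ := Xf_strip
  obtain ⟨C2, hC2⟩ := dXf_strip
  have b1 : ∀ t : ℝ, ‖Xf (a + t * Complex.I)‖ ≤ C1 * (1 + |t|) ^ 2 := fun t =>
    hC1 a t (by linarith) (by linarith)
  have b2 : ∀ t : ℝ, ‖deriv Xf (a + t * Complex.I)‖ ≤ C2 * (1 + |t|) ^ 2 := fun t =>
    hC2 a t (by linarith) (by linarith)
  have i1 := SZKKer_int hr a (SZKKer_dX ha0) (SZKKer_G T a) b2 (Gs_int hT a 0 2)
  have i2 := SZKKer_int hr a (SZKKer_X ha0) (SZKKer_G T a) b1 (Gs_int hT a 0 2)
  have i3 := SZKKer_int hr a (SZKKer_X ha0) (SZKKer_dG T a) b1 (dGs_int hT a 0 2)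
  have hr0 : (r : ℂ) ≠ 0 := Complex.ofReal_ne_zero.2 hr.ne'
  have hd : ∀ t : ℝ, HasDerivAt (fun t : ℝ => Xf (a + t * Complex.I) *
      (r : ℂ) ^ (-(a + t * Complex.I : ℂ)) * H82SZ.Gs T (a + t * Complex.I))
      (Complex.I * (deriv Xf (a + t * Complex.I) * (r : ℂ) ^ (-(a + t * Complex.I : ℂ)) *
          H82SZ.Gs T (a + t * Complex.I)) +
        (-(Complex.I * (Real.log r : ℂ))) * (Xf (a + t * Complex.I) *
          (r : ℂ) ^ (-(a + t * Complex.I : ℂ)) * H82SZ.Gs T (a + t * Complex.I)) +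
        Complex.I * (Xf (a + t * Complex.I) * (r : ℂ) ^ (-(a + t * Complex.I : ℂ)) *
          deriv (H82SZ.Gs T) (a + t * Complex.I))) t := by
    intro t
    have h1 := SZKKer_line a t
    have hX : HasDerivAt Xf (deriv Xf (a + t * Complex.I)) (a + t * Complex.I) :=
      (Xf_diff (by rw [SZKKer_re]; exact ha0)).hasDerivAt
    have hR : HasDerivAt (fun s : ℂ => (r : ℂ) ^ (-s))
        ((r : ℂ) ^ (-(a + t * Complex.I : ℂ)) * Complex.log r * (-1)) (a + t * Complex.I) :=
      (hasDerivAt_id (a + t * Complex.I : ℂ)).neg.const_cpow (Or.inl hr0)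
    have hG : HasDerivAt (H82SZ.Gs T) (deriv (H82SZ.Gs T) (a + t * Complex.I))
        (a + t * Complex.I) := by
      rw [(Gs_deriv T _).deriv]
      exact Gs_deriv T _
    have h4 := HasDerivAt.comp t ((hX.mul hR).mul hG) h1
    refine h4.congr_deriv ?_
    rw [Complex.ofReal_log hr.le]
    simp only [Pi.mul_apply]
    ring
  have i12 : Integrable fun t : ℝ =>
      Complex.I * (deriv Xf (a + t * Complex.I) * (r : ℂ) ^ (-(a + t * Complex.I : ℂ)) *
          H82SZ.Gs T (a + t * Complex.I)) +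
        (-(Complex.I * (Real.log r : ℂ))) * (Xf (a + t * Complex.I) *
          (r : ℂ) ^ (-(a + t * Complex.I : ℂ)) * H82SZ.Gs T (a + t * Complex.I)) :=
    (i1.const_mul _).add (i2.const_mul _)
  have h0 := integral_eq_zero_of_hasDerivAt_of_integrable hd
    (i12.add (i3.const_mul _)) i2
  rw [integral_add i12 (i3.const_mul _),
    integral_add (i1.const_mul _) (i2.const_mul _), integral_const_mul, integral_const_mul,
    integral_const_mul] at h0
  rw [← ka hT ha0 hr, ← kd hT ha0 hr]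
  unfold KB KA KD vint
  have h7 := mul_left_cancel₀ Complex.I_ne_zero
    (a := Complex.I)
    (b := ∫ t : ℝ, deriv Xf (a + t * Complex.I) * (r : ℂ) ^ (-(a + t * Complex.I : ℂ)) *
          H82SZ.Gs T (a + t * Complex.I))
    (c := (Real.log r : ℂ) * (∫ t : ℝ, Xf (a + t * Complex.I) *
          (r : ℂ) ^ (-(a + t * Complex.I : ℂ)) * H82SZ.Gs T (a + t * Complex.I)) -
        ∫ t : ℝ, Xf (a + t * Complex.I) * (r : ℂ) ^ (-(a + t * Complex.I : ℂ)) *
          deriv (H82SZ.Gs T) (a + t * Complex.I)) (by linear_combination h0)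
  rw [h7]
  ring

end H74SZ
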