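import Mathlib
import Pool.Agent.H74.SZ.Fub
import Pool.Agent.H74.SZ.Ker

/-!
# Block K: expansion of the vertical integrals
-/

open Finset MeasureTheory

namespace H74SZ

theorem cast_pow_mul {n k : ℕ} (hn : n ≠ 0) (hk : k ≠ 0) (s : ℂ) :
    (n : ℂ) ^ (-s) * (k : ℂ) ^ (-(1 - s)) = ((1 / k : ℝ) : ℂ) * (((n / k : ℝ) : ℝ) : ℂ) ^ (-s) := by
  have hk' : (k : ℂ) ≠ 0 := Nat.cast_ne_zero.2 hk
  have h1 : (k : ℂ) ^ (-(1 - s)) = (k : ℂ)⁻¹ * (k : ℂ) ^ s := by
    rw [show -(1 - s) = -1 + s by ring, Complex.cpow_add _ _ hk', Complex.cpow_neg_one]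
  have h2 : (((n / k : ℝ) : ℝ) : ℂ) ^ (-s) = (n : ℂ) ^ (-s) * (k : ℂ) ^ s := by
    rw [show ((n / k : ℝ) : ℝ) = (n : ℝ) * (k : ℝ)⁻¹ from div_eq_mul_inv _ _, Complex.ofReal_mul,
      Complex.mul_cpow_ofReal_nonneg (Nat.cast_nonneg _) (by positivity)]
    congr 1
    rw [Complex.ofReal_inv, Complex.ofReal_natCast, Complex.inv_cpow _ _ (by
      rw [Complex.natCast_arg]; exact Real.pi_pos.ne), Complex.cpow_neg, inv_inv]
  rw [h1, h2]
  push_cast
  ring

theorem int_kpow {a : ℝ} {Q : ℂ → ℂ} (hQ : Integrable fun t : ℝ => Q (a + t * Complex.I)) {k : ℕ} (hk : k ≠ 0) :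
    Integrable fun t : ℝ => (k : ℂ) ^ (-(1 - (a + t * Complex.I : ℂ))) * Q (a + t * Complex.I) := by
  have hk' : (0 : ℝ) < k := Nat.cast_pos.2 (Nat.pos_of_ne_zero hk)
  refine hQ.bdd_mul (c := (k : ℝ) ^ (a - 1)) ?_ ?_
  · refine Continuous.aestronglyMeasurable ?_
    have : (k : ℂ) ≠ 0 := Nat.cast_ne_zero.2 hk
    refine Continuous.const_cpow ?_ (Or.inl this)
    fun_prop
  · refine Filter.Eventually.of_forall fun t => ?_
    have e : (k : ℂ) = ((k : ℝ) : ℂ) := by simp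
    rw [e, Complex.norm_cpow_eq_rpow_re_of_pos hk']
    apply le_of_eq
    congr 1
    simp

theorem exp_gen {a T : ℝ} {x c : ArithmeticFunction ℝ} (hc : SC a c) {Q : ℂ → ℂ}
    (hQ : Integrable fun t : ℝ => Q (a + t * Complex.I)) :
    (Integrable fun t : ℝ => dser c (a + t * Complex.I) * (Q (a + t * Complex.I) *
      H82SZ.dpol T x (1 - (a + t * Complex.I)))) ∧
    vint a (fun s => dser c s * (Q s * H82SZ.dpol T x (1 - s))) =
      ∑ k ∈ Icc 1 (H82SZ.NT T), ((x k / k : ℝ) : ℂ) *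
        ∑' n : ℕ, (c n : ℂ) * vint a fun s => (((n / k : ℝ) : ℝ) : ℂ) ^ (-s) * Q s := by
  have hexp : ∀ s : ℂ, dser c s * (Q s * H82SZ.dpol T x (1 - s)) =
      ∑ k ∈ Icc 1 (H82SZ.NT T), (x k : ℂ) * (dser c s * ((k : ℂ) ^ (-(1 - s)) * Q s)) := by
    intro s
    unfold H82SZ.dpol
    rw [Finset.mul_sum, Finset.mul_sum]
    refine Finset.sum_congr rfl fun k _ => ?_
    ring
  have hint : ∀ k ∈ Icc 1 (H82SZ.NT T), Integrable fun t : ℝ =>
      (x k : ℂ) * (dser c (a + t * Complex.I) * ((k : ℂ) ^ (-(1 - (a + t * Complex.I : ℂ))) *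
        Q (a + t * Complex.I))) := by
    intro k hk
    have hk0 : k ≠ 0 := by have := (Finset.mem_Icc.1 hk).1; omega
    exact (int_dser hc (H := fun s => (k : ℂ) ^ (-(1 - s)) * Q s) (int_kpow hQ hk0)).const_mul _
  constructor
  · have h1 := integrable_finset_sum _ hint
    refine h1.congr (Filter.Eventually.of_forall fun t => ?_)
    exact (hexp _).symm
  · unfold vint
    rw [show (fun t : ℝ => dser c (a + t * Complex.I) * (Q (a + t * Complex.I) *
        H82SZ.dpol T x (1 - (a + t * Complex.I)))) = fun t : ℝ => ∑ k ∈ Icc 1 (H82SZ.NT T),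
        (x k : ℂ) * (dser c (a + t * Complex.I) * ((k : ℂ) ^ (-(1 - (a + t * Complex.I : ℂ))) *
        Q (a + t * Complex.I))) from funext fun t => hexp _]
    rw [integral_finset_sum _ hint, Finset.mul_sum]
    refine Finset.sum_congr rfl fun k hk => ?_
    have hk0 : k ≠ 0 := by have := (Finset.mem_Icc.1 hk).1; omega
    rw [integral_const_mul]
    have h1 := (vint_dser hc (H := fun s => (k : ℂ) ^ (-(1 - s)) * Q s) (int_kpow hQ hk0)).2
    unfold vint at h1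
    rw [mul_left_comm, h1]
    have h2 : ∀ n : ℕ, (c n : ℂ) * ((2 * Real.pi : ℂ)⁻¹ * ∫ t : ℝ, (n : ℂ) ^ (-(a + t * Complex.I : ℂ)) *
        ((k : ℂ) ^ (-(1 - (a + t * Complex.I : ℂ))) * Q (a + t * Complex.I))) =
        ((1 / k : ℝ) : ℂ) * ((c n : ℂ) * ((2 * Real.pi : ℂ)⁻¹ * ∫ t : ℝ,
          (((n / k : ℝ) : ℝ) : ℂ) ^ (-(a + t * Complex.I : ℂ)) * Q (a + t * Complex.I))) := by
      intro n
      rcases Nat.eq_zero_or_pos n with h0 | hpos
      · subst h0
        simp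
      · have h3 : (fun t : ℝ => (n : ℂ) ^ (-(a + t * Complex.I : ℂ)) *
            ((k : ℂ) ^ (-(1 - (a + t * Complex.I : ℂ))) * Q (a + t * Complex.I))) =
            fun t : ℝ => ((1 / k : ℝ) : ℂ) * ((((n / k : ℝ) : ℝ) : ℂ) ^ (-(a + t * Complex.I : ℂ)) *
              Q (a + t * Complex.I)) := by
          funext t
          rw [← mul_assoc, cast_pow_mul hpos.ne' hk0, mul_assoc]
        rw [h3, integral_const_mul]
        ring
    rw [tsum_congr h2, tsum_mul_left]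
    push_cast
    ring

end H74SZ
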