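import Mathlib
import Pool.Agent.H74.SZ.Defs2

/-!
JDI: the diagonal kernel is concentrated on `n = m`.

Proof. `‖JJ T ρ‖ = ρ^{-1/2} ω exp (-T² log² ρ / (4L))`, `ρ = n/m`, `L = log T`; `JJ T 1 = ω` (`om T`). Let `n ≠ m`, `m ≤ T^{1-ε}`, `T ≥ T₀(ε)`.
 (1) `n ≤ 2 m`: `|log (n/m)| ≥ |n - m| / max(n, m) ≥ 1/(2m)` (`log (1 + x) ≥ x/(1+x)`), so the exponential is at most `exp (-T² / (16 m² L)) ≤ exp (-T^{2ε}/(16 L)) ≤ T^{-10}` for large `T`; `ρ^{-1/2} = (m/n)^{1/2} ≤ T^{1/2}`, `ω ≤ T`, and `n^{-a} ≥ (2T)^{-2}` (`a = 1 + 1/L ≤ 2`):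
 `‖JJ‖ ≤ T^{-8.5} ≤ T^{-3} (2T)^{-2}`.
 (2) `n > 2m`: `log² ρ ≥ log 2 · log ρ`, so the exponential is at most `ρ^{-E}`, `E = T² log 2 / (4 L) ≥ 20 L + 10` for large `T`; `ρ^{-E} ≤ ρ^{-2} 2^{-(E-2)} ≤ ρ^{-2} T^{-10}` and `ρ^{-2} = m² n^{-2} ≤ T² n^{-a}`: `‖JJ‖ ≤ T · T² · T^{-10} n^{-a}`.
 `jsm`: sum over `n` as in `ksm`: the family `c(n) (JJ T (n/m) - [n = m] ω)` is absolutely summable with sum of norms `≤ T^{-3} SS a c`.
-/

/-!
JDI: the diagonal kernel is concentrated on `n = m`.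

Proof. `‖JJ T ρ‖ = ρ^{-1/2} ω exp (-T² log² ρ / (4L))`, `ρ = n/m`, `L = log T`; `JJ T 1 = ω` (`om T`). Let `n ≠ m`, `m ≤ T^{1-ε}`, `T ≥ T₀(ε)`.
 (1) `n ≤ 2 m`: `|log (n/m)| ≥ |n - m| / max(n, m) ≥ 1/(2m)` (`log (1 + x) ≥ x/(1+x)`), so the exponential is at most `exp (-T² / (16 m² L)) ≤ exp (-T^{2ε}/(16 L)) ≤ T^{-10}` for large `T`; `ρ^{-1/2} = (m/n)^{1/2} ≤ T^{1/2}`, `ω ≤ T`, and `n^{-a} ≥ (2T)^{-2}` (`a = 1 + 1/L ≤ 2`):
 `‖JJ‖ ≤ T^{-8.5} ≤ T^{-3} (2T)^{-2}`.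
 (2) `n > 2m`: `log² ρ ≥ log 2 · log ρ`, so the exponential is at most `ρ^{-E}`, `E = T² log 2 / (4 L) ≥ 20 L + 10` for large `T`; `ρ^{-E} ≤ ρ^{-2} 2^{-(E-2)} ≤ ρ^{-2} T^{-10}` and `ρ^{-2} = m² n^{-2} ≤ T² n^{-a}`: `‖JJ‖ ≤ T · T² · T^{-10} n^{-a}`.
 `jsm`: sum over `n` as in `ksm`: the family `c(n) (JJ T (n/m) - [n = m] ω)` is absolutely summable with sum of norms `≤ T^{-3} SS a c`.
-/

open Finset

namespace H74SZ

private theorem SZKJdi_norm (T x : ℝ) (hT : 3 ≤ T) :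
    ‖Complex.exp (-((1 / 2 + T * Complex.I) * (x : ℂ))) * (ph T x : ℂ)‖ =
      Real.exp (-(1 / 2 * x)) * (H82SZ.om T * Real.exp (-(T ^ 2 * x ^ 2 / (4 * Real.log T)))) := by
  have hL : 0 < Real.log T := Real.log_pos (by linarith)
  have hom : 0 ≤ H82SZ.om T := by
    unfold H82SZ.om
    have := Real.sqrt_nonneg Real.pi
    have := Real.sqrt_nonneg (Real.log T)
    positivity
  rw [norm_mul, Complex.norm_exp, Complex.norm_real, Real.norm_eq_abs]
  have h1 : (-((1 / 2 + (T : ℂ) * Complex.I) * (x : ℂ))).re = -(1 / 2 * x) := by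
    simp
  rw [h1]
  have h2 : 0 ≤ ph T x := by
    unfold ph
    exact mul_nonneg hom (Real.exp_pos _).le
  rw [abs_of_nonneg h2]
  rfl

private theorem SZKJdi_om {T : ℝ} (hT : 3 ≤ T) (hL : 1 ≤ Real.log T) :
    H82SZ.om T ≤ Real.exp (Real.log T) := by
  rw [Real.exp_log (by linarith)]
  unfold H82SZ.om
  have h1 : 1 ≤ Real.sqrt Real.pi := by
    rw [Real.one_le_sqrt]
    linarith [Real.pi_gt_three]
  have h2 : 1 ≤ Real.sqrt (Real.log T) := by
    rw [Real.one_le_sqrt]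
    exact hL
  refine div_le_self (by linarith) ?_
  nlinarith

/-- The exponents. -/
private theorem SZKJdi_exp {T L lm ln a D : ℝ} (hT : 3 ≤ T) (hL : L = Real.log T)
    (hlm : lm ≤ L) (hln : 0 ≤ ln) (ha : a ≤ 2)
    (hD : 9 / 2 * L + 2 * ln ≤ D) (hom : H82SZ.om T ≤ Real.exp L) :
    Real.exp (-(1 / 2 * (ln - lm))) * (H82SZ.om T * Real.exp (-D)) ≤
      T ^ (-3 : ℝ) * Real.exp (ln * -a) := by
  rw [Real.rpow_def_of_pos (by linarith : (0 : ℝ) < T), ← hL, ← Real.exp_add]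
  calc Real.exp (-(1 / 2 * (ln - lm))) * (H82SZ.om T * Real.exp (-D))
      ≤ Real.exp (-(1 / 2 * (ln - lm))) * (Real.exp L * Real.exp (-D)) := by
        gcongr
    _ = Real.exp (-(1 / 2 * (ln - lm)) + (L + -D)) := by
        rw [Real.exp_add, Real.exp_add]
    _ ≤ Real.exp (L * -3 + ln * -a) := by
        apply Real.exp_le_exp.2
        nlinarith

theorem jdi {ε : ℝ} (hε : 0 < ε) : ∃ T₀ : ℝ, 3 ≤ T₀ ∧ ∀ T, T₀ ≤ T → ∀ m n : ℕ, 1 ≤ m → 1 ≤ n →
    (m : ℝ) ≤ T ^ (1 - ε) →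
    ‖JJ T (n / m) - (if n = m then (H82SZ.om T : ℂ) else 0)‖ ≤ T ^ (-3 : ℝ) * (n : ℝ) ^ (-H82SZ.aT T) := by
  obtain ⟨A, hA⟩ := Filter.eventually_atTop.1
    ((isLittleO_log_rpow_atTop hε).bound (by norm_num : (0 : ℝ) < 1 / 13))
  obtain ⟨B, hB⟩ := Filter.eventually_atTop.1
    ((isLittleO_log_rpow_atTop one_pos).bound (by norm_num : (0 : ℝ) < 1 / 13))
  refine ⟨max 3 (max A B), le_max_left _ _, fun T hT m n hm hn hmT => ?_⟩
  have hT3 : 3 ≤ T := (le_max_left _ _).trans hT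
  have hT0 : 0 < T := by linarith
  have hL1 : 1 ≤ Real.log T := by
    rw [Real.le_log_iff_exp_le hT0]
    have := Real.exp_one_lt_d9
    linarith
  have hTA : 13 * Real.log T ≤ T ^ ε := by
    have h := hA T ((le_max_left A B).trans ((le_max_right _ _).trans hT))
    rw [Real.norm_of_nonneg (by linarith), Real.norm_of_nonneg (Real.rpow_nonneg hT0.le _)] at h
    linarith
  have hTB : 13 * Real.log T ≤ T := by
    have h := hB T ((le_max_right A B).trans ((le_max_right _ _).trans hT))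
    rw [Real.norm_of_nonneg (by linarith), Real.norm_of_nonneg (Real.rpow_nonneg hT0.le _),
      Real.rpow_one] at h
    linarith
  obtain ⟨L, hL⟩ : ∃ L, L = Real.log T := ⟨_, rfl⟩
  rw [← hL] at hL1 hTA hTB
  have hm0 : (0 : ℝ) < m := by exact_mod_cast hm
  have hn0 : (0 : ℝ) < n := by exact_mod_cast hn
  have hm1 : (1 : ℝ) ≤ m := by exact_mod_cast hm
  have hn1 : (1 : ℝ) ≤ n := by exact_mod_cast hn
  have hlog : Real.log ((n : ℝ) / m) = Real.log n - Real.log m := Real.log_div hn0.ne' hm0.ne'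
  have hRHS : 0 ≤ T ^ (-3 : ℝ) * (n : ℝ) ^ (-H82SZ.aT T) := by positivity
  by_cases hnm : n = m
  · subst hnm
    rw [if_pos rfl, div_self hn0.ne']
    unfold JJ ph
    simp only [Real.log_one, Complex.ofReal_zero, mul_zero, neg_zero, Complex.exp_zero, one_mul]
    norm_num
    positivity
  rw [if_neg hnm, sub_zero]
  unfold JJ
  rw [SZKJdi_norm T _ hT3, hlog]
  rw [Real.rpow_def_of_pos hn0 (-H82SZ.aT T)]
  have ha : H82SZ.aT T ≤ 2 := by
    unfold H82SZ.aT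
    rw [← hL]
    have : 1 / L ≤ 1 := by
      rw [div_le_one (by linarith)]
      exact hL1
    linarith
  have hln : 0 ≤ Real.log n := Real.log_nonneg hn1
  have hlmn : 0 ≤ Real.log m := Real.log_nonneg hm1
  have hlmT : Real.log m ≤ L * (1 - ε) := by
    have h := Real.log_le_log hm0 hmT
    rw [Real.log_rpow hT0, ← hL] at h
    linarith
  have hlm : Real.log m ≤ L := by nlinarith
  refine SZKJdi_exp hT3 hL hlm hln ha ?_ (hL ▸ SZKJdi_om hT3 (hL ▸ hL1))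
  rw [← hL]
  have hL0 : 0 < L := by linarith
  obtain ⟨lam, hlam⟩ : ∃ lam, lam = Real.log n - Real.log m := ⟨_, rfl⟩
  rw [← hlam]
  have hl2 := Real.log_two_gt_d9
  have hl2' := Real.log_two_lt_d9
  rcases le_or_gt n (2 * m) with h2 | h2
  · -- close to the diagonal
    have h2' : (n : ℝ) ≤ 2 * m := by exact_mod_cast h2
    have hlb : (1 / (2 * m) : ℝ) ≤ |lam| := by
      rcases Nat.lt_or_gt_of_ne hnm with h | h
      · have h' : (n : ℝ) + 1 ≤ m := by exact_mod_cast h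
        have h3 := Real.log_le_sub_one_of_pos (div_pos hn0 hm0)
        rw [hlog, ← hlam] at h3
        have h4 : (n : ℝ) / m - 1 ≤ -(1 / (2 * m)) := by
          rw [div_sub_one hm0.ne', ← neg_div, div_le_div_iff₀ hm0 (by positivity)]
          nlinarith
        rw [abs_of_nonpos (by
          have : (0 : ℝ) < 1 / (2 * m) := by positivity
          linarith)]
        linarith
      · have h' : (m : ℝ) + 1 ≤ n := by exact_mod_cast h
        have h3 := Real.log_le_sub_one_of_pos (div_pos hm0 hn0)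
        rw [Real.log_div hm0.ne' hn0.ne'] at h3
        have h4 : (m : ℝ) / n - 1 ≤ -(1 / (2 * m)) := by
          rw [div_sub_one hn0.ne', ← neg_div, div_le_div_iff₀ hn0 (by positivity)]
          nlinarith
        have h5 : 1 / (2 * (m : ℝ)) ≤ lam := by linarith
        exact h5.trans (le_abs_self _)
    have hsq : (1 / (2 * m) : ℝ) ^ 2 ≤ lam ^ 2 := by
      rw [← sq_abs lam]
      have : (0 : ℝ) < 1 / (2 * m) := by positivity
      exact pow_le_pow_left₀ this.le hlb 2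
    have hTm : (T ^ ε) * m ≤ T := by
      calc (T ^ ε) * m ≤ T ^ ε * T ^ (1 - ε) := by gcongr
        _ = T := by
          rw [← Real.rpow_add hT0]
          norm_num
    have hT13 : 13 * L * m ≤ T := by
      calc 13 * L * m ≤ T ^ ε * m := by gcongr
        _ ≤ T := hTm
    have hD : 169 / 16 * L ≤ T ^ 2 * lam ^ 2 / (4 * L) := by
      rw [le_div_iff₀ (by positivity)]
      have h5 : (13 * L * m) ^ 2 ≤ T ^ 2 := pow_le_pow_left₀ (by positivity) hT13 2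
      have h6 : T ^ 2 * (1 / (2 * m) : ℝ) ^ 2 ≤ T ^ 2 * lam ^ 2 := by gcongr
      have h7 : (13 * L * m) ^ 2 * (1 / (2 * m) : ℝ) ^ 2 = 169 / 16 * L * (4 * L) := by
        field_simp
        ring
      have h8 : (13 * L * m) ^ 2 * (1 / (2 * m) : ℝ) ^ 2 ≤ T ^ 2 * (1 / (2 * m) : ℝ) ^ 2 := by
        gcongr
      linarith
    have hlnL : Real.log n ≤ Real.log 2 + L := by
      have h := Real.log_le_log hn0 h2'
      rw [Real.log_mul two_ne_zero hm0.ne'] at h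
      linarith
    linarith
  · have h2' : 2 * (m : ℝ) ≤ n := by exact_mod_cast h2.le
    have hlb : Real.log 2 ≤ lam := by
      have h := Real.log_le_log (by positivity) h2'
      rw [Real.log_mul two_ne_zero hm0.ne'] at h
      linarith
    have hD : (2 + 10 * L) * lam ≤ T ^ 2 * lam ^ 2 / (4 * L) := by
      rw [le_div_iff₀ (by positivity)]
      have h5 : (13 * L) ^ 2 ≤ T ^ 2 := pow_le_pow_left₀ (by positivity) hTB 2
      have hlam0 : 0 < lam := by linarith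
      have h6 : (2 + 10 * L) * (4 * L) ≤ T ^ 2 * lam := by
        have h7 : (13 * L) ^ 2 * Real.log 2 ≤ T ^ 2 * lam := by
          have := Real.log_pos one_lt_two
          gcongr
        have h8 : (2 + 10 * L) * (4 * L) ≤ (13 * L) ^ 2 * Real.log 2 := by nlinarith
        linarith
      calc (2 + 10 * L) * lam * (4 * L) = ((2 + 10 * L) * (4 * L)) * lam := by ring
        _ ≤ (T ^ 2 * lam) * lam := by gcongr
        _ = T ^ 2 * lam ^ 2 := by ring
    have h9 : 10 * L * Real.log 2 ≤ 10 * L * lam := by gcongr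
    nlinarith

theorem jsm {ε : ℝ} (hε : 0 < ε) : ∃ T₀ : ℝ, 3 ≤ T₀ ∧ ∀ T, T₀ ≤ T → ∀ m : ℕ, 1 ≤ m → (m : ℝ) ≤ T ^ (1 - ε) →
    ∀ c : ArithmeticFunction ℝ, SC (H82SZ.aT T) c → (Summable fun n : ℕ => (c n : ℂ) * JJ T (n / m)) ∧
    ‖∑' n : ℕ, (c n : ℂ) * JJ T (n / m) - (H82SZ.om T * c m : ℝ)‖ ≤ T ^ (-3 : ℝ) * SS (H82SZ.aT T) c := by
  obtain ⟨T₀, h3, h⟩ := jdi hε
  refine ⟨T₀, h3, fun T hT m hm hmT c hc => ?_⟩
  obtain ⟨g, hg⟩ : ∃ g : ℕ → ℂ, g = fun n : ℕ =>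
    (c n : ℂ) * (JJ T (n / m) - (if n = m then (H82SZ.om T : ℂ) else 0)) := ⟨_, rfl⟩
  have hb : ∀ n, ‖g n‖ ≤ T ^ (-3 : ℝ) * (|c n| * (n : ℝ) ^ (-H82SZ.aT T)) := by
    intro n
    rw [hg]
    rcases Nat.eq_zero_or_pos n with rfl | hn
    · simp
    · show ‖(c n : ℂ) * (JJ T (n / m) - (if n = m then (H82SZ.om T : ℂ) else 0))‖ ≤ _
      rw [norm_mul, Complex.norm_real, Real.norm_eq_abs]
      have h1 := h T hT m n hm hn hmT
      calc |c n| * ‖JJ T (n / m) - (if n = m then (H82SZ.om T : ℂ) else 0)‖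
          ≤ |c n| * (T ^ (-3 : ℝ) * (n : ℝ) ^ (-H82SZ.aT T)) := by gcongr
        _ = _ := by ring
  have hs : Summable fun n : ℕ => T ^ (-3 : ℝ) * (|c n| * (n : ℝ) ^ (-H82SZ.aT T)) :=
    hc.mul_left _
  have hgs : Summable g := Summable.of_norm_bounded hs hb
  have hd : ∀ n, (c n : ℂ) * JJ T (n / m) =
      g n + (if n = m then ((H82SZ.om T * c m : ℝ) : ℂ) else 0) := by
    intro n
    rw [hg]
    show _ = (c n : ℂ) * (JJ T (n / m) - (if n = m then (H82SZ.om T : ℂ) else 0)) + _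
    by_cases hn : n = m
    · subst hn
      rw [if_pos rfl, if_pos rfl]
      push_cast
      ring
    · rw [if_neg hn, if_neg hn]
      ring
  have hfs : Summable fun n : ℕ => (if n = m then ((H82SZ.om T * c m : ℝ) : ℂ) else 0) :=
    (hasSum_ite_eq m _).summable
  have he : (fun n : ℕ => (c n : ℂ) * JJ T (n / m)) =
      fun n => g n + (if n = m then ((H82SZ.om T * c m : ℝ) : ℂ) else 0) := funext hd
  rw [he]
  refine ⟨hgs.add hfs, ?_⟩
  rw [hgs.tsum_add hfs, tsum_ite_eq, add_sub_cancel_right]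
  calc ‖∑' n, g n‖ ≤ ∑' n, T ^ (-3 : ℝ) * (|c n| * (n : ℝ) ^ (-H82SZ.aT T)) :=
        tsum_of_norm_bounded hs.hasSum hb
    _ = T ^ (-3 : ℝ) * SS (H82SZ.aT T) c := by
        rw [tsum_mul_left]
        rfl

end H74SZ
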