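import Mathlib
import Pool.Agent.H74.SZ.Pht

/-!
KBA: `K_0(r) = e(-r) w(r) + O((1 + r/T) L/T)` for all `r > 0`. Use the STATEMENTS of `Pht.lean`.

Proof. Write `2 cos (2π r e^τ) = e^{-2π i r e^τ} + e^{2π i r e^τ}`, `e^τ = 1 + τ + q(τ)`, `|q(τ)| ≤ τ² e^{|τ|}` , `|e^{τ/2} - 1| ≤ |τ| e^{|τ|}`. For `σ = ∓1`: `e^{2π i σ r e^τ} e^{(1/2+iT)τ} = e(σ r) e^{i(T + 2π σ r)τ} · (e^{2π i σ r q(τ)} e^{τ/2})`, and
 `‖e^{2π i σ r q} e^{τ/2} - 1‖ ≤ 2π r |q| e^{|τ|} + |τ| e^{|τ|} ≤ 2π r τ² e^{2|τ|} + |τ| e^{2|τ|}`. By `ph_ft` the main parts are `e(-r) exp (-(T - 2π r)² L/T²) = e(-r) w(r)` for `σ = -1` and `e(r) exp (-(T + 2π r)² L / T²)` for `σ = 1`, which has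
 absolute value `≤ exp (-L) = 1/T ≤ L/T`. The errors are at most `2π r C L/T² + C L/T` by `ph_mom`. (All integrals converge by `ph_expint`.)
 `T1_bd`: `‖T1‖ ≤ 2 ∫ |τ| e^{|τ|/2} φ ≤ 2 C L/T`.
-/

open Finset MeasureTheory

namespace H74SZ

private lemma SZKKba_q (t : ℝ) : |Real.exp t - 1 - t| ≤ t ^ 2 * Real.exp |t| := by
  have h := Complex.norm_exp_sub_sum_le_norm_mul_exp (t : ℂ) 2
  have e1 : Complex.exp (t : ℂ) - ∑ m ∈ Finset.range 2, (t : ℂ) ^ m / (m.factorial : ℂ) = ((Real.exp t - 1 - t : ℝ) : ℂ) := by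
    rw [Finset.sum_range_succ, Finset.sum_range_succ, Finset.sum_range_zero]
    push_cast
    simp
    ring
  rw [e1, Complex.norm_real, Complex.norm_real, Real.norm_eq_abs, Real.norm_eq_abs, sq_abs] at h
  exact h

private lemma SZKKba_e (t : ℝ) : |Real.exp (t / 2) - 1| ≤ |t| * Real.exp |t| := by
  have h := Complex.norm_exp_sub_sum_le_norm_mul_exp ((t / 2 : ℝ) : ℂ) 1
  have e1 : Complex.exp ((t / 2 : ℝ) : ℂ) - ∑ m ∈ Finset.range 1, ((t / 2 : ℝ) : ℂ) ^ m / (m.factorial : ℂ) = ((Real.exp (t / 2) - 1 : ℝ) : ℂ) := by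
    rw [Finset.sum_range_succ, Finset.sum_range_zero]
    push_cast
    simp
  rw [e1, Complex.norm_real, Complex.norm_real, Real.norm_eq_abs, Real.norm_eq_abs, pow_one] at h
  have h2 : |t / 2| ≤ |t| := by
    rw [abs_div, abs_two]
    have := abs_nonneg t
    linarith
  calc |Real.exp (t / 2) - 1| ≤ |t / 2| * Real.exp |t / 2| := h
    _ ≤ |t| * Real.exp |t| := mul_le_mul h2 (Real.exp_le_exp.mpr h2) (Real.exp_pos _).le (abs_nonneg _)

private lemma SZKKba_half (t : ℝ) : Real.exp (t / 2) ≤ Real.exp |t| := by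
  apply Real.exp_le_exp.mpr
  have := le_abs_self t
  have := abs_nonneg t
  linarith

/-- the summand with sign `s` -/
private noncomputable def SZKKba_F (s T r : ℝ) (t : ℝ) : ℂ :=
  Complex.exp ((2 * Real.pi * s * r * Real.exp t : ℝ) * Complex.I) *
    (Complex.exp ((1 / 2 + T * Complex.I) * t) * (ph T t : ℂ))

private noncomputable def SZKKba_M (s T r : ℝ) (t : ℝ) : ℂ :=
  Complex.exp ((2 * Real.pi * s * r : ℝ) * Complex.I) *
    (Complex.exp ((T + 2 * Real.pi * s * r : ℝ) * t * Complex.I) * (ph T t : ℂ))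

private lemma SZKKba_expnorm (x : ℝ) : ‖Complex.exp ((x : ℂ) * Complex.I)‖ = 1 :=
  Complex.norm_exp_ofReal_mul_I x

private lemma SZKKba_expT (T t : ℝ) : ‖Complex.exp ((1 / 2 + T * Complex.I) * t)‖ = Real.exp (t / 2) := by
  rw [Complex.norm_exp]
  congr 1
  simp
  ring

private lemma SZKKba_Fnorm {T : ℝ} (hT : 1 < T) (s r t : ℝ) : ‖SZKKba_F s T r t‖ = Real.exp (t / 2) * ph T t := by
  unfold SZKKba_F
  rw [norm_mul, norm_mul, SZKKba_expnorm, SZKKba_expT, Complex.norm_real, Real.norm_eq_abs,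
    abs_of_nonneg (ph_nonneg hT t), one_mul]

private lemma SZKKba_Mnorm {T : ℝ} (hT : 1 < T) (s r t : ℝ) : ‖SZKKba_M s T r t‖ = ph T t := by
  unfold SZKKba_M
  have h2 : Complex.exp ((T + 2 * Real.pi * s * r : ℝ) * t * Complex.I) =
      Complex.exp ((((T + 2 * Real.pi * s * r) * t : ℝ) : ℂ) * Complex.I) := by
    push_cast
    rfl
  rw [norm_mul, norm_mul, SZKKba_expnorm, h2, SZKKba_expnorm, Complex.norm_real, Real.norm_eq_abs,
    abs_of_nonneg (ph_nonneg hT t), one_mul, one_mul]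

private lemma SZKKba_diff {T : ℝ} (hT : 1 < T) {s r : ℝ} (hs : |s| = 1) (hr : 0 < r) (t : ℝ) :
    ‖SZKKba_F s T r t - SZKKba_M s T r t‖ ≤
      (2 * Real.pi * r) * (t ^ 2 * Real.exp (2 * |t|) * ph T t) + |t| * Real.exp (2 * |t|) * ph T t := by
  have hq := SZKKba_q t
  have he := SZKKba_e t
  have hh := SZKKba_half t
  have hph := ph_nonneg hT t
  set q := Real.exp t - 1 - t with hqdef
  have hexp : Real.exp t = 1 + t + q := by rw [hqdef]; ring
  have key : SZKKba_F s T r t - SZKKba_M s T r t =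
      Complex.exp ((2 * Real.pi * s * r : ℝ) * Complex.I) *
      (Complex.exp (((T + 2 * Real.pi * s * r) * t : ℝ) * Complex.I) *
        ((Complex.exp (Complex.I * ((2 * Real.pi * s * r * q : ℝ) : ℂ)) * ((Real.exp (t / 2) : ℝ) : ℂ) - 1) * (ph T t : ℂ))) := by
    have e1 : Complex.exp ((2 * Real.pi * s * r * Real.exp t : ℝ) * Complex.I) * Complex.exp ((1 / 2 + T * Complex.I) * t) =
        Complex.exp ((2 * Real.pi * s * r : ℝ) * Complex.I) * (Complex.exp (((T + 2 * Real.pi * s * r) * t : ℝ) * Complex.I) *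
          (Complex.exp (Complex.I * ((2 * Real.pi * s * r * q : ℝ) : ℂ)) * ((Real.exp (t / 2) : ℝ) : ℂ))) := by
      rw [Complex.ofReal_exp, ← Complex.exp_add, ← Complex.exp_add, ← Complex.exp_add, ← Complex.exp_add]
      congr 1
      rw [hexp]
      push_cast
      ring
    have e2 : Complex.exp ((T + 2 * Real.pi * s * r : ℝ) * t * Complex.I) =
      Complex.exp ((((T + 2 * Real.pi * s * r) * t : ℝ) : ℂ) * Complex.I) := by
      push_cast
      rfl
    unfold SZKKba_F SZKKba_M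
    rw [← mul_assoc, e1, e2]
    ring
  rw [key, norm_mul, norm_mul, norm_mul, SZKKba_expnorm, SZKKba_expnorm, one_mul, one_mul, Complex.norm_real,
    Real.norm_eq_abs, abs_of_nonneg hph]
  have hb : ‖Complex.exp (Complex.I * ((2 * Real.pi * s * r * q : ℝ) : ℂ)) * ((Real.exp (t / 2) : ℝ) : ℂ) - 1‖ ≤
      (2 * Real.pi * r) * (t ^ 2 * Real.exp (2 * |t|)) + |t| * Real.exp (2 * |t|) := by
    have e3 : Complex.exp (Complex.I * ((2 * Real.pi * s * r * q : ℝ) : ℂ)) * ((Real.exp (t / 2) : ℝ) : ℂ) - 1 =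
        (Complex.exp (Complex.I * ((2 * Real.pi * s * r * q : ℝ) : ℂ)) - 1) * ((Real.exp (t / 2) : ℝ) : ℂ) +
          (((Real.exp (t / 2) - 1 : ℝ)) : ℂ) := by
      push_cast
      ring
    rw [e3]
    refine (norm_add_le _ _).trans ?_
    rw [norm_mul, Complex.norm_real, Complex.norm_real, Real.norm_eq_abs, Real.norm_eq_abs, abs_of_pos (Real.exp_pos _)]
    have h1 : ‖Complex.exp (Complex.I * ((2 * Real.pi * s * r * q : ℝ) : ℂ)) - 1‖ ≤ 2 * Real.pi * r * (t ^ 2 * Real.exp |t|) := by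
      refine (Real.norm_exp_I_mul_ofReal_sub_one_le).trans ?_
      rw [Real.norm_eq_abs]
      have : |2 * Real.pi * s * r * q| = 2 * Real.pi * r * |q| := by
        rw [abs_mul, abs_mul, abs_mul, hs, abs_of_pos hr, abs_of_pos Real.two_pi_pos]
        ring
      rw [this]
      exact mul_le_mul_of_nonneg_left hq (by positivity)
    have h2 : Real.exp |t| * Real.exp |t| = Real.exp (2 * |t|) := by
      rw [← Real.exp_add]; ring_nf
    have h3 : Real.exp |t| ≤ Real.exp (2 * |t|) := by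
      apply Real.exp_le_exp.mpr
      have := abs_nonneg t
      linarith
    have h4 : ‖Complex.exp (Complex.I * ((2 * Real.pi * s * r * q : ℝ) : ℂ)) - 1‖ * Real.exp (t / 2) ≤
        (2 * Real.pi * r * (t ^ 2 * Real.exp |t|)) * Real.exp |t| :=
      mul_le_mul h1 hh (Real.exp_pos _).le (by positivity)
    have h5 : |t| * Real.exp |t| ≤ |t| * Real.exp (2 * |t|) := mul_le_mul_of_nonneg_left h3 (abs_nonneg _)
    calc ‖Complex.exp (Complex.I * ((2 * Real.pi * s * r * q : ℝ) : ℂ)) - 1‖ * Real.exp (t / 2) + |Real.exp (t / 2) - 1|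
        ≤ (2 * Real.pi * r * (t ^ 2 * Real.exp |t|)) * Real.exp |t| + |t| * Real.exp (2 * |t|) :=
          add_le_add h4 (he.trans h5)
      _ = (2 * Real.pi * r) * (t ^ 2 * Real.exp (2 * |t|)) + |t| * Real.exp (2 * |t|) := by
          rw [← h2]; ring
  calc ‖Complex.exp (Complex.I * ((2 * Real.pi * s * r * q : ℝ) : ℂ)) * ((Real.exp (t / 2) : ℝ) : ℂ) - 1‖ * ph T t
      ≤ ((2 * Real.pi * r) * (t ^ 2 * Real.exp (2 * |t|)) + |t| * Real.exp (2 * |t|)) * ph T t :=
        mul_le_mul_of_nonneg_right hb hph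
    _ = _ := by ring

private lemma SZKKba_Fcont (s T r : ℝ) : Continuous (SZKKba_F s T r) := by
  have := ph_cont T
  unfold SZKKba_F
  fun_prop

private lemma SZKKba_Mcont (s T r : ℝ) : Continuous (SZKKba_M s T r) := by
  have := ph_cont T
  unfold SZKKba_M
  fun_prop

private lemma SZKKba_int0 {T : ℝ} (hT : 1 < T) : Integrable fun t : ℝ => Real.exp (2 * |t|) * ph T t := by
  have := ph_expint hT 2 0
  simpa using this

private lemma SZKKba_int1 {T : ℝ} (hT : 1 < T) : Integrable fun t : ℝ => |t| * Real.exp (2 * |t|) * ph T t := by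
  have h := ph_expint hT 2 1
  have hc := ph_cont T
  refine h.mono' (by fun_prop) (Filter.Eventually.of_forall fun t => ?_)
  have hph := ph_nonneg hT t
  have ha := abs_nonneg t
  rw [Real.norm_eq_abs, abs_of_nonneg (by positivity)]
  have : |t| ≤ (1 + |t|) ^ 1 := by linarith
  gcongr

private lemma SZKKba_int2 {T : ℝ} (hT : 1 < T) : Integrable fun t : ℝ => t ^ 2 * Real.exp (2 * |t|) * ph T t := by
  have h := ph_expint hT 2 2
  have hc := ph_cont T
  refine h.mono' (by fun_prop) (Filter.Eventually.of_forall fun t => ?_)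
  have hph := ph_nonneg hT t
  have ha := abs_nonneg t
  rw [Real.norm_eq_abs, abs_of_nonneg (by positivity)]
  have : t ^ 2 ≤ (1 + |t|) ^ 2 := by
    rw [← sq_abs t]
    nlinarith
  gcongr

private lemma SZKKba_Fint {T : ℝ} (hT : 1 < T) (s r : ℝ) : Integrable (SZKKba_F s T r) := by
  refine (SZKKba_int0 hT).mono' (SZKKba_Fcont s T r).aestronglyMeasurable (Filter.Eventually.of_forall fun t => ?_)
  rw [SZKKba_Fnorm hT]
  apply mul_le_mul_of_nonneg_right _ (ph_nonneg hT t)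
  apply Real.exp_le_exp.mpr
  have := le_abs_self t
  have := abs_nonneg t
  linarith

private lemma SZKKba_Mint {T : ℝ} (hT : 1 < T) (s r : ℝ) : Integrable (SZKKba_M s T r) := by
  refine (SZKKba_int0 hT).mono' (SZKKba_Mcont s T r).aestronglyMeasurable (Filter.Eventually.of_forall fun t => ?_)
  rw [SZKKba_Mnorm hT]
  have h1 : 1 ≤ Real.exp (2 * |t|) := Real.one_le_exp (by positivity)
  have := ph_nonneg hT t
  nlinarith

private lemma SZKKba_Mval {T : ℝ} (hT : 1 < T) (s r : ℝ) : ∫ t, SZKKba_M s T r t =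
    Complex.exp ((2 * Real.pi * s * r : ℝ) * Complex.I) *
      ((Real.exp (-((T + 2 * Real.pi * s * r) ^ 2 * Real.log T / T ^ 2)) : ℝ) : ℂ) := by
  unfold SZKKba_M
  rw [integral_const_mul, ph_ft hT]

private lemma SZKKba_err {T C : ℝ} (hT : 1 < T) {s r : ℝ} (hs : |s| = 1) (hr : 0 < r)
    (h1 : ∫ τ : ℝ, |τ| * Real.exp (2 * |τ|) * ph T τ ≤ C * (Real.log T / T))
    (h2 : ∫ τ : ℝ, τ ^ 2 * Real.exp (2 * |τ|) * ph T τ ≤ C * (Real.log T / T ^ 2)) :
    ‖(∫ t, SZKKba_F s T r t) - ∫ t, SZKKba_M s T r t‖ ≤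
      2 * Real.pi * r * (C * (Real.log T / T ^ 2)) + C * (Real.log T / T) := by
  rw [← integral_sub (SZKKba_Fint hT s r) (SZKKba_Mint hT s r)]
  have hI : Integrable fun t : ℝ => (2 * Real.pi * r) * (t ^ 2 * Real.exp (2 * |t|) * ph T t) + |t| * Real.exp (2 * |t|) * ph T t :=
    ((SZKKba_int2 hT).const_mul (2 * Real.pi * r)).add (SZKKba_int1 hT)
  refine (norm_integral_le_of_norm_le hI
    (Filter.Eventually.of_forall fun t => SZKKba_diff hT hs hr t)).trans ?_
  have e : ∫ t : ℝ, ((2 * Real.pi * r) * (t ^ 2 * Real.exp (2 * |t|) * ph T t) + |t| * Real.exp (2 * |t|) * ph T t) =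
      (2 * Real.pi * r) * (∫ t : ℝ, t ^ 2 * Real.exp (2 * |t|) * ph T t) + ∫ t : ℝ, |t| * Real.exp (2 * |t|) * ph T t := by
    rw [integral_add ((SZKKba_int2 hT).const_mul (2 * Real.pi * r)) (SZKKba_int1 hT), integral_const_mul]
  rw [e]
  have hpr : 0 ≤ 2 * Real.pi * r := by positivity
  exact add_le_add (mul_le_mul_of_nonneg_left h2 hpr) h1

private lemma SZKKba_cos (x : ℝ) : ((2 * Real.cos x : ℝ) : ℂ) = Complex.exp ((x : ℂ) * Complex.I) + Complex.exp (((-x : ℝ) : ℂ) * Complex.I) := by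
  push_cast
  rw [Complex.two_cos]

private lemma SZKKba_T0 {T : ℝ} (hT : 1 < T) (r : ℝ) : T0 T r = (∫ t, SZKKba_F 1 T r t) + ∫ t, SZKKba_F (-1) T r t := by
  rw [← integral_add (SZKKba_Fint hT 1 r) (SZKKba_Fint hT (-1) r)]
  unfold T0
  congr 1
  funext t
  rw [SZKKba_cos]
  unfold SZKKba_F
  have e1 : (2 * Real.pi * 1 * r * Real.exp t : ℝ) = 2 * Real.pi * r * Real.exp t := by ring
  have e2 : (2 * Real.pi * (-1) * r * Real.exp t : ℝ) = -(2 * Real.pi * r * Real.exp t) := by ring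
  rw [e1, e2, add_mul]

private lemma SZKKba_log {T : ℝ} (hT : 3 ≤ T) : 1 ≤ Real.log T := by
  rw [Real.le_log_iff_exp_le (by linarith)]
  have := Real.exp_one_lt_d9
  linarith

theorem T0_approx : ∃ C T₀ : ℝ, 3 ≤ T₀ ∧ ∀ T, T₀ ≤ T → ∀ r : ℝ, 0 < r →
    ‖T0 T r - H69LB.ee (-r) * (H82SZ.wt T r : ℂ)‖ ≤ C * (1 + r / T) * (Real.log T / T) := by
  obtain ⟨C, T₀, hC, h3, hm⟩ := ph_mom
  refine ⟨4 * Real.pi * C + 2 * C + 1, T₀, h3, fun T hT r hr => ?_⟩
  obtain ⟨h1, h2⟩ := hm T hT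
  have hT3 : 3 ≤ T := h3.trans hT
  have hT1 : 1 < T := by linarith
  have hT0 : 0 < T := by linarith
  have hL := SZKKba_log hT3
  have hL0 : 0 < Real.log T := by linarith
  have ep := SZKKba_err (s := 1) hT1 (by simp) hr h1 h2
  have em := SZKKba_err (s := -1) hT1 (by simp) hr h1 h2
  have hMm : (∫ t, SZKKba_M (-1) T r t) = H69LB.ee (-r) * (H82SZ.wt T r : ℂ) := by
    rw [SZKKba_Mval hT1]
    unfold H69LB.ee H82SZ.wt
    have e1 : (2 * Real.pi * (-1) * r : ℝ) = 2 * Real.pi * (-r) := by ring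
    have e2 : T + 2 * Real.pi * (-r) = T - 2 * Real.pi * r := by ring
    rw [e1, e2]
    push_cast
    rfl
  have hMp : ‖∫ t, SZKKba_M 1 T r t‖ ≤ Real.log T / T := by
    rw [SZKKba_Mval hT1, norm_mul, SZKKba_expnorm, one_mul, Complex.norm_real, Real.norm_eq_abs, abs_of_pos (Real.exp_pos _)]
    have e1 : Real.log T ≤ (T + 2 * Real.pi * 1 * r) ^ 2 * Real.log T / T ^ 2 := by
      rw [le_div_iff₀ (by positivity)]
      have : T ^ 2 ≤ (T + 2 * Real.pi * 1 * r) ^ 2 := by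
        apply pow_le_pow_left₀ hT0.le
        have := Real.pi_pos
        have : 0 ≤ 2 * Real.pi * 1 * r := by positivity
        linarith
      nlinarith
    calc Real.exp (-((T + 2 * Real.pi * 1 * r) ^ 2 * Real.log T / T ^ 2)) ≤ Real.exp (-Real.log T) :=
          Real.exp_le_exp.mpr (neg_le_neg e1)
      _ = 1 / T := by rw [Real.exp_neg, Real.exp_log hT0, one_div]
      _ ≤ Real.log T / T := div_le_div_of_nonneg_right hL hT0.le
  rw [SZKKba_T0 hT1, ← hMm]
  have split : (∫ t, SZKKba_F 1 T r t) + (∫ t, SZKKba_F (-1) T r t) - (∫ t, SZKKba_M (-1) T r t) =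
      ((∫ t, SZKKba_F 1 T r t) - ∫ t, SZKKba_M 1 T r t) + ((∫ t, SZKKba_F (-1) T r t) - ∫ t, SZKKba_M (-1) T r t) +
        ∫ t, SZKKba_M 1 T r t := by ring
  rw [split]
  refine ((norm_add_le _ _).trans (add_le_add (norm_add_le _ _) le_rfl)).trans ?_
  have tot : (2 * Real.pi * r * (C * (Real.log T / T ^ 2)) + C * (Real.log T / T)) +
      (2 * Real.pi * r * (C * (Real.log T / T ^ 2)) + C * (Real.log T / T)) + Real.log T / T ≤
      (4 * Real.pi * C + 2 * C + 1) * (1 + r / T) * (Real.log T / T) := by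
    have e1 : Real.log T / T ^ 2 = (1 / T) * (Real.log T / T) := by
      field_simp
    have e2 : (2 * Real.pi * r * (C * (Real.log T / T ^ 2)) + C * (Real.log T / T)) +
      (2 * Real.pi * r * (C * (Real.log T / T ^ 2)) + C * (Real.log T / T)) + Real.log T / T =
        (4 * Real.pi * C * (r / T) + 2 * C + 1) * (Real.log T / T) := by
      rw [e1]; ring
    rw [e2]
    apply mul_le_mul_of_nonneg_right _ (by positivity)
    have hr' : 0 ≤ r / T := by positivity
    have := Real.pi_pos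
    have : 0 ≤ 4 * Real.pi * C := by positivity
    nlinarith [mul_nonneg hC hr']
  exact (add_le_add (add_le_add ep em) hMp).trans tot

theorem T1_bd : ∃ C T₀ : ℝ, 3 ≤ T₀ ∧ ∀ T, T₀ ≤ T → ∀ r : ℝ, 0 < r → ‖T1 T r‖ ≤ C * (Real.log T / T) := by
  obtain ⟨C, T₀, hC, h3, hm⟩ := ph_mom
  refine ⟨2 * C, T₀, h3, fun T hT r hr => ?_⟩
  obtain ⟨h1, h2⟩ := hm T hT
  have hT1 : 1 < T := by linarith
  unfold T1
  refine (norm_integral_le_of_norm_le ((SZKKba_int1 hT1).const_mul 2) (Filter.Eventually.of_forall fun t => ?_)).trans ?_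
  · rw [norm_mul, norm_mul, norm_mul, SZKKba_expT, norm_neg, Complex.norm_real, Complex.norm_real, Complex.norm_real,
      Real.norm_eq_abs, Real.norm_eq_abs, Real.norm_eq_abs, abs_of_nonneg (ph_nonneg hT1 t)]
    have hc : |2 * Real.cos (2 * Real.pi * r * Real.exp t)| ≤ 2 := by
      rw [abs_mul, abs_two]
      have := Real.abs_cos_le_one (2 * Real.pi * r * Real.exp t)
      linarith
    have he : Real.exp (t / 2) ≤ Real.exp (2 * |t|) := by
      apply Real.exp_le_exp.mpr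
      have := le_abs_self t
      have := abs_nonneg t
      linarith
    have hph := ph_nonneg hT1 t
    have ha := abs_nonneg t
    have h5 : |t| * (Real.exp (t / 2) * ph T t) ≤ |t| * Real.exp (2 * |t|) * ph T t := by
      rw [mul_assoc]
      gcongr
    exact mul_le_mul hc h5 (by positivity) (by norm_num)
  · rw [integral_const_mul]
    calc 2 * ∫ t : ℝ, |t| * Real.exp (2 * |t|) * ph T t ≤ 2 * (C * (Real.log T / T)) :=
          mul_le_mul_of_nonneg_left h1 (by norm_num)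
      _ = 2 * C * (Real.log T / T) := by ring

end H74SZ
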