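import Mathlib
import Pool.Agent.H74.SZ.Ker

/-!
KBB: the tail `‖K(r)‖ ≤ C T^41 r^{-40}`. Use the STATEMENTS of `Ker.lean`, `Xb.lean`, `Gau.lean`.

Proof. By `ka` with `a = 40` (`T0 T r = KA 40 T r`): `‖T0 T r‖ ≤ r^{-40} ∫ ‖Xf (40 + it)‖ ‖Gs T (40 + it)‖ dt ≤ C r^{-40} ∫ (1+|t|)^40 exp ((39.5² - (t-T)²) L/T²) dt` (`Xf_nat 40`, `Gs_norm`; `‖r^{-s}‖ = r^{-40}`). For `T ≥ T₀`: `39.5² L/T² ≤ 1`, `L ≥ 1`; substitute `t = T (1 + v)`:
 `(1 + |t|) ≤ T (3 + |v|)`, `exp (-v² L) ≤ exp (-v²)`, so the integral is `≤ e T^41 ∫ (3+|v|)^40 e^{-v²} dv`. For `T1` use `kd` with `a = 40`: by `Gs_deriv` `‖G'‖ ≤ 2 (40 + |t - T|) (L/T²) ‖G‖ ≤ 80 (1 + |v|) ‖G‖` (`40 + T|v| ≤ 40 T (1+|v|)`, `L ≤ T`), the same computation.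
-/

open Finset MeasureTheory

namespace H74SZ

private lemma kbb_maj : Integrable fun v : ℝ => (3 + |v|) ^ 41 * Real.exp (-v ^ 2) := by
  have h1 : Integrable fun v : ℝ => Real.exp (-(1 / 2 : ℝ) * v ^ 2) := integrable_exp_neg_mul_sq (by norm_num)
  -- (3+|v|)^41 exp(-v^2/2) is bounded
  have hb : ∀ v : ℝ, (3 + |v|) ^ 41 * Real.exp (-v ^ 2) ≤ (Nat.factorial 41 * Real.exp 4) * Real.exp (-(1 / 2 : ℝ) * v ^ 2) := by
    intro v
    have h2 : (3 + |v|) ^ 41 ≤ Nat.factorial 41 * Real.exp (3 + |v|) := by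
      have h3 := Real.pow_div_factorial_le_exp (3 + |v|) (by positivity) 41
      rw [div_le_iff₀ (by positivity)] at h3
      linarith
    have h4 : Real.exp (3 + |v|) * Real.exp (-v ^ 2) ≤ Real.exp 4 * Real.exp (-(1 / 2 : ℝ) * v ^ 2) := by
      rw [← Real.exp_add, ← Real.exp_add]
      apply Real.exp_le_exp.2
      have : |v| ≤ 1 / 2 + v ^ 2 / 2 := by
        have := sq_nonneg (|v| - 1)
        have h5 := sq_abs v
        nlinarith
      linarith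
    calc (3 + |v|) ^ 41 * Real.exp (-v ^ 2) ≤ Nat.factorial 41 * Real.exp (3 + |v|) * Real.exp (-v ^ 2) := by gcongr
      _ = Nat.factorial 41 * (Real.exp (3 + |v|) * Real.exp (-v ^ 2)) := by ring
      _ ≤ Nat.factorial 41 * (Real.exp 4 * Real.exp (-(1 / 2 : ℝ) * v ^ 2)) := by gcongr
      _ = _ := by ring
  refine (h1.const_mul (Nat.factorial 41 * Real.exp 4)).mono' (by fun_prop) (Filter.Eventually.of_forall fun v => ?_)
  rw [Real.norm_of_nonneg (by positivity)]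
  exact hb v

private lemma kbb_gen (A : ℝ) (hA : 0 ≤ A) : ∃ C T₀ : ℝ, 3 ≤ T₀ ∧ ∀ T, T₀ ≤ T → ∀ r : ℝ, 0 < r → ∀ Q : ℝ → ℂ,
    (∀ t, ‖Q t‖ ≤ A * (1 + |(t - T) / T|) * ‖H82SZ.Gs T ((40 : ℝ) + t * Complex.I)‖) →
    ‖(2 * Real.pi : ℂ)⁻¹ * ∫ t : ℝ, Xf ((40 : ℝ) + t * Complex.I) * (r : ℂ) ^ (-((40 : ℝ) + t * Complex.I : ℂ)) * Q t‖ ≤
      C * T ^ 41 / r ^ 40 := by
  obtain ⟨C, hC⟩ := Xf_nat 40 (by norm_num)
  set M := ∫ v : ℝ, (3 + |v|) ^ 41 * Real.exp (-v ^ 2) with hM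
  have hM0 : 0 ≤ M := integral_nonneg fun v => by positivity
  refine ⟨|C| * (A * Real.exp 1) * M, 1600, by norm_num, fun T hT r hr Q hQ => ?_⟩
  have hTp : 0 < T := by linarith
  have hL1 : 1 ≤ Real.log T := by
    rw [Real.le_log_iff_exp_le hTp]
    have := Real.exp_one_lt_d9
    linarith
  have hLT : Real.log T ≤ T := (Real.log_le_sub_one_of_pos hTp).trans (by linarith)
  have hG : ∀ t : ℝ, ‖H82SZ.Gs T ((40 : ℝ) + t * Complex.I)‖ ≤ Real.exp 1 * Real.exp (-((t - T) / T) ^ 2) := by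
    intro t
    rw [Gs_norm hTp.ne', ← Real.exp_add]
    apply Real.exp_le_exp.2
    have e1 : (((40 : ℝ) - 1 / 2) ^ 2 - (t - T) ^ 2) * Real.log T / T ^ 2 =
        (40 - 1 / 2) ^ 2 * (Real.log T / T ^ 2) - ((t - T) / T) ^ 2 * Real.log T := by
      field_simp
    rw [e1]
    have e2 : ((40 : ℝ) - 1 / 2) ^ 2 * (Real.log T / T ^ 2) ≤ 1 := by
      rw [← mul_div_assoc, div_le_one (by positivity)]
      nlinarith
    have e3 : ((t - T) / T) ^ 2 ≤ ((t - T) / T) ^ 2 * Real.log T := le_mul_of_one_le_right (sq_nonneg _) hL1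
    have e4 : -((t - T) / T) ^ 2 = -(((t - T) / T) ^ 2) := by ring
    linarith
  have hpt : ∀ t : ℝ, ‖Xf ((40 : ℝ) + t * Complex.I) * (r : ℂ) ^ (-((40 : ℝ) + t * Complex.I : ℂ)) * Q t‖ ≤
      |C| * (A * Real.exp 1) * (T ^ 40 / r ^ 40) * ((3 + |(t - T) / T|) ^ 41 * Real.exp (-((t - T) / T) ^ 2)) := by
    intro t
    have hr' : ‖(r : ℂ) ^ (-((40 : ℝ) + t * Complex.I : ℂ))‖ = (r ^ 40)⁻¹ := by
      rw [Complex.norm_cpow_eq_rpow_re_of_pos hr]
      have : (-((40 : ℝ) + t * Complex.I : ℂ)).re = -(40 : ℝ) := by simp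
      rw [this, Real.rpow_neg hr.le]
      norm_num
    have hX : ‖Xf ((40 : ℝ) + t * Complex.I)‖ ≤ |C| * (T * (3 + |(t - T) / T|)) ^ 40 := by
      have h1 := hC t
      have h2 : Xf ((40 : ℝ) + t * Complex.I) = Xf ((40 : ℕ) + t * Complex.I) := by norm_num
      rw [h2]
      refine h1.trans ?_
      have h3 : 1 + |t| ≤ T * (3 + |(t - T) / T|) := by
        rw [abs_div, abs_of_pos hTp, mul_add, mul_div_cancel₀ _ hTp.ne']
        have := abs_add_le (t - T) T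
        rw [sub_add_cancel, abs_of_pos hTp] at this
        linarith
      calc C * (1 + |t|) ^ 40 ≤ |C| * (1 + |t|) ^ 40 := by gcongr; exact le_abs_self C
        _ ≤ _ := by gcongr
    have hQ' : ‖Q t‖ ≤ A * (3 + |(t - T) / T|) * (Real.exp 1 * Real.exp (-((t - T) / T) ^ 2)) := by
      refine (hQ t).trans ?_
      have := hG t
      gcongr
      norm_num
    rw [norm_mul, norm_mul, hr']
    calc ‖Xf ((40 : ℝ) + t * Complex.I)‖ * (r ^ 40)⁻¹ * ‖Q t‖ ≤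
        (|C| * (T * (3 + |(t - T) / T|)) ^ 40) * (r ^ 40)⁻¹ *
          (A * (3 + |(t - T) / T|) * (Real.exp 1 * Real.exp (-((t - T) / T) ^ 2))) := by gcongr
      _ = _ := by
        rw [mul_pow, div_eq_mul_inv]
        ring
  have hint : Integrable fun t : ℝ => (3 + |(t - T) / T|) ^ 41 * Real.exp (-((t - T) / T) ^ 2) := by
    have h1 := (kbb_maj.comp_div hTp.ne').comp_sub_right T
    exact h1
  have hval : ∫ t : ℝ, (3 + |(t - T) / T|) ^ 41 * Real.exp (-((t - T) / T) ^ 2) = T * M := by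
    have h1 := integral_sub_right_eq_self (μ := volume)
      (fun t : ℝ => (3 + |t / T|) ^ 41 * Real.exp (-(t / T) ^ 2)) T
    rw [h1]
    have h2 := Measure.integral_comp_div (fun v : ℝ => (3 + |v|) ^ 41 * Real.exp (-v ^ 2)) T
    rw [h2, abs_of_pos hTp, smul_eq_mul]
  have hpi : ‖(2 * Real.pi : ℂ)⁻¹‖ ≤ 1 := by
    rw [norm_inv, norm_mul, Complex.norm_real, Real.norm_of_nonneg Real.pi_pos.le]
    have h3 := Real.pi_gt_three
    have : ‖(2 : ℂ)‖ = 2 := by simp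
    rw [this]
    apply inv_le_one_of_one_le₀
    linarith
  rw [norm_mul]
  have h5 := norm_integral_le_of_norm_le (hint.const_mul (|C| * (A * Real.exp 1) * (T ^ 40 / r ^ 40)))
    (Filter.Eventually.of_forall hpt)
  rw [integral_const_mul, hval] at h5
  calc _ ≤ 1 * (|C| * (A * Real.exp 1) * (T ^ 40 / r ^ 40) * (T * M)) := by
        gcongr
    _ = _ := by ring

theorem T0_tail : ∃ C T₀ : ℝ, 3 ≤ T₀ ∧ ∀ T, T₀ ≤ T → ∀ r : ℝ, 0 < r → ‖T0 T r‖ ≤ C * T ^ 41 / r ^ 40 := by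
  obtain ⟨C, T₀, hT₀, h⟩ := kbb_gen 1 zero_le_one
  refine ⟨C, T₀, hT₀, fun T hT r hr => ?_⟩
  have hT1 : 1 < T := by linarith
  rw [← ka hT1 (a := 40) (by norm_num) hr]
  unfold KA vint
  refine h T hT r hr (fun t => H82SZ.Gs T ((40 : ℝ) + t * Complex.I)) fun t => ?_
  have h1 : 1 ≤ 1 + |(t - T) / T| := by have := abs_nonneg ((t - T) / T); linarith
  have h2 := norm_nonneg (H82SZ.Gs T ((40 : ℝ) + t * Complex.I))
  nlinarith

theorem T1_tail : ∃ C T₀ : ℝ, 3 ≤ T₀ ∧ ∀ T, T₀ ≤ T → ∀ r : ℝ, 0 < r → ‖T1 T r‖ ≤ C * T ^ 41 / r ^ 40 := by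
  obtain ⟨C, T₀, hT₀, h⟩ := kbb_gen 80 (by norm_num)
  refine ⟨C, T₀, hT₀, fun T hT r hr => ?_⟩
  have hT1 : 1 < T := by linarith
  have hTp : 0 < T := by linarith
  rw [← kd hT1 (a := 40) (by norm_num) hr]
  unfold KD vint
  refine h T hT r hr (fun t => deriv (H82SZ.Gs T) ((40 : ℝ) + t * Complex.I)) fun t => ?_
  rw [(Gs_deriv T _).deriv, norm_mul]
  have h2 := norm_nonneg (H82SZ.Gs T ((40 : ℝ) + t * Complex.I))
  refine mul_le_mul_of_nonneg_right ?_ h2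
  have hLT : Real.log T ≤ T := (Real.log_le_sub_one_of_pos hTp).trans (by linarith)
  have hL0 : 0 ≤ Real.log T := Real.log_nonneg hT1.le
  have e1 : (2 * (((40 : ℝ) : ℂ) + t * Complex.I - 1 / 2 - T * Complex.I) * (Real.log T : ℂ) / (T : ℂ) ^ 2) =
      ((2 * Real.log T / T ^ 2 : ℝ) : ℂ) * (((79 / 2 : ℝ) : ℂ) + ((t - T : ℝ) : ℂ) * Complex.I) := by
    push_cast
    ring
  rw [e1, norm_mul, Complex.norm_real, Real.norm_of_nonneg (by positivity)]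
  have e2 : ‖((79 / 2 : ℝ) : ℂ) + ((t - T : ℝ) : ℂ) * Complex.I‖ ≤ 40 + |t - T| := by
    refine (norm_add_le _ _).trans ?_
    rw [norm_mul, Complex.norm_I, mul_one, Complex.norm_real, Complex.norm_real, Real.norm_eq_abs, Real.norm_eq_abs]
    have : |(79 / 2 : ℝ)| ≤ 40 := by norm_num [abs_of_pos]
    linarith
  have e3 : 40 + |t - T| ≤ 40 * T * (1 + |(t - T) / T|) := by
    rw [abs_div, abs_of_pos hTp]
    have : 40 * T * (1 + |t - T| / T) = 40 * T + 40 * |t - T| := by field_simp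
    rw [this]
    have := abs_nonneg (t - T)
    nlinarith
  calc 2 * Real.log T / T ^ 2 * ‖((79 / 2 : ℝ) : ℂ) + ((t - T : ℝ) : ℂ) * Complex.I‖
      ≤ 2 * Real.log T / T ^ 2 * (40 * T * (1 + |(t - T) / T|)) := by
        gcongr
        exact e2.trans e3
    _ = 80 * (Real.log T / T) * (1 + |(t - T) / T|) := by field_simp; ring
    _ ≤ 80 * 1 * (1 + |(t - T) / T|) := by
        gcongr
        rw [div_le_one hTp]
        exact hLT
    _ = _ := by ring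

end H74SZ
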