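import Mathlib
import Pool.Agent.H74.SZ.Defs2
import Pool.Agent.H74.SZ.Kba
import Pool.Agent.H74.SZ.Kbb

/-!
KPT: the kernel minus its main term, pointwise, with the weight `n^{-a}`, `a = aT T = 1 + 1/L`, `L = log T`. Use the STATEMENTS of `Kba.lean`, `Kbb.lean`.

Proof. `r = n/k ≥ T^{-1/2}`, `1 ≤ k ≤ T^{1/2}`, `T ≥ T₀`, and let `M = T^{9/8} k`.
 Case A: `n ≤ M`. Then `r ≤ T^{9/8}`, `|log r| ≤ 2 L`, and `T0_approx`, `T1_bd` give `‖KJ j T r - w(r) (log r)^j e(-r)‖ ≤ (2L + 1) C (1 + r/T) L/T ≤ C' T^{1/8} L² / T` (for `j = 1`: `log r · (T0 - e w) - T1`). If `n > N₀ k` then moreover `r > 10 T`, so `w(r) ≤ exp (-(60 T)² L / T²) ≤ exp (-3600 L) ≤ 1/T` and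
 `|w(r) (log r)^j| ≤ 2L/T`: the same bound for `‖KJ j T r‖` (`KM = 0`). Finally `1 ≤ n^{-a} M^a` and `M^a = M · M^{1/L} ≤ M e^{9/8 + 1/2} ≤ 8 T^{9/8} k`: total `≤ C'' T^{9/8 + 1/8 - 1} k L² n^{-a} = C'' k T^{1/4} L² n^{-a}`.
 Case B: `n > M`; `T₀ ≥ 11^8` so `M ≥ 11 T k ≥ N₀ k` and `KM = 0`. `‖KJ j T r‖ ≤ (|log r| + 1) C T^41 / r^40 ≤ 2 C T^41 / r^39` (`1 ≤ r`, `log r ≤ r - 1`), and `r^{-39} = k^39 n^{-39} ≤ k^39 n^{-a} M^{a-39}` (`a ≤ 39`), `M^{a - 39} ≤ 8 M^{-38}` (as above), `M^{-38} = T^{-42.75} k^{-38}`: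
 total `≤ 16 C T^{41 - 42.75} k n^{-a} ≤ 16 C k n^{-a}`.
-/

open Finset

namespace H74SZ

private lemma SZKKpt_ee (x : ℝ) : ‖H69LB.ee x‖ = 1 := by
  have h : H69LB.ee x = Complex.exp (((2 * Real.pi * x : ℝ) : ℂ) * Complex.I) := by
    rw [H69LB.ee]
    push_cast
    rfl
  rw [h, Complex.norm_exp_ofReal_mul_I]

private lemma SZKKpt_wt {T r : ℝ} (hT : 3 ≤ T) (hr : 10 * T < r) : H82SZ.wt T r ≤ 1 / T := by
  have hT0 : 0 < T := by linarith
  have hL : 0 < Real.log T := Real.log_pos (by linarith)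
  have hpi := Real.pi_gt_three
  have h1 : T ^ 2 ≤ (T - 2 * Real.pi * r) ^ 2 := by
    have hb : 2 * T ≤ 2 * Real.pi * r := by nlinarith
    nlinarith
  have h2 : Real.log T ≤ (T - 2 * Real.pi * r) ^ 2 * Real.log T / T ^ 2 := by
    rw [le_div_iff₀ (by positivity)]
    nlinarith
  rw [H82SZ.wt, one_div, ← Real.exp_log (inv_pos.mpr hT0), Real.log_inv]
  exact Real.exp_le_exp.mpr (neg_le_neg h2)

private lemma SZKKpt_M {t L k : ℝ} (ht : 1 ≤ t) (hL : L = 8 * Real.log t) (hL0 : 1 ≤ L) (hk : 1 ≤ k) (hk2 : k ≤ t ^ 4) :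
    (t ^ 9 * k) ^ (1 / L) ≤ 8 := by
  have hM : 0 < t ^ 9 * k := by positivity
  have h1 : Real.log (t ^ 9 * k) ≤ 2 * L := by
    rw [Real.log_mul (by positivity) (by positivity), Real.log_pow]
    have h2 : Real.log k ≤ 4 * Real.log t := by
      calc Real.log k ≤ Real.log (t ^ 4) := Real.log_le_log (by linarith) hk2
        _ = 4 * Real.log t := by rw [Real.log_pow]; norm_num
    have h3 : 0 ≤ Real.log t := Real.log_nonneg ht
    push_cast
    linarith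
  rw [Real.rpow_def_of_pos hM]
  have h4 : Real.log (t ^ 9 * k) * (1 / L) ≤ 2 := by
    rw [mul_one_div, div_le_iff₀ (by linarith)]
    exact h1
  have h5 : Real.exp 2 ≤ 8 := by
    have h6 := Real.exp_one_lt_d9
    have h7 : Real.exp 2 = Real.exp 1 * Real.exp 1 := by
      rw [← Real.exp_add]
      norm_num
    rw [h7]
    have h8 := Real.exp_pos 1
    nlinarith
  exact (Real.exp_le_exp.mpr h4).trans h5

private lemma SZKKpt_A {t L k n : ℝ} (ht : 1 ≤ t) (hL : L = 8 * Real.log t) (hL0 : 1 ≤ L) (hk : 1 ≤ k) (hk2 : k ≤ t ^ 4)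
    (hn : 1 ≤ n) (hnM : n ≤ t ^ 9 * k) : 1 ≤ 8 * (t ^ 9 * k) * n ^ (-(1 + 1 / L)) := by
  have hM : 0 < t ^ 9 * k := by positivity
  have h1 : (t ^ 9 * k) ^ (-(1 + 1 / L)) ≤ n ^ (-(1 + 1 / L)) :=
    Real.rpow_le_rpow_of_nonpos (by linarith) hnM (by
      have : 0 < 1 / L := by positivity
      linarith)
  have h2 : (t ^ 9 * k) * (t ^ 9 * k) ^ (1 / L) * (t ^ 9 * k) ^ (-(1 + 1 / L)) = 1 := by
    rw [Real.rpow_neg hM.le, Real.rpow_add hM, Real.rpow_one]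
    have h3 : 0 < (t ^ 9 * k) ^ (1 / L) := Real.rpow_pos_of_pos hM _
    field_simp
  have h4 := SZKKpt_M ht hL hL0 hk hk2
  have h5 : 0 < (t ^ 9 * k) ^ (-(1 + 1 / L)) := Real.rpow_pos_of_pos hM _
  calc (1 : ℝ) = (t ^ 9 * k) * (t ^ 9 * k) ^ (1 / L) * (t ^ 9 * k) ^ (-(1 + 1 / L)) := h2.symm
    _ ≤ (t ^ 9 * k) * 8 * (t ^ 9 * k) ^ (-(1 + 1 / L)) := by gcongr
    _ ≤ (t ^ 9 * k) * 8 * n ^ (-(1 + 1 / L)) := by gcongr
    _ = 8 * (t ^ 9 * k) * n ^ (-(1 + 1 / L)) := by ring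

private lemma SZKKpt_B {t L k n : ℝ} (ht : 1 ≤ t) (hL : L = 8 * Real.log t) (hL0 : 1 ≤ L) (hk : 1 ≤ k) (hk2 : k ≤ t ^ 4)
    (hnM : t ^ 9 * k < n) : (t ^ 8) ^ 41 / (n / k) ^ 39 ≤ 8 * k * n ^ (-(1 + 1 / L)) := by
  have hM : 0 < t ^ 9 * k := by positivity
  have hn : 0 < n := hM.trans hnM
  have h4 := SZKKpt_M ht hL hL0 hk hk2
  have hL1 : 1 / L ≤ 1 := by
    rw [div_le_one (by linarith)]
    exact hL0
  have h1 : n ^ (1 / L - 38) ≤ (t ^ 9 * k) ^ (1 / L - 38) :=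
    Real.rpow_le_rpow_of_nonpos hM hnM.le (by linarith)
  have h2 : (t ^ 9 * k) ^ (1 / L - 38) ≤ 8 / (t ^ 9 * k) ^ 38 := by
    rw [Real.rpow_sub hM]
    have h5 : (t ^ 9 * k) ^ (38 : ℝ) = (t ^ 9 * k) ^ 38 := by
      rw [← Real.rpow_natCast]
      norm_num
    rw [h5]
    gcongr
  have h3 : 1 / n ^ 39 = n ^ (-(1 + 1 / L)) * n ^ (1 / L - 38) := by
    rw [← Real.rpow_add hn]
    have h6 : -(1 + 1 / L) + (1 / L - 38) = -((39 : ℕ) : ℝ) := by
      push_cast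
      ring
    rw [h6, Real.rpow_neg hn.le, Real.rpow_natCast, one_div]
  have h7 : 0 < n ^ (-(1 + 1 / L)) := Real.rpow_pos_of_pos hn _
  have h8 : 1 / n ^ 39 ≤ n ^ (-(1 + 1 / L)) * (8 / (t ^ 9 * k) ^ 38) := by
    rw [h3]
    gcongr
    exact h1.trans h2
  have h9 : (t ^ 8) ^ 41 / (n / k) ^ 39 = t ^ 328 * k ^ 39 * (1 / n ^ 39) := by
    rw [div_pow]
    field_simp
  rw [h9]
  calc t ^ 328 * k ^ 39 * (1 / n ^ 39) ≤ t ^ 328 * k ^ 39 * (n ^ (-(1 + 1 / L)) * (8 / (t ^ 9 * k) ^ 38)) := by gcongr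
    _ = 8 * k * n ^ (-(1 + 1 / L)) * (1 / t ^ 14) := by
        field_simp
    _ ≤ 8 * k * n ^ (-(1 + 1 / L)) * 1 := by
        gcongr
        rw [div_le_one (by positivity)]
        exact one_le_pow₀ ht
    _ = 8 * k * n ^ (-(1 + 1 / L)) := mul_one _

/-- the main estimate of case A -/
private lemma SZKKpt_caseA {C C' T t r : ℝ} (hC : 0 ≤ C) (hC' : 0 ≤ C') (ht : 1 ≤ t) (hT : T = t ^ 8)
    (hL0 : 1 ≤ Real.log T) (hr0 : 0 < r) (hr1 : r ≤ t ^ 9) (hr2 : 1 / t ^ 4 ≤ r)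
    (h0 : ‖T0 T r - H69LB.ee (-r) * (H82SZ.wt T r : ℂ)‖ ≤ C * (1 + r / T) * (Real.log T / T))
    (h1 : ‖T1 T r‖ ≤ C' * (Real.log T / T)) (j : ℕ) (hj : j ≤ 1) :
    |Real.log r| ≤ 2 * Real.log T ∧
    ‖KJ j T r - ((H82SZ.wt T r * Real.log r ^ j : ℝ) : ℂ) * H69LB.ee (-r)‖ ≤ (4 * C + C') * (t * Real.log T ^ 2 / T) := by
  have ht0 : 0 < t := by linarith
  have hT0 : 0 < T := by rw [hT]; positivity
  have hLt : Real.log T = 8 * Real.log t := by
    rw [hT, Real.log_pow]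
    norm_num
  have hlt : 0 ≤ Real.log t := Real.log_nonneg ht
  have hlog : |Real.log r| ≤ 2 * Real.log T := by
    rw [abs_le]
    constructor
    · have h2 : Real.log (1 / t ^ 4) ≤ Real.log r := Real.log_le_log (by positivity) hr2
      rw [one_div, Real.log_inv, Real.log_pow] at h2
      push_cast at h2
      linarith
    · have h2 : Real.log r ≤ Real.log (t ^ 9) := Real.log_le_log hr0 hr1
      rw [Real.log_pow] at h2
      push_cast at h2
      linarith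
  refine ⟨hlog, ?_⟩
  have hrT : r / T ≤ t := by
    rw [div_le_iff₀ hT0, hT]
    calc r ≤ t ^ 9 := hr1
      _ = t * t ^ 8 := by ring
  have hLT : 0 ≤ Real.log T / T := by positivity
  have h0' : ‖T0 T r - H69LB.ee (-r) * (H82SZ.wt T r : ℂ)‖ ≤ 2 * C * (t * Real.log T / T) := by
    calc ‖T0 T r - H69LB.ee (-r) * (H82SZ.wt T r : ℂ)‖ ≤ C * (1 + r / T) * (Real.log T / T) := h0
      _ ≤ C * (2 * t) * (Real.log T / T) := by
          gcongr
          linarith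
      _ = 2 * C * (t * Real.log T / T) := by ring
  have hq : t * Real.log T / T ≤ t * Real.log T ^ 2 / T := by
    gcongr
    nlinarith
  have hq2 : Real.log T / T ≤ t * Real.log T ^ 2 / T := by
    gcongr
    nlinarith
  have hq0 : 0 ≤ t * Real.log T ^ 2 / T := by positivity
  interval_cases j
  · have e0 : KJ 0 T r - ((H82SZ.wt T r * Real.log r ^ 0 : ℝ) : ℂ) * H69LB.ee (-r) =
        T0 T r - H69LB.ee (-r) * (H82SZ.wt T r : ℂ) := by
      rw [KJ, if_pos rfl, pow_zero, mul_one]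
      ring
    rw [e0]
    calc ‖T0 T r - H69LB.ee (-r) * (H82SZ.wt T r : ℂ)‖ ≤ 2 * C * (t * Real.log T / T) := h0'
      _ ≤ 2 * C * (t * Real.log T ^ 2 / T) := by gcongr
      _ ≤ (4 * C + C') * (t * Real.log T ^ 2 / T) := by
          gcongr
          linarith
  · have e1 : KJ 1 T r - ((H82SZ.wt T r * Real.log r ^ 1 : ℝ) : ℂ) * H69LB.ee (-r) =
        (Real.log r : ℂ) * (T0 T r - H69LB.ee (-r) * (H82SZ.wt T r : ℂ)) - T1 T r := by
      rw [KJ, if_neg one_ne_zero, pow_one]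
      push_cast
      ring
    rw [e1]
    calc ‖(Real.log r : ℂ) * (T0 T r - H69LB.ee (-r) * (H82SZ.wt T r : ℂ)) - T1 T r‖
        ≤ ‖(Real.log r : ℂ) * (T0 T r - H69LB.ee (-r) * (H82SZ.wt T r : ℂ))‖ + ‖T1 T r‖ := norm_sub_le _ _
      _ = |Real.log r| * ‖T0 T r - H69LB.ee (-r) * (H82SZ.wt T r : ℂ)‖ + ‖T1 T r‖ := by
          rw [norm_mul, Complex.norm_real, Real.norm_eq_abs]
      _ ≤ 2 * Real.log T * (2 * C * (t * Real.log T / T)) + C' * (Real.log T / T) := by gcongr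
      _ = 4 * C * (t * Real.log T ^ 2 / T) + C' * (Real.log T / T) := by ring
      _ ≤ 4 * C * (t * Real.log T ^ 2 / T) + C' * (t * Real.log T ^ 2 / T) := by gcongr
      _ = (4 * C + C') * (t * Real.log T ^ 2 / T) := by ring

/-- the main estimate of case B -/
private lemma SZKKpt_caseB {C T r : ℝ} (hC : 0 ≤ C) (hT : 0 < T) (hr : 1 ≤ r)
    (h0 : ‖T0 T r‖ ≤ C * T ^ 41 / r ^ 40) (h1 : ‖T1 T r‖ ≤ C * T ^ 41 / r ^ 40) (j : ℕ) (hj : j ≤ 1) :
    ‖KJ j T r‖ ≤ 2 * C * (T ^ 41 / r ^ 39) := by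
  have hr0 : 0 < r := by linarith
  have hlog : 0 ≤ Real.log r := Real.log_nonneg hr
  have hlog1 : Real.log r ≤ r := by
    have := Real.log_le_sub_one_of_pos hr0
    linarith
  have e : r * (C * T ^ 41 / r ^ 40) = C * (T ^ 41 / r ^ 39) := by
    field_simp
  have hpos : 0 ≤ C * T ^ 41 / r ^ 40 := by positivity
  have hb : C * T ^ 41 / r ^ 40 ≤ C * (T ^ 41 / r ^ 39) := by
    rw [← e]
    nlinarith
  have hpos2 : 0 ≤ C * (T ^ 41 / r ^ 39) := by positivity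
  interval_cases j
  · rw [KJ, if_pos rfl]
    linarith
  · rw [KJ, if_neg one_ne_zero]
    calc ‖(Real.log r : ℂ) * T0 T r - T1 T r‖ ≤ ‖(Real.log r : ℂ) * T0 T r‖ + ‖T1 T r‖ := norm_sub_le _ _
      _ = Real.log r * ‖T0 T r‖ + ‖T1 T r‖ := by
          rw [norm_mul, Complex.norm_real, Real.norm_eq_abs, abs_of_nonneg hlog]
      _ ≤ r * (C * T ^ 41 / r ^ 40) + C * T ^ 41 / r ^ 40 := by gcongr
      _ ≤ C * (T ^ 41 / r ^ 39) + C * (T ^ 41 / r ^ 39) := by rw [e]; gcongr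
      _ = 2 * C * (T ^ 41 / r ^ 39) := by ring

theorem kpt (j : ℕ) (hj : j ≤ 1) : ∃ C T₀ : ℝ, 0 ≤ C ∧ 3 ≤ T₀ ∧ ∀ T, T₀ ≤ T → ∀ k n : ℕ, 1 ≤ k → 1 ≤ n →
    (k : ℝ) ≤ T ^ (1 / 2 : ℝ) →
    ‖KJ j T (n / k) - KM j T k n‖ ≤ C * (k * T ^ (1 / 4 : ℝ) * Real.log T ^ 2) * (n : ℝ) ^ (-H82SZ.aT T) := by
  obtain ⟨C1, T1', hT1, H1⟩ := T0_approx
  obtain ⟨C2, T2', hT2, H2⟩ := T1_bd
  obtain ⟨C3, T3', hT3, H3⟩ := T0_tail
  obtain ⟨C4, T4', hT4, H4⟩ := T1_tail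
  set D1 : ℝ := max C1 0 with hD1
  set D2 : ℝ := max C2 0 with hD2
  set D3 : ℝ := max (max C3 C4) 0 with hD3
  have hD10 : 0 ≤ D1 := le_max_right _ _
  have hD20 : 0 ≤ D2 := le_max_right _ _
  have hD30 : 0 ≤ D3 := le_max_right _ _
  refine ⟨8 * (4 * D1 + D2 + 2) + 16 * D3, max (max T1' T2') (max (max T3' T4') (11 ^ 8)), by positivity,
    hT1.trans ((le_max_left _ _).trans (le_max_left _ _)), ?_⟩
  intro T hT k n hk hn hkT
  have hTa : T1' ≤ T := ((le_max_left _ _).trans (le_max_left _ _)).trans hT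
  have hTb : T2' ≤ T := ((le_max_right _ _).trans (le_max_left _ _)).trans hT
  have hTc : T3' ≤ T := ((le_max_left _ _).trans ((le_max_left _ _).trans (le_max_right _ _))).trans hT
  have hTd : T4' ≤ T := ((le_max_right _ _).trans ((le_max_left _ _).trans (le_max_right _ _))).trans hT
  have hTe : (11 : ℝ) ^ 8 ≤ T := ((le_max_right _ _).trans (le_max_right _ _)).trans hT
  have hT3 : 3 ≤ T := by linarith
  have hT0 : 0 < T := by linarith
  have hL0 : 1 ≤ Real.log T := by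
    rw [Real.le_log_iff_exp_le hT0]
    have := Real.exp_one_lt_d9
    linarith
  obtain ⟨t, ht⟩ : ∃ t : ℝ, t = T ^ (1 / 8 : ℝ) := ⟨_, rfl⟩
  have ht0 : 0 < t := by rw [ht]; exact Real.rpow_pos_of_pos hT0 _
  have htT : T = t ^ 8 := by
    rw [ht, ← Real.rpow_natCast, ← Real.rpow_mul hT0.le]
    norm_num
  have ht11 : 11 ≤ t := by
    by_contra hcon
    push Not at hcon
    have : t ^ 8 < 11 ^ 8 := pow_lt_pow_left₀ hcon ht0.le (by norm_num)
    rw [← htT] at this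
    linarith
  have ht1 : 1 ≤ t := by linarith
  have hLt : Real.log T = 8 * Real.log t := by
    rw [htT, Real.log_pow]
    norm_num
  have ht4 : T ^ (1 / 4 : ℝ) = t ^ 2 := by
    rw [htT, ← Real.rpow_natCast t 8, ← Real.rpow_mul ht0.le, ← Real.rpow_natCast t 2]
    norm_num
  have ht2 : T ^ (1 / 2 : ℝ) = t ^ 4 := by
    rw [htT, ← Real.rpow_natCast t 8, ← Real.rpow_mul ht0.le, ← Real.rpow_natCast t 4]
    norm_num
  have hk1 : (1 : ℝ) ≤ k := by exact_mod_cast hk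
  have hn1 : (1 : ℝ) ≤ n := by exact_mod_cast hn
  rw [ht2] at hkT
  have hk0 : (0 : ℝ) < k := by linarith
  have hn0 : (0 : ℝ) < n := by linarith
  have hr0 : (0 : ℝ) < n / k := by positivity
  rw [ht4, H82SZ.aT]
  obtain ⟨X, hX⟩ : ∃ X : ℝ, X = (n : ℝ) ^ (-(1 + 1 / Real.log T)) := ⟨_, rfl⟩
  have hX0 : 0 < X := by rw [hX]; exact Real.rpow_pos_of_pos hn0 _
  rw [← hX]
  rcases le_or_gt (n : ℝ) (t ^ 9 * k) with hnM | hnM
  · -- case A
    have hA : 1 ≤ 8 * (t ^ 9 * k) * X := by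
      rw [hX]
      exact SZKKpt_A ht1 hLt hL0 hk1 hkT hn1 hnM
    have hr1 : (n : ℝ) / k ≤ t ^ 9 := by
      rw [div_le_iff₀ hk0]
      exact hnM
    have hr2 : 1 / t ^ 4 ≤ (n : ℝ) / k := by
      rw [div_le_div_iff₀ (by positivity) hk0]
      nlinarith
    have h0 : ‖T0 T (n / k) - H69LB.ee (-((n : ℝ) / k)) * (H82SZ.wt T (n / k) : ℂ)‖ ≤ D1 * (1 + (n : ℝ) / k / T) * (Real.log T / T) := by
      refine (H1 T hTa (n / k) hr0).trans ?_
      have : C1 ≤ D1 := le_max_left _ _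
      gcongr
    have h1 : ‖T1 T (n / k)‖ ≤ D2 * (Real.log T / T) := by
      refine (H2 T hTb (n / k) hr0).trans ?_
      have : C2 ≤ D2 := le_max_left _ _
      gcongr
    obtain ⟨hlog, hmain⟩ := SZKKpt_caseA hD10 hD20 ht1 htT hL0 hr0 hr1 hr2 h0 h1 j hj
    have hq0 : 0 ≤ t * Real.log T ^ 2 / T := by positivity
    have hbd : ‖KJ j T (n / k) - KM j T k n‖ ≤ (4 * D1 + D2 + 2) * (t * Real.log T ^ 2 / T) := by
      by_cases hN : n ≤ H82SZ.N0 T * k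
      · rw [KM, if_pos hN]
        refine hmain.trans (mul_le_mul_of_nonneg_right ?_ hq0)
        linarith
      · rw [KM, if_neg hN, sub_zero]
        have hr10 : 10 * T < (n : ℝ) / k := by
          rw [lt_div_iff₀ hk0]
          push Not at hN
          have h3 : ((H82SZ.N0 T * k : ℕ) : ℝ) < n := by exact_mod_cast hN
          push_cast at h3
          have h4 : 10 * T ≤ (H82SZ.N0 T : ℝ) := Nat.le_ceil _
          nlinarith
        have hw := SZKKpt_wt hT3 hr10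
        have hw0 : 0 ≤ H82SZ.wt T (n / k) := (Real.exp_pos _).le
        have h5 : ‖((H82SZ.wt T (n / k) * Real.log (n / k) ^ j : ℝ) : ℂ) * H69LB.ee (-((n : ℝ) / k))‖ ≤ 2 * (t * Real.log T ^ 2 / T) := by
          rw [norm_mul, SZKKpt_ee, mul_one, Complex.norm_real, Real.norm_eq_abs, abs_mul, abs_of_nonneg hw0, abs_pow]
          have h6 : |Real.log ((n : ℝ) / k)| ^ j ≤ 2 * Real.log T := by
            interval_cases j
            · rw [pow_zero]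
              linarith
            · rw [pow_one]
              exact hlog
          calc H82SZ.wt T (n / k) * |Real.log ((n : ℝ) / k)| ^ j ≤ 1 / T * (2 * Real.log T) := by gcongr
            _ = 2 * (1 * Real.log T / T) := by ring
            _ ≤ 2 * (t * Real.log T ^ 2 / T) := by
                gcongr
                nlinarith
        calc ‖KJ j T (n / k)‖ = ‖(KJ j T (n / k) - ((H82SZ.wt T (n / k) * Real.log (n / k) ^ j : ℝ) : ℂ) * H69LB.ee (-((n : ℝ) / k))) +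
              ((H82SZ.wt T (n / k) * Real.log (n / k) ^ j : ℝ) : ℂ) * H69LB.ee (-((n : ℝ) / k))‖ := by
              rw [sub_add_cancel]
          _ ≤ (4 * D1 + D2) * (t * Real.log T ^ 2 / T) + 2 * (t * Real.log T ^ 2 / T) := (norm_add_le _ _).trans (add_le_add hmain h5)
          _ = (4 * D1 + D2 + 2) * (t * Real.log T ^ 2 / T) := by ring
    calc ‖KJ j T (n / k) - KM j T k n‖ ≤ (4 * D1 + D2 + 2) * (t * Real.log T ^ 2 / T) * 1 := by rw [mul_one]; exact hbd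
      _ ≤ (4 * D1 + D2 + 2) * (t * Real.log T ^ 2 / T) * (8 * (t ^ 9 * k) * X) := by gcongr
      _ = 8 * (4 * D1 + D2 + 2) * (k * (t ^ 10 / T) * Real.log T ^ 2) * X := by ring
      _ = 8 * (4 * D1 + D2 + 2) * (k * t ^ 2 * Real.log T ^ 2) * X := by
          have : t ^ 10 / T = t ^ 2 := by
            rw [htT]
            field_simp
          rw [this]
      _ ≤ (8 * (4 * D1 + D2 + 2) + 16 * D3) * (k * t ^ 2 * Real.log T ^ 2) * X := by
          gcongr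
          linarith
  · -- case B
    have hN : ¬ n ≤ H82SZ.N0 T * k := by
      intro hcon
      have h3 : (n : ℝ) ≤ ((H82SZ.N0 T * k : ℕ) : ℝ) := by exact_mod_cast hcon
      push_cast at h3
      have h4 : (H82SZ.N0 T : ℝ) < 10 * T + 1 := Nat.ceil_lt_add_one (by positivity)
      have h5 : (H82SZ.N0 T : ℝ) ≤ t ^ 9 := by
        calc (H82SZ.N0 T : ℝ) ≤ 10 * T + 1 := h4.le
          _ ≤ 11 * T := by linarith
          _ ≤ t * T := by gcongr
          _ = t ^ 9 := by rw [htT]; ring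
      have h6 : (H82SZ.N0 T : ℝ) * k ≤ t ^ 9 * k := by gcongr
      linarith
    rw [KM, if_neg hN, sub_zero]
    have hr : 1 ≤ (n : ℝ) / k := by
      rw [le_div_iff₀ hk0, one_mul]
      have : (1 : ℝ) * k ≤ t ^ 9 * k := by
        gcongr
        exact one_le_pow₀ ht1
      linarith
    have h0 : ‖T0 T (n / k)‖ ≤ D3 * T ^ 41 / ((n : ℝ) / k) ^ 40 := by
      refine (H3 T hTc (n / k) hr0).trans ?_
      have : C3 ≤ D3 := (le_max_left _ _).trans (le_max_left _ _)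
      gcongr
    have h1 : ‖T1 T (n / k)‖ ≤ D3 * T ^ 41 / ((n : ℝ) / k) ^ 40 := by
      refine (H4 T hTd (n / k) hr0).trans ?_
      have : C4 ≤ D3 := (le_max_right _ _).trans (le_max_left _ _)
      gcongr
    have hB := SZKKpt_B ht1 hLt hL0 hk1 hkT hnM
    rw [← htT, ← hX] at hB
    have hone : 1 ≤ t ^ 2 * Real.log T ^ 2 := by
      have ha : 1 ≤ t ^ 2 := one_le_pow₀ ht1
      have hb : 1 ≤ Real.log T ^ 2 := one_le_pow₀ hL0
      nlinarith
    calc ‖KJ j T (n / k)‖ ≤ 2 * D3 * (T ^ 41 / ((n : ℝ) / k) ^ 39) := SZKKpt_caseB hD30 hT0 hr h0 h1 j hj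
      _ ≤ 2 * D3 * (8 * k * X) := by gcongr
      _ = 16 * D3 * (k * 1) * X := by ring
      _ ≤ 16 * D3 * (k * (t ^ 2 * Real.log T ^ 2)) * X := by gcongr
      _ = 16 * D3 * (k * t ^ 2 * Real.log T ^ 2) * X := by ring
      _ ≤ (8 * (4 * D1 + D2 + 2) + 16 * D3) * (k * t ^ 2 * Real.log T ^ 2) * X := by
          gcongr
          nlinarith

end H74SZ
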