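import Mathlib
import Pool.Agent.H74.SZ.Kpt

/-!
KSM: summation of `kpt`. Use the STATEMENT of `Kpt.lean` and the bounds of `Kba.lean` only.

Proof. `∑_n ‖c(n)‖ ‖KJ - KM‖ ≤ C (k T^{1/4} L²) SS a c` by `kpt` (the term `n = 0` vanishes as `c 0 = 0`), so `n ↦ c(n) (KJ j T (n/k) - KM j T k n)` is summable; `n ↦ c(n) KM j T k n` vanishes for `n > N₀ k`, so it is summable with sum the finite sum over `Icc 1 (N₀ k)` (`tsum_eq_sum`; again `c 0 = 0`).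
 Hence `n ↦ c(n) KJ j T (n/k)` is summable, and the difference of the sums is the sum of the differences.
-/

open Finset

namespace H74SZ

private lemma SZKKsm_zero (T : ℝ) (k : ℕ) (j : ℕ) (c : ArithmeticFunction ℝ) :
    (Summable fun n : ℕ => (c n : ℂ) * KM j T k n) ∧
    ∑' n : ℕ, (c n : ℂ) * KM j T k n = ∑ n ∈ Icc 1 (H82SZ.N0 T * k),
      ((c n * (H82SZ.wt T (n / k) * Real.log (n / k) ^ j) : ℝ) : ℂ) * H69LB.ee (-((n : ℝ) / k)) := by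
  have hz : ∀ n : ℕ, n ∉ Icc 1 (H82SZ.N0 T * k) → (c n : ℂ) * KM j T k n = 0 := by
    intro n hn
    rw [mem_Icc, not_and_or, not_le, not_le] at hn
    rcases hn with h | h
    · have : n = 0 := by omega
      rw [this]
      simp
    · rw [KM, if_neg (by omega), mul_zero]
  have hs : HasSum (fun n : ℕ => (c n : ℂ) * KM j T k n)
      (∑ n ∈ Icc 1 (H82SZ.N0 T * k), (c n : ℂ) * KM j T k n) :=
    hasSum_sum_of_ne_finset_zero hz
  refine ⟨hs.summable, ?_⟩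
  rw [hs.tsum_eq]
  refine Finset.sum_congr rfl fun n hn => ?_
  rw [mem_Icc] at hn
  rw [KM, if_pos hn.2, ← mul_assoc]
  push_cast
  ring

theorem ksm (j : ℕ) (hj : j ≤ 1) : ∃ C T₀ : ℝ, 0 ≤ C ∧ 3 ≤ T₀ ∧ ∀ T, T₀ ≤ T → ∀ k : ℕ, 1 ≤ k →
    (k : ℝ) ≤ T ^ (1 / 2 : ℝ) → ∀ c : ArithmeticFunction ℝ, SC (H82SZ.aT T) c →
    (Summable fun n : ℕ => (c n : ℂ) * KJ j T (n / k)) ∧
    ‖∑' n : ℕ, (c n : ℂ) * KJ j T (n / k) - ∑ n ∈ Icc 1 (H82SZ.N0 T * k),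
      ((c n * (H82SZ.wt T (n / k) * Real.log (n / k) ^ j) : ℝ) : ℂ) * H69LB.ee (-((n : ℝ) / k))‖ ≤
      C * (k * T ^ (1 / 4 : ℝ) * Real.log T ^ 2) * SS (H82SZ.aT T) c := by
  obtain ⟨C, T₀, hC, hT₀, hk⟩ := kpt j hj
  refine ⟨C, T₀, hC, hT₀, ?_⟩
  intro T hT k hk1 hkT c hc
  obtain ⟨hs2, ht2⟩ := SZKKsm_zero T k j c
  have hB : ∀ n : ℕ, ‖(c n : ℂ) * (KJ j T (n / k) - KM j T k n)‖ ≤
      C * (k * T ^ (1 / 4 : ℝ) * Real.log T ^ 2) * (|c n| * (n : ℝ) ^ (-H82SZ.aT T)) := by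
    intro n
    rcases Nat.eq_zero_or_pos n with h0 | h0
    · subst h0
      simp
    · rw [norm_mul, Complex.norm_real, Real.norm_eq_abs]
      have h1 := mul_le_mul_of_nonneg_left (hk T hT k n hk1 h0 hkT) (abs_nonneg (c n))
      calc |c n| * ‖KJ j T (n / k) - KM j T k n‖
          ≤ |c n| * (C * (k * T ^ (1 / 4 : ℝ) * Real.log T ^ 2) * (n : ℝ) ^ (-H82SZ.aT T)) := h1
        _ = _ := by ring
  have hS : Summable fun n : ℕ => C * (k * T ^ (1 / 4 : ℝ) * Real.log T ^ 2) *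
      (|c n| * (n : ℝ) ^ (-H82SZ.aT T)) := Summable.mul_left _ hc
  have hs1n : Summable fun n : ℕ => ‖(c n : ℂ) * (KJ j T (n / k) - KM j T k n)‖ :=
    Summable.of_nonneg_of_le (fun n => norm_nonneg _) hB hS
  have hs1 : Summable fun n : ℕ => (c n : ℂ) * (KJ j T (n / k) - KM j T k n) := hs1n.of_norm
  have heq : (fun n : ℕ => (c n : ℂ) * KJ j T (n / k)) =
      fun n : ℕ => (c n : ℂ) * (KJ j T (n / k) - KM j T k n) + (c n : ℂ) * KM j T k n := by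
    funext n
    ring
  refine ⟨?_, ?_⟩
  · rw [heq]
    exact hs1.add hs2
  · rw [← ht2, heq, hs1.tsum_add hs2, add_sub_cancel_right]
    calc ‖∑' n : ℕ, (c n : ℂ) * (KJ j T (n / k) - KM j T k n)‖
        ≤ ∑' n : ℕ, ‖(c n : ℂ) * (KJ j T (n / k) - KM j T k n)‖ := norm_tsum_le_tsum_norm hs1n
      _ ≤ ∑' n : ℕ, C * (k * T ^ (1 / 4 : ℝ) * Real.log T ^ 2) *
          (|c n| * (n : ℝ) ^ (-H82SZ.aT T)) := hs1n.tsum_le_tsum hB hS
      _ = C * (k * T ^ (1 / 4 : ℝ) * Real.log T ^ 2) * SS (H82SZ.aT T) c := by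
          rw [tsum_mul_left, SS]

end H74SZ
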