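import Mathlib
import Pool.Agent.H74.SZ.Exp
import Pool.Agent.H74.SZ.Ksm
import Pool.Agent.H74.SZ.Dse
import Pool.Agent.H74.SZ.Jdi

/-!
# Block K: the final statement `KFstat`
-/

open Finset MeasureTheory
open scoped ArithmeticFunction.vonMangoldt ArithmeticFunction.Moebius ArithmeticFunction.zeta

namespace H74SZ

theorem adm_bdd {θ : ℝ} {P : ℝ → ℝ} (hP : H82SZ.Adm θ P) : ∃ B : ℝ, 0 ≤ B ∧ ∀ v, |P v| ≤ B := by
  obtain ⟨B, hB⟩ := hP.smooth.continuous.bounded_above_of_compact_support hP.cpt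
  exact ⟨max B 0, le_max_right _ _, fun v => (hB v).trans (le_max_left _ _)⟩

theorem xk_abs {θ : ℝ} {P : ℝ → ℝ} {B : ℝ} (hB : ∀ v, |P v| ≤ B) (T : ℝ) (k : ℕ) :
    |H82SZ.xk P T k| ≤ B := by
  unfold H82SZ.xk
  simp only [ArithmeticFunction.coe_mk]
  rw [abs_mul]
  have h1 : |(ArithmeticFunction.moebius k : ℝ)| ≤ 1 := by
    have := ArithmeticFunction.abs_moebius_le_one (n := k)
    exact_mod_cast this
  have h2 := hB (Real.log k / Real.log T)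
  have h3 := abs_nonneg (P (Real.log k / Real.log T))
  nlinarith

theorem xk_zero {θ : ℝ} {P : ℝ → ℝ} (hP : H82SZ.Adm θ P) {T : ℝ} (hT : 1 < T) {k : ℕ} (hk0 : 1 ≤ k)
    (hk : T ^ θ ≤ k) : H82SZ.xk P T k = 0 := by
  unfold H82SZ.xk
  simp only [ArithmeticFunction.coe_mk]
  have hL := Real.log_pos hT
  have h1 : θ ≤ Real.log k / Real.log T := by
    rw [le_div_iff₀ hL]
    have := Real.log_le_log (Real.rpow_pos_of_pos (by linarith) θ) hk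
    rwa [Real.log_rpow (by linarith)] at this
  rw [hP.zero _ h1, mul_zero]

/-- sums over `k` of the kernel sums -/
theorem dj_approx (j : ℕ) (hj : j ≤ 1) {ε : ℝ} (hε : 0 < ε) {P : ℝ → ℝ} (hP : H82SZ.Adm (1 / 2 - ε) P) :
    ∃ C T₀ : ℝ, 0 ≤ C ∧ 3 ≤ T₀ ∧ ∀ T, T₀ ≤ T → ∀ c : ArithmeticFunction ℝ, SC (H82SZ.aT T) c →
    ‖∑ k ∈ Icc 1 (H82SZ.NT T), ((H82SZ.xk P T k / k : ℝ) : ℂ) * (∑' n : ℕ, (c n : ℂ) * KJ j T (n / k)) -
      H82SZ.Dj P T j c‖ ≤ C * (T ^ (3 / 4 - ε) * Real.log T ^ 2) * SS (H82SZ.aT T) c := by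
  obtain ⟨C, T₀, hC, hT₀, h⟩ := ksm j hj
  obtain ⟨B, hB0, hB⟩ := adm_bdd hP
  refine ⟨B * C, T₀, by positivity, hT₀, fun T hT c hc => ?_⟩
  have hT1 : 1 < T := by linarith
  have hTp : 0 < T := by linarith
  have hL := Real.log_pos hT1
  have hSS : 0 ≤ SS (H82SZ.aT T) c := SS_nonneg
  set R : ℝ := T ^ (1 / 2 - ε) with hR
  have hRhalf : R ≤ T ^ (1 / 2 : ℝ) := Real.rpow_le_rpow_of_exponent_le hT1.le (by linarith)
  have hRpos : 0 < R := Real.rpow_pos_of_pos hTp _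
  unfold H82SZ.Dj
  rw [← Finset.sum_sub_distrib]
  refine (norm_sum_le _ _).trans ?_
  have hterm : ∀ k ∈ Icc 1 (H82SZ.NT T), ‖((H82SZ.xk P T k / k : ℝ) : ℂ) * (∑' n : ℕ, (c n : ℂ) * KJ j T (n / k)) -
      ((H82SZ.xk P T k / k : ℝ) : ℂ) * ∑ n ∈ Icc 1 (H82SZ.N0 T * k),
        ((c n * (H82SZ.wt T (n / k) * Real.log (n / k) ^ j) : ℝ) : ℂ) * H69LB.ee (-((n : ℝ) / k))‖ ≤
      if (k : ℝ) < R then B * (C * (T ^ (1 / 4 : ℝ) * Real.log T ^ 2) * SS (H82SZ.aT T) c) else 0 := by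
    intro k hk
    have hk1 : 1 ≤ k := (Finset.mem_Icc.1 hk).1
    have hkp : (0 : ℝ) < k := by exact_mod_cast hk1
    split_ifs with hkR
    · have h1 := (h T hT k hk1 (hkR.le.trans hRhalf) c hc).2
      rw [← mul_sub, norm_mul, Complex.norm_real, Real.norm_eq_abs, abs_div, abs_of_pos hkp]
      have h2 : |H82SZ.xk P T k| / k ≤ B / k := by
        have := xk_abs (θ := 0) hB T k
        gcongr
      calc |H82SZ.xk P T k| / k * _ ≤ B / k * (C * (k * T ^ (1 / 4 : ℝ) * Real.log T ^ 2) * SS (H82SZ.aT T) c) := by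
            gcongr
        _ = B * (C * (T ^ (1 / 4 : ℝ) * Real.log T ^ 2) * SS (H82SZ.aT T) c) := by
            field_simp
    · have h0 : H82SZ.xk P T k = 0 := xk_zero hP hT1 hk1 (not_lt.1 hkR)
      rw [h0]
      simp
  refine (Finset.sum_le_sum hterm).trans ?_
  rw [← Finset.sum_filter, Finset.sum_const, nsmul_eq_mul]
  have hcard : (((Icc 1 (H82SZ.NT T)).filter fun k : ℕ => (k : ℝ) < R).card : ℝ) ≤ R := by
    have h1 : ((Icc 1 (H82SZ.NT T)).filter fun k : ℕ => (k : ℝ) < R) ⊆ Icc 1 ⌊R⌋₊ := by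
      intro k hk
      rw [Finset.mem_filter, Finset.mem_Icc] at hk
      rw [Finset.mem_Icc]
      exact ⟨hk.1.1, Nat.le_floor hk.2.le⟩
    have h2 := Finset.card_le_card h1
    rw [Nat.card_Icc, Nat.add_sub_cancel] at h2
    calc (((Icc 1 (H82SZ.NT T)).filter fun k : ℕ => (k : ℝ) < R).card : ℝ) ≤ (⌊R⌋₊ : ℝ) := by exact_mod_cast h2
      _ ≤ R := Nat.floor_le hRpos.le
  have hRT : R * T ^ (1 / 4 : ℝ) = T ^ (3 / 4 - ε) := by
    rw [hR, ← Real.rpow_add hTp]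
    congr 1
    ring
  calc _ ≤ R * (B * (C * (T ^ (1 / 4 : ℝ) * Real.log T ^ 2) * SS (H82SZ.aT T) c)) := by
        gcongr
    _ = B * C * (R * T ^ (1 / 4 : ℝ) * Real.log T ^ 2) * SS (H82SZ.aT T) c := by ring
    _ = _ := by rw [hRT]

theorem y0_abs {α : ℝ → ℝ} {B c0 : ℝ} (hB0 : 0 ≤ B) (hB : ∀ v, |α v| ≤ B) {T : ℝ} (hT : 1 < T) {m : ℕ}
    (hm : 1 ≤ m) (hmT : (m : ℝ) ≤ T) : |H82SZ.y0 c0 α T m| ≤ |c0| + B := by
  have hL := Real.log_pos hT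
  have h1 : |H82SZ.yk α T m| ≤ B := by
    unfold H82SZ.yk
    simp only [ArithmeticFunction.coe_mk]
    rw [abs_div, abs_mul, abs_of_pos hL, div_le_iff₀ hL, abs_of_nonneg ArithmeticFunction.vonMangoldt_nonneg]
    have h2 : ArithmeticFunction.vonMangoldt m ≤ Real.log T := by
      refine ArithmeticFunction.vonMangoldt_le_log.trans ?_
      exact Real.log_le_log (by exact_mod_cast hm) hmT
    have h3 := hB (Real.log m / Real.log T)
    have h4 := abs_nonneg (α (Real.log m / Real.log T))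
    have h5 : 0 ≤ ArithmeticFunction.vonMangoldt m := ArithmeticFunction.vonMangoldt_nonneg
    nlinarith
  have h2 : |(c0 • (1 : ArithmeticFunction ℝ)) m| ≤ |c0| := by
    have e : (c0 • (1 : ArithmeticFunction ℝ)) m = c0 * (1 : ArithmeticFunction ℝ) m := rfl
    rw [e, abs_mul]
    have : |(1 : ArithmeticFunction ℝ) m| ≤ 1 := by
      rw [ArithmeticFunction.one_apply]
      split_ifs <;> simp
    have := abs_nonneg c0
    nlinarith
  have h3 : H82SZ.y0 c0 α T m = (c0 • (1 : ArithmeticFunction ℝ)) m + H82SZ.yk α T m := rfl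
  rw [h3]
  exact (abs_add_le _ _).trans (add_le_add h2 h1)

theorem y0_zero {α : ℝ → ℝ} {c0 θ : ℝ} (hθ : 0 < θ) (hα : H82SZ.Adm θ α) {T : ℝ} (hT : 1 < T) {m : ℕ}
    (hm : 1 ≤ m) (hmT : T ^ θ ≤ m) : H82SZ.y0 c0 α T m = 0 := by
  have hL := Real.log_pos hT
  have h1 : θ ≤ Real.log m / Real.log T := by
    rw [le_div_iff₀ hL]
    have := Real.log_le_log (Real.rpow_pos_of_pos (by linarith) θ) hmT
    rwa [Real.log_rpow (by linarith)] at this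
  have h2 : (1 : ℝ) < m := lt_of_lt_of_le (Real.one_lt_rpow hT hθ) hmT
  have h3 : m ≠ 1 := by
    intro h
    rw [h] at h2
    simp at h2
  have h4 : H82SZ.y0 c0 α T m = (c0 • (1 : ArithmeticFunction ℝ)) m + H82SZ.yk α T m := rfl
  have h5 : (c0 • (1 : ArithmeticFunction ℝ)) m = c0 * (1 : ArithmeticFunction ℝ) m := rfl
  rw [h4, h5, ArithmeticFunction.one_apply, if_neg h3]
  unfold H82SZ.yk
  simp only [ArithmeticFunction.coe_mk]
  rw [hα.zero _ h1]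
  ring

/-- the diagonal sums -/
theorem diag_approx {ε : ℝ} (hε : 0 < ε) (hε1 : ε < 1) (c0 : ℝ) {α : ℝ → ℝ} (hα : H82SZ.Adm (1 - ε) α) :
    ∃ C T₀ : ℝ, 0 ≤ C ∧ 3 ≤ T₀ ∧ ∀ T, T₀ ≤ T → ∀ c : ArithmeticFunction ℝ, SC (H82SZ.aT T) c →
    ‖∑ m ∈ Icc 1 (H82SZ.NT T), ((H82SZ.y0 c0 α T m / m : ℝ) : ℂ) * (∑' n : ℕ, (c n : ℂ) * JJ T (n / m)) -
      ((H82SZ.om T * H82SZ.diag T c (H82SZ.y0 c0 α T) : ℝ) : ℂ)‖ ≤ C * SS (H82SZ.aT T) c := by
  obtain ⟨T₀, hT₀, h⟩ := jsm hε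
  obtain ⟨B, hB0, hB⟩ := adm_bdd hα
  refine ⟨|c0| + B, T₀, by positivity, hT₀, fun T hT c hc => ?_⟩
  have hT1 : 1 < T := by linarith
  have hTp : 0 < T := by linarith
  have hSS : 0 ≤ SS (H82SZ.aT T) c := SS_nonneg
  have e1 : ((H82SZ.om T * H82SZ.diag T c (H82SZ.y0 c0 α T) : ℝ) : ℂ) =
      ∑ m ∈ Icc 1 (H82SZ.NT T), ((H82SZ.y0 c0 α T m / m : ℝ) : ℂ) * ((H82SZ.om T * c m : ℝ) : ℂ) := by
    unfold H82SZ.diag
    rw [Finset.mul_sum, Complex.ofReal_sum]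
    refine Finset.sum_congr rfl fun m _ => ?_
    push_cast
    ring
  rw [e1, ← Finset.sum_sub_distrib]
  refine (norm_sum_le _ _).trans ?_
  have hterm : ∀ m ∈ Icc 1 (H82SZ.NT T), ‖((H82SZ.y0 c0 α T m / m : ℝ) : ℂ) * (∑' n : ℕ, (c n : ℂ) * JJ T (n / m)) -
      ((H82SZ.y0 c0 α T m / m : ℝ) : ℂ) * ((H82SZ.om T * c m : ℝ) : ℂ)‖ ≤
      (|c0| + B) * (T ^ (-3 : ℝ) * SS (H82SZ.aT T) c) := by
    intro m hm
    have hm1 : 1 ≤ m := (Finset.mem_Icc.1 hm).1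
    have hmp : (0 : ℝ) < m := by exact_mod_cast hm1
    have hmT : (m : ℝ) ≤ T := by
      have := (Finset.mem_Icc.1 hm).2
      unfold H82SZ.NT at this
      exact (Nat.le_floor_iff hTp.le).1 this
    have hT3 : 0 ≤ T ^ (-3 : ℝ) := (Real.rpow_pos_of_pos hTp _).le
    by_cases hmR : (m : ℝ) ≤ T ^ (1 - ε)
    · have h1 := (h T hT m hm1 hmR c hc).2
      rw [← mul_sub, norm_mul, Complex.norm_real, Real.norm_eq_abs, abs_div, abs_of_pos hmp]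
      have h2 : |H82SZ.y0 c0 α T m| / m ≤ |c0| + B := by
        have h3 := y0_abs (c0 := c0) hB0 hB hT1 hm1 hmT
        have h4 : (1 : ℝ) ≤ m := by exact_mod_cast hm1
        exact (div_le_self (abs_nonneg _) h4).trans h3
      exact mul_le_mul h2 h1 (norm_nonneg _) (by positivity)
    · have h0 : H82SZ.y0 c0 α T m = 0 := y0_zero (by linarith) hα hT1 hm1 (not_le.1 hmR).le
      rw [h0]
      simp only [zero_div, Complex.ofReal_zero, zero_mul, sub_zero, norm_zero]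
      positivity
  refine (Finset.sum_le_sum hterm).trans ?_
  rw [Finset.sum_const, nsmul_eq_mul, Nat.card_Icc, Nat.add_sub_cancel]
  have h1 : ((H82SZ.NT T : ℕ) : ℝ) ≤ T := by
    unfold H82SZ.NT
    exact Nat.floor_le hTp.le
  have h2 : T * T ^ (-3 : ℝ) ≤ 1 := by
    have : T * T ^ (-3 : ℝ) = T ^ (-2 : ℝ) := by
      nth_rewrite 1 [← Real.rpow_one T]
      rw [← Real.rpow_add hTp]
      norm_num
    rw [this]
    exact Real.rpow_le_one_of_one_le_of_nonpos hT1.le (by norm_num)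
  have hT3 : 0 ≤ T ^ (-3 : ℝ) := (Real.rpow_pos_of_pos hTp _).le
  calc ((H82SZ.NT T : ℕ) : ℝ) * ((|c0| + B) * (T ^ (-3 : ℝ) * SS (H82SZ.aT T) c))
      ≤ T * ((|c0| + B) * (T ^ (-3 : ℝ) * SS (H82SZ.aT T) c)) := by gcongr
    _ = (T * T ^ (-3 : ℝ)) * ((|c0| + B) * SS (H82SZ.aT T) c) := by ring
    _ ≤ 1 * ((|c0| + B) * SS (H82SZ.aT T) c) := by gcongr
    _ = _ := one_mul _

end H74SZ
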