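import Mathlib
import Pool.Agent.H74.SZ.Kf

/-!
# Block K: the final statement `KFstat`, proof
-/

open Finset MeasureTheory
open scoped ArithmeticFunction.vonMangoldt ArithmeticFunction.Moebius ArithmeticFunction.zeta

namespace H74SZ

theorem line_cont (a : ℝ) : Continuous fun t : ℝ => (a + t * Complex.I : ℂ) := by fun_prop

theorem Gs_cont (T : ℝ) : Continuous (H82SZ.Gs T) := by
  unfold H82SZ.Gs
  fun_prop

theorem intG {T : ℝ} (hT : 1 < T) (a : ℝ) : Integrable fun t : ℝ => H82SZ.Gs T (a + t * Complex.I) := by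
  have h := Gs_int hT a 0 0
  refine h.mono' ((Gs_cont T).comp (line_cont a)).aestronglyMeasurable (Filter.Eventually.of_forall fun t => ?_)
  simp

theorem Xf_cont_line {a : ℝ} (ha : 0 < a) : Continuous fun t : ℝ => Xf (a + t * Complex.I) := by
  rw [continuous_iff_continuousAt]
  intro t
  have h1 : DifferentiableAt ℂ Xf (a + t * Complex.I) := Xf_diff (by simpa using ha)
  exact ContinuousAt.comp (f := fun t : ℝ => (a + t * Complex.I : ℂ)) h1.continuousAt (line_cont a).continuousAt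

theorem dXf_cont_line {a : ℝ} (ha : 0 < a) : Continuous fun t : ℝ => deriv Xf (a + t * Complex.I) := by
  have hopen : IsOpen {s : ℂ | 0 < s.re} := isOpen_lt continuous_const Complex.continuous_re
  have hd : DifferentiableOn ℂ Xf {s : ℂ | 0 < s.re} := fun s hs => (Xf_diff hs).differentiableWithinAt
  have hd' := hd.deriv hopen
  rw [continuous_iff_continuousAt]
  intro t
  have hmem : (a + t * Complex.I : ℂ) ∈ {s : ℂ | 0 < s.re} := by simpa using ha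
  have h1 : DifferentiableAt ℂ (deriv Xf) (a + t * Complex.I) := (hd' _ hmem).differentiableAt (hopen.mem_nhds hmem)
  exact ContinuousAt.comp (f := fun t : ℝ => (a + t * Complex.I : ℂ)) h1.continuousAt (line_cont a).continuousAt

theorem int_mul_G {T : ℝ} (hT : 1 < T) {a : ℝ} {X : ℂ → ℂ} (hX : Continuous fun t : ℝ => X (a + t * Complex.I))
    {C : ℝ} (hC : ∀ t : ℝ, ‖X (a + t * Complex.I)‖ ≤ C * (1 + |t|) ^ 2) :
    Integrable fun t : ℝ => X (a + t * Complex.I) * H82SZ.Gs T (a + t * Complex.I) := by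
  have h := (Gs_int hT a 0 2).const_mul C
  refine h.mono' (hX.mul ((Gs_cont T).comp (line_cont a))).aestronglyMeasurable
    (Filter.Eventually.of_forall fun t => ?_)
  rw [norm_mul]
  have h1 := hC t
  have h2 := norm_nonneg (H82SZ.Gs T (a + t * Complex.I))
  calc _ ≤ C * (1 + |t|) ^ 2 * ‖H82SZ.Gs T (a + t * Complex.I)‖ := by gcongr
    _ = _ := by simp; ring

theorem intXG {T : ℝ} (hT : 1 < T) {a : ℝ} (ha : 1 ≤ a) (ha' : a ≤ 3 / 2) :
    Integrable fun t : ℝ => Xf (a + t * Complex.I) * H82SZ.Gs T (a + t * Complex.I) := by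
  obtain ⟨C, hC⟩ := Xf_strip
  exact int_mul_G hT (Xf_cont_line (by linarith)) fun t => hC a t (by linarith) (by linarith)

theorem intDXG {T : ℝ} (hT : 1 < T) {a : ℝ} (ha : 1 ≤ a) (ha' : a ≤ 3 / 2) :
    Integrable fun t : ℝ => deriv Xf (a + t * Complex.I) * H82SZ.Gs T (a + t * Complex.I) := by
  obtain ⟨C, hC⟩ := dXf_strip
  exact int_mul_G hT (dXf_cont_line (by linarith)) fun t => hC a t (by linarith) (by linarith)

/-- the three expansions, with integrability -/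
theorem exp_J {T : ℝ} (hT : 1 < T) {a : ℝ} {x c : ArithmeticFunction ℝ} (hc : SC a c) :
    (Integrable fun t : ℝ => dser c (a + t * Complex.I) * (H82SZ.Gs T (a + t * Complex.I) *
      H82SZ.dpol T x (1 - (a + t * Complex.I)))) ∧
    vint a (fun s => dser c s * (H82SZ.Gs T s * H82SZ.dpol T x (1 - s))) =
      ∑ k ∈ Icc 1 (H82SZ.NT T), ((x k / k : ℝ) : ℂ) * ∑' n : ℕ, (c n : ℂ) * JJ T (n / k) := by
  obtain ⟨h1, h2⟩ := exp_gen (T := T) (x := x) hc (intG hT a)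
  refine ⟨h1, h2.trans (Finset.sum_congr rfl fun k hk => ?_)⟩
  have hk1 : 1 ≤ k := (Finset.mem_Icc.1 hk).1
  congr 1
  refine tsum_congr fun n => ?_
  rcases Nat.eq_zero_or_pos n with h0 | hpos
  · subst h0
    simp
  · have hr : (0 : ℝ) < n / k := by positivity
    rw [vint_J hT a hr]

theorem exp_A {T : ℝ} (hT : 1 < T) {a : ℝ} (ha : 1 ≤ a) (ha' : a ≤ 3 / 2) {x c : ArithmeticFunction ℝ}
    (hc : SC a c) :
    (Integrable fun t : ℝ => dser c (a + t * Complex.I) * ((Xf (a + t * Complex.I) *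
      H82SZ.Gs T (a + t * Complex.I)) * H82SZ.dpol T x (1 - (a + t * Complex.I)))) ∧
    vint a (fun s => dser c s * ((Xf s * H82SZ.Gs T s) * H82SZ.dpol T x (1 - s))) =
      ∑ k ∈ Icc 1 (H82SZ.NT T), ((x k / k : ℝ) : ℂ) * ∑' n : ℕ, (c n : ℂ) * KJ 0 T (n / k) := by
  obtain ⟨h1, h2⟩ := exp_gen (T := T) (x := x) hc (Q := fun s => Xf s * H82SZ.Gs T s) (intXG hT ha ha')
  refine ⟨h1, h2.trans (Finset.sum_congr rfl fun k hk => ?_)⟩
  have hk1 : 1 ≤ k := (Finset.mem_Icc.1 hk).1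
  congr 1
  refine tsum_congr fun n => ?_
  rcases Nat.eq_zero_or_pos n with h0 | hpos
  · subst h0
    simp
  · have hr : (0 : ℝ) < n / k := by positivity
    have h3 := ka hT (a := a) (by linarith) hr
    have h4 : KJ 0 T (n / k) = T0 T (n / k) := by simp [KJ]
    rw [h4, ← h3]
    unfold KA
    congr 2
    funext s
    ring

theorem exp_B {T : ℝ} (hT : 1 < T) {a : ℝ} (ha : 1 ≤ a) (ha' : a ≤ 3 / 2) {x c : ArithmeticFunction ℝ}
    (hc : SC a c) :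
    (Integrable fun t : ℝ => dser c (a + t * Complex.I) * ((deriv Xf (a + t * Complex.I) *
      H82SZ.Gs T (a + t * Complex.I)) * H82SZ.dpol T x (1 - (a + t * Complex.I)))) ∧
    vint a (fun s => dser c s * ((deriv Xf s * H82SZ.Gs T s) * H82SZ.dpol T x (1 - s))) =
      ∑ k ∈ Icc 1 (H82SZ.NT T), ((x k / k : ℝ) : ℂ) * ∑' n : ℕ, (c n : ℂ) * KJ 1 T (n / k) := by
  obtain ⟨h1, h2⟩ := exp_gen (T := T) (x := x) hc (Q := fun s => deriv Xf s * H82SZ.Gs T s) (intDXG hT ha ha')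
  refine ⟨h1, h2.trans (Finset.sum_congr rfl fun k hk => ?_)⟩
  have hk1 : 1 ≤ k := (Finset.mem_Icc.1 hk).1
  congr 1
  refine tsum_congr fun n => ?_
  rcases Nat.eq_zero_or_pos n with h0 | hpos
  · subst h0
    simp
  · have hr : (0 : ℝ) < n / k := by positivity
    have h3 := kb hT ha ha' hr
    have h4 : KJ 1 T (n / k) = (Real.log (n / k) : ℂ) * T0 T (n / k) - T1 T (n / k) := by
      unfold KJ
      rw [if_neg one_ne_zero]
    rw [h4, ← h3]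
    unfold KB
    congr 2
    funext s
    ring

/-- linear combination of three vertical integrals -/
theorem vint_comb {a : ℝ} {A B D : ℂ → ℂ} (hA : Integrable fun t : ℝ => A (a + t * Complex.I))
    (hB : Integrable fun t : ℝ => B (a + t * Complex.I)) (hD : Integrable fun t : ℝ => D (a + t * Complex.I))
    (x y z : ℂ) : vint a (fun s => x * A s + (y * B s + z * D s)) = x * vint a A + (y * vint a B + z * vint a D) := by
  unfold vint
  have e1 : ∫ t : ℝ, (x * A (a + t * Complex.I) + (y * B (a + t * Complex.I) + z * D (a + t * Complex.I))) =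
      (∫ t : ℝ, x * A (a + t * Complex.I)) + ∫ t : ℝ, (y * B (a + t * Complex.I) + z * D (a + t * Complex.I)) :=
    integral_add (hA.const_mul x) ((hB.const_mul y).add (hD.const_mul z))
  have e2 : ∫ t : ℝ, (y * B (a + t * Complex.I) + z * D (a + t * Complex.I)) =
      (∫ t : ℝ, y * B (a + t * Complex.I)) + ∫ t : ℝ, z * D (a + t * Complex.I) :=
    integral_add (hB.const_mul y) (hD.const_mul z)
  simp only [e1, e2, integral_const_mul]
  ring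

theorem FF_one_sub {c0 : ℝ} {α P : ℝ → ℝ} {T : ℝ} {s : ℂ} (hs : 1 < s.re) :
    H82SZ.FF c0 α P T (1 - s) = H82SZ.dpol T (H82SZ.y0 c0 α T) (1 - s) +
      (deriv Xf s * riemannZeta s + Xf s * deriv riemannZeta s) * H82SZ.dpol T (H82SZ.xk P T) (1 - s) /
        (Real.log T : ℂ) := by
  unfold H82SZ.FF
  rw [dzeta_one_sub hs]
  ring

theorem aT_bds {T : ℝ} (hT : 8 ≤ T) : 1 < H82SZ.aT T ∧ 1 ≤ H82SZ.aT T ∧ H82SZ.aT T ≤ 3 / 2 ∧ 2 ≤ Real.log T := by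
  have h2 : 2 ≤ Real.log T := by
    rw [Real.le_log_iff_exp_le (by linarith)]
    have h1 : Real.exp 2 = Real.exp 1 * Real.exp 1 := by rw [← Real.exp_add]; norm_num
    have h3 := Real.exp_one_lt_d9
    have h4 := Real.exp_pos 1
    rw [h1]
    nlinarith
  have h3 : 0 < 1 / Real.log T := by positivity
  have h4 : 1 / Real.log T ≤ 1 / 2 := one_div_le_one_div_of_le (by norm_num) h2
  unfold H82SZ.aT
  refine ⟨by linarith, by linarith, by linarith, h2⟩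

theorem MM_eq {c0 θ θ' : ℝ} (hθ : θ ≤ 1) (hθ' : θ' ≤ 1) {α P : ℝ → ℝ} (hα : H82SZ.Adm θ α)
    (hP : H82SZ.Adm θ' P) {T : ℝ} (hT : 8 ≤ T) :
    H82SZ.MM c0 α P T =
      1 * ∑ m ∈ Icc 1 (H82SZ.NT T), ((H82SZ.y0 c0 α T m / m : ℝ) : ℂ) *
        (∑' n : ℕ, (H82SZ.fk c0 α P T n : ℂ) * JJ T (n / m)) +
      ((Real.log T : ℂ)⁻¹ * ∑ k ∈ Icc 1 (H82SZ.NT T), ((H82SZ.xk P T k / k : ℝ) : ℂ) *
        (∑' n : ℕ, (((ζ : ArithmeticFunction ℝ) * H82SZ.fk c0 α P T) n : ℂ) * KJ 1 T (n / k)) +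
      (-(Real.log T : ℂ)⁻¹) * ∑ k ∈ Icc 1 (H82SZ.NT T), ((H82SZ.xk P T k / k : ℝ) : ℂ) *
        (∑' n : ℕ, ((ArithmeticFunction.log * H82SZ.fk c0 α P T) n : ℂ) * KJ 0 T (n / k))) := by
  obtain ⟨ha, ha1, ha2, hL2⟩ := aT_bds hT
  have hT3 : (3 : ℝ) ≤ T := by linarith
  have hT1 : (1 : ℝ) < T := by linarith
  obtain ⟨C, _, hfk⟩ := SS_fk (c0 := c0) hα hP
  have hf := (hfk T hT3).1
  have hzf := (SC_mul (SS_zeta hT3).1 hf).1
  have hlf := (SC_mul (SS_log hT3).1 hf).1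
  obtain ⟨i1, e1⟩ := exp_J (x := H82SZ.y0 c0 α T) hT1 hf
  obtain ⟨i2, e2⟩ := exp_B (x := H82SZ.xk P T) hT1 ha1 ha2 hzf
  obtain ⟨i3, e3⟩ := exp_A (x := H82SZ.xk P T) hT1 ha1 ha2 hlf
  rw [← e1, ← e2, ← e3, ← vint_comb i1 i2 i3]
  unfold H82SZ.MM vint
  congr 1
  refine integral_congr_ae (Filter.Eventually.of_forall fun t => ?_)
  simp only
  have hs : (H82SZ.aT T + t * Complex.I : ℂ).re = H82SZ.aT T := by simp
  have hs1 : 1 < (H82SZ.aT T + t * Complex.I : ℂ).re := by rw [hs]; exact ha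
  rw [FF_one_sub hs1, FF_dser hθ hθ' hα hP hT3 hs]
  rw [dser_mul (s := (H82SZ.aT T + t * Complex.I : ℂ)) (by rw [hs]; exact (SS_zeta hT3).1) (by rw [hs]; exact hf),
    dser_mul (s := (H82SZ.aT T + t * Complex.I : ℂ)) (by rw [hs]; exact (SS_log hT3).1) (by rw [hs]; exact hf),
    dser_zeta hs1, dser_log hs1]
  ring

theorem PP_eq {c0 θ θ' : ℝ} (hθ : θ ≤ 1) (hθ' : θ' ≤ 1) {α P : ℝ → ℝ} (hα : H82SZ.Adm θ α)
    (hP : H82SZ.Adm θ' P) {T : ℝ} (hT : 8 ≤ T) :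
    H82SZ.PP c0 α P T =
      (-1) * ∑ m ∈ Icc 1 (H82SZ.NT T), ((H82SZ.y0 c0 α T m / m : ℝ) : ℂ) *
        (∑' n : ℕ, (((Λ : ArithmeticFunction ℝ) * H82SZ.fk c0 α P T) n : ℂ) * JJ T (n / m)) +
      ((-(Real.log T : ℂ)⁻¹) * ∑ k ∈ Icc 1 (H82SZ.NT T), ((H82SZ.xk P T k / k : ℝ) : ℂ) *
        (∑' n : ℕ, ((ArithmeticFunction.log * H82SZ.fk c0 α P T) n : ℂ) * KJ 1 T (n / k)) +
      (Real.log T : ℂ)⁻¹ * ∑ k ∈ Icc 1 (H82SZ.NT T), ((H82SZ.xk P T k / k : ℝ) : ℂ) *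
        (∑' n : ℕ, (((Λ : ArithmeticFunction ℝ) * ArithmeticFunction.log * H82SZ.fk c0 α P T) n : ℂ) *
          KJ 0 T (n / k))) := by
  obtain ⟨ha, ha1, ha2, hL2⟩ := aT_bds hT
  have hT3 : (3 : ℝ) ≤ T := by linarith
  have hT1 : (1 : ℝ) < T := by linarith
  obtain ⟨C, _, hfk⟩ := SS_fk (c0 := c0) hα hP
  have hf := (hfk T hT3).1
  have hvf := (SC_mul (SS_vM hT3).1 hf).1
  have hlf := (SC_mul (SS_log hT3).1 hf).1
  have hvl := (SC_mul (SS_vM hT3).1 (SS_log hT3).1).1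
  have hvlf := (SC_mul hvl hf).1
  obtain ⟨i1, e1⟩ := exp_J (x := H82SZ.y0 c0 α T) hT1 hvf
  obtain ⟨i2, e2⟩ := exp_B (x := H82SZ.xk P T) hT1 ha1 ha2 hlf
  obtain ⟨i3, e3⟩ := exp_A (x := H82SZ.xk P T) hT1 ha1 ha2 hvlf
  rw [← e1, ← e2, ← e3, ← vint_comb i1 i2 i3]
  unfold H82SZ.PP vint
  congr 1
  refine integral_congr_ae (Filter.Eventually.of_forall fun t => ?_)
  simp only
  have hs : (H82SZ.aT T + t * Complex.I : ℂ).re = H82SZ.aT T := by simp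
  have hs1 : 1 < (H82SZ.aT T + t * Complex.I : ℂ).re := by rw [hs]; exact ha
  rw [FF_one_sub hs1, FF_dser hθ hθ' hα hP hT3 hs]
  have hlv : (ArithmeticFunction.log : ArithmeticFunction ℝ) = Λ * (ζ : ArithmeticFunction ℝ) :=
    ArithmeticFunction.vonMangoldt_mul_zeta.symm
  have d1 : dser ((Λ : ArithmeticFunction ℝ) * H82SZ.fk c0 α P T) (H82SZ.aT T + t * Complex.I) =
      dser (Λ : ArithmeticFunction ℝ) (H82SZ.aT T + t * Complex.I) *
        dser (H82SZ.fk c0 α P T) (H82SZ.aT T + t * Complex.I) :=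
    dser_mul (by rw [hs]; exact (SS_vM hT3).1) (by rw [hs]; exact hf)
  have d2 : dser ((ArithmeticFunction.log : ArithmeticFunction ℝ) * H82SZ.fk c0 α P T)
      (H82SZ.aT T + t * Complex.I) =
      dser (Λ : ArithmeticFunction ℝ) (H82SZ.aT T + t * Complex.I) *
        riemannZeta (H82SZ.aT T + t * Complex.I) *
        dser (H82SZ.fk c0 α P T) (H82SZ.aT T + t * Complex.I) := by
    rw [dser_mul (by rw [hs]; exact (SS_log hT3).1) (by rw [hs]; exact hf), hlv,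
      dser_mul (by rw [hs]; exact (SS_vM hT3).1) (by rw [hs]; exact (SS_zeta hT3).1), dser_zeta hs1]
  have d3 : dser ((Λ : ArithmeticFunction ℝ) * ArithmeticFunction.log * H82SZ.fk c0 α P T)
      (H82SZ.aT T + t * Complex.I) =
      dser (Λ : ArithmeticFunction ℝ) (H82SZ.aT T + t * Complex.I) *
        (-deriv riemannZeta (H82SZ.aT T + t * Complex.I)) *
        dser (H82SZ.fk c0 α P T) (H82SZ.aT T + t * Complex.I) := by
    rw [dser_mul (by rw [hs]; exact hvl) (by rw [hs]; exact hf),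
      dser_mul (by rw [hs]; exact (SS_vM hT3).1) (by rw [hs]; exact (SS_log hT3).1), dser_log hs1]
  have hv : logDeriv riemannZeta (H82SZ.aT T + t * Complex.I) =
      -dser (Λ : ArithmeticFunction ℝ) (H82SZ.aT T + t * Complex.I) := by
    rw [dser_vM hs1, neg_neg]
  rw [d1, d2, d3, hv]
  ring

/-- powers of the logarithm are absorbed -/
theorem log_absorb {ε : ℝ} (hε : 0 < ε) : ∃ T₀ : ℝ, 8 ≤ T₀ ∧ ∀ T, T₀ ≤ T →
    T ^ (3 / 4 - ε) * Real.log T ^ 8 ≤ T ^ (1 - ε / 2) ∧ Real.log T ^ 4 ≤ T ^ (1 / 2 : ℝ) := by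
  have h1 := (isLittleO_log_rpow_rpow_atTop (8 : ℝ) (s := 1 / 4) (by norm_num)).bound one_pos
  have h2 := (isLittleO_log_rpow_rpow_atTop (4 : ℝ) (s := 1 / 2) (by norm_num)).bound one_pos
  obtain ⟨A, hA⟩ := Filter.eventually_atTop.1 (h1.and h2)
  refine ⟨max A 8, le_max_right _ _, fun T hT => ?_⟩
  have hT8 : 8 ≤ T := (le_max_right _ _).trans hT
  have hTp : 0 < T := by linarith
  have hL := Real.log_pos (show (1 : ℝ) < T by linarith)
  obtain ⟨g1, g2⟩ := hA T ((le_max_left _ _).trans hT)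
  have p1 : 0 < T ^ (1 / 4 : ℝ) := Real.rpow_pos_of_pos hTp _
  have p2 : 0 < T ^ (1 / 2 : ℝ) := Real.rpow_pos_of_pos hTp _
  rw [Real.norm_of_nonneg (Real.rpow_nonneg hL.le _), Real.norm_of_nonneg p1.le, one_mul,
    show (8 : ℝ) = ((8 : ℕ) : ℝ) by norm_num, Real.rpow_natCast] at g1
  rw [Real.norm_of_nonneg (Real.rpow_nonneg hL.le _), Real.norm_of_nonneg p2.le, one_mul,
    show (4 : ℝ) = ((4 : ℕ) : ℝ) by norm_num, Real.rpow_natCast] at g2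
  refine ⟨?_, g2⟩
  have p3 : 0 < T ^ (3 / 4 - ε) := Real.rpow_pos_of_pos hTp _
  calc T ^ (3 / 4 - ε) * Real.log T ^ 8 ≤ T ^ (3 / 4 - ε) * T ^ (1 / 4 : ℝ) := by gcongr
    _ = T ^ (1 - ε) := by
      rw [← Real.rpow_add hTp]
      congr 1
      ring
    _ ≤ T ^ (1 - ε / 2) := Real.rpow_le_rpow_of_exponent_le (by linarith) (by linarith)

theorem kf : H82SZ.KFstat := by
  intro c0 ε α P hε hε2 hα hP
  obtain ⟨Cd, Td, hCd, hTd, hd⟩ := diag_approx hε (by linarith) c0 hα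
  obtain ⟨C0, Ta, hC0, hTa, h0⟩ := dj_approx 0 (by norm_num) hε hP
  obtain ⟨C1, Tb, hC1, hTb, h1⟩ := dj_approx 1 le_rfl hε hP
  obtain ⟨Cf, hCf, hfk⟩ := SS_fk (c0 := c0) hα hP
  obtain ⟨Tl, hTl, hlog⟩ := log_absorb hε
  refine ⟨(6 * Cd + 36 * C0 + 36 * C1) * Cf, max (max Td Ta) (max Tb Tl), fun T hT => ?_⟩
  have hTd' : Td ≤ T := (le_max_left _ _).trans ((le_max_left _ _).trans hT)
  have hTa' : Ta ≤ T := (le_max_right _ _).trans ((le_max_left _ _).trans hT)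
  have hTb' : Tb ≤ T := (le_max_left _ _).trans ((le_max_right _ _).trans hT)
  have hTl' : Tl ≤ T := (le_max_right _ _).trans ((le_max_right _ _).trans hT)
  have hT8 : 8 ≤ T := hTl.trans hTl'
  have hT3 : (3 : ℝ) ≤ T := by linarith
  have hT1 : (1 : ℝ) < T := by linarith
  have hTp : 0 < T := by linarith
  obtain ⟨ha, ha1, ha2, hL2⟩ := aT_bds hT8
  obtain ⟨hl1, hl2⟩ := hlog T hTl'
  set L := Real.log T with hLdef
  have hLp : 0 < L := by linarith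
  obtain ⟨hf, hfb⟩ := hfk T hT3
  obtain ⟨hz, hzb⟩ := SS_zeta hT3
  obtain ⟨hg, hgb⟩ := SS_log hT3
  obtain ⟨hv, hvb⟩ := SS_vM hT3
  obtain ⟨hzf, hzfb⟩ := SC_mul hz hf
  obtain ⟨hgf, hgfb⟩ := SC_mul hg hf
  obtain ⟨hvf, hvfb⟩ := SC_mul hv hf
  obtain ⟨hvg, hvgb⟩ := SC_mul hv hg
  obtain ⟨hvgf, hvgfb⟩ := SC_mul hvg hf
  have n0 : ∀ c, 0 ≤ SS (H82SZ.aT T) c := fun c => SS_nonneg
  -- the bounds of the sums
  have b1 : SS (H82SZ.aT T) ((ζ : ArithmeticFunction ℝ) * H82SZ.fk c0 α P T) ≤ 2 * L * (Cf * L ^ 2) :=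
    hzfb.trans (mul_le_mul hzb hfb (n0 _) (by positivity))
  have b2 : SS (H82SZ.aT T) (ArithmeticFunction.log * H82SZ.fk c0 α P T) ≤ 6 * L ^ 2 * (Cf * L ^ 2) :=
    hgfb.trans (mul_le_mul hgb hfb (n0 _) (by positivity))
  have b3 : SS (H82SZ.aT T) ((Λ : ArithmeticFunction ℝ) * H82SZ.fk c0 α P T) ≤ 6 * L ^ 2 * (Cf * L ^ 2) :=
    hvfb.trans (mul_le_mul hvb hfb (n0 _) (by positivity))
  have b4 : SS (H82SZ.aT T) ((Λ : ArithmeticFunction ℝ) * ArithmeticFunction.log * H82SZ.fk c0 α P T) ≤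
      36 * L ^ 4 * (Cf * L ^ 2) := by
    refine hvgfb.trans (mul_le_mul ?_ hfb (n0 _) (by positivity))
    refine hvgb.trans ((mul_le_mul hvb hgb (n0 _) (by positivity)).trans (le_of_eq (by ring)))
  have hX : 0 ≤ T ^ (3 / 4 - ε) := (Real.rpow_pos_of_pos hTp _).le
  have hY : 0 < T ^ (1 - ε / 2) := Real.rpow_pos_of_pos hTp _
  have hYhalf : T ^ (1 / 2 : ℝ) ≤ T ^ (1 - ε / 2) := Real.rpow_le_rpow_of_exponent_le hT1.le (by linarith)
  have hL1 : 1 ≤ L := by linarith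
  have hL48 : L ^ 4 ≤ T ^ (1 - ε / 2) := hl2.trans hYhalf
  -- the error of a kernel sum, divided by L
  have key : ∀ (C S : ℝ), 0 ≤ C → 0 ≤ S → S ≤ 36 * (Cf * L ^ 6) → ∀ z : ℂ,
      ‖z‖ ≤ C * (T ^ (3 / 4 - ε) * L ^ 2) * S → ‖z‖ ≤ 36 * C * Cf * T ^ (1 - ε / 2) := by
    intro C S hC hS hS' z hz
    refine hz.trans ?_
    calc C * (T ^ (3 / 4 - ε) * L ^ 2) * S ≤ C * (T ^ (3 / 4 - ε) * L ^ 2) * (36 * (Cf * L ^ 6)) := by gcongr
      _ = 36 * C * Cf * (T ^ (3 / 4 - ε) * L ^ 8) := by ring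
      _ ≤ 36 * C * Cf * T ^ (1 - ε / 2) := by gcongr
  have hLi : 0 ≤ L⁻¹ := by positivity
  have hLi1 : L⁻¹ ≤ 1 := inv_le_one_of_one_le₀ hL1
  have nLi : ‖((L : ℂ))⁻¹‖ ≤ 1 := by
    rw [norm_inv, Complex.norm_real, Real.norm_of_nonneg hLp.le]
    exact hLi1
  have s1 : SS (H82SZ.aT T) ((ζ : ArithmeticFunction ℝ) * H82SZ.fk c0 α P T) ≤ 36 * (Cf * L ^ 6) := by
    refine b1.trans ?_
    have e : 2 * L * (Cf * L ^ 2) = 2 * (Cf * L ^ 3) := by ring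
    have e2 : L ^ 3 ≤ L ^ 6 := pow_le_pow_right₀ hL1 (by norm_num)
    have e3 : Cf * L ^ 3 ≤ Cf * L ^ 6 := by gcongr
    have e4 : 0 ≤ Cf * L ^ 6 := by positivity
    rw [e]
    linarith
  have s2 : SS (H82SZ.aT T) (ArithmeticFunction.log * H82SZ.fk c0 α P T) ≤ 36 * (Cf * L ^ 6) := by
    refine b2.trans ?_
    have e : 6 * L ^ 2 * (Cf * L ^ 2) = 6 * (Cf * L ^ 4) := by ring
    have e2 : L ^ 4 ≤ L ^ 6 := pow_le_pow_right₀ hL1 (by norm_num)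
    have e3 : Cf * L ^ 4 ≤ Cf * L ^ 6 := by gcongr
    have e4 : 0 ≤ Cf * L ^ 6 := by positivity
    rw [e]
    linarith
  have s4 : SS (H82SZ.aT T) ((Λ : ArithmeticFunction ℝ) * ArithmeticFunction.log * H82SZ.fk c0 α P T) ≤
      36 * (Cf * L ^ 6) := b4.trans (le_of_eq (by ring))
  have t1 : SS (H82SZ.aT T) (H82SZ.fk c0 α P T) ≤ 6 * Cf * T ^ (1 - ε / 2) := by
    refine hfb.trans ?_
    have e2 : L ^ 2 ≤ L ^ 4 := pow_le_pow_right₀ hL1 (by norm_num)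
    have e3 : Cf * L ^ 2 ≤ Cf * T ^ (1 - ε / 2) := by
      have := e2.trans hL48
      gcongr
    have e4 : 0 ≤ Cf * T ^ (1 - ε / 2) := by positivity
    linarith
  have t3 : SS (H82SZ.aT T) ((Λ : ArithmeticFunction ℝ) * H82SZ.fk c0 α P T) ≤ 6 * Cf * T ^ (1 - ε / 2) := by
    refine b3.trans ?_
    have e : 6 * L ^ 2 * (Cf * L ^ 2) = 6 * Cf * L ^ 4 := by ring
    rw [e]
    gcongr
  constructor
  · rw [MM_eq (θ := 1 - ε) (θ' := 1 / 2 - ε) (by linarith) (by linarith) hα hP hT8, ← hLdef]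
    have k1 := hd T hTd' _ hf
    have k2 := key _ _ hC1 (n0 _) s1 _ (h1 T hTb' _ hzf)
    have k3 := key _ _ hC0 (n0 _) s2 _ (h0 T hTa' _ hgf)
    set A1 := ∑ m ∈ Icc 1 (H82SZ.NT T), ((H82SZ.y0 c0 α T m / m : ℝ) : ℂ) *
        (∑' n : ℕ, (H82SZ.fk c0 α P T n : ℂ) * JJ T (n / m)) with hA1
    set A2 := ∑ k ∈ Icc 1 (H82SZ.NT T), ((H82SZ.xk P T k / k : ℝ) : ℂ) *
        (∑' n : ℕ, (((ζ : ArithmeticFunction ℝ) * H82SZ.fk c0 α P T) n : ℂ) * KJ 1 T (n / k)) with hA2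
    set A3 := ∑ k ∈ Icc 1 (H82SZ.NT T), ((H82SZ.xk P T k / k : ℝ) : ℂ) *
        (∑' n : ℕ, ((ArithmeticFunction.log * H82SZ.fk c0 α P T) n : ℂ) * KJ 0 T (n / k)) with hA3
    set E1 := ((H82SZ.om T * H82SZ.diag T (H82SZ.fk c0 α P T) (H82SZ.y0 c0 α T) : ℝ) : ℂ) with hE1
    set E2 := H82SZ.Dj P T 1 ((ζ : ArithmeticFunction ℝ) * H82SZ.fk c0 α P T) with hE2
    set E3 := H82SZ.Dj P T 0 (ArithmeticFunction.log * H82SZ.fk c0 α P T) with hE3
    have e : 1 * A1 + ((L : ℂ)⁻¹ * A2 + (-(L : ℂ)⁻¹) * A3) - (E1 + (L : ℂ)⁻¹ * (E2 - E3)) =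
        (A1 - E1) + ((L : ℂ)⁻¹ * (A2 - E2) - (L : ℂ)⁻¹ * (A3 - E3)) := by ring
    rw [e]
    refine (norm_add_le _ _).trans ?_
    have f1 : ‖A1 - E1‖ ≤ Cd * (6 * Cf * T ^ (1 - ε / 2)) := k1.trans (by gcongr)
    have f2 : ‖(L : ℂ)⁻¹ * (A2 - E2)‖ ≤ 36 * C1 * Cf * T ^ (1 - ε / 2) := by
      rw [norm_mul]
      have := norm_nonneg (A2 - E2)
      nlinarith
    have f3 : ‖(L : ℂ)⁻¹ * (A3 - E3)‖ ≤ 36 * C0 * Cf * T ^ (1 - ε / 2) := by
      rw [norm_mul]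
      have := norm_nonneg (A3 - E3)
      nlinarith
    have f4 := norm_sub_le ((L : ℂ)⁻¹ * (A2 - E2)) ((L : ℂ)⁻¹ * (A3 - E3))
    have e5 : (6 * Cd + 36 * C0 + 36 * C1) * Cf * T ^ (1 - ε / 2) = Cd * (6 * Cf * T ^ (1 - ε / 2)) +
      (36 * C1 * Cf * T ^ (1 - ε / 2) + 36 * C0 * Cf * T ^ (1 - ε / 2)) := by ring
    rw [e5]
    linarith
  · rw [PP_eq (θ := 1 - ε) (θ' := 1 / 2 - ε) (by linarith) (by linarith) hα hP hT8, ← hLdef]
    have k1 := hd T hTd' _ hvf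
    have k2 := key _ _ hC1 (n0 _) s2 _ (h1 T hTb' _ hgf)
    have k3 := key _ _ hC0 (n0 _) s4 _ (h0 T hTa' _ hvgf)
    set A1 := ∑ m ∈ Icc 1 (H82SZ.NT T), ((H82SZ.y0 c0 α T m / m : ℝ) : ℂ) *
        (∑' n : ℕ, (((Λ : ArithmeticFunction ℝ) * H82SZ.fk c0 α P T) n : ℂ) * JJ T (n / m)) with hA1
    set A2 := ∑ k ∈ Icc 1 (H82SZ.NT T), ((H82SZ.xk P T k / k : ℝ) : ℂ) *
        (∑' n : ℕ, ((ArithmeticFunction.log * H82SZ.fk c0 α P T) n : ℂ) * KJ 1 T (n / k)) with hA2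
    set A3 := ∑ k ∈ Icc 1 (H82SZ.NT T), ((H82SZ.xk P T k / k : ℝ) : ℂ) *
        (∑' n : ℕ, (((Λ : ArithmeticFunction ℝ) * ArithmeticFunction.log * H82SZ.fk c0 α P T) n : ℂ) *
          KJ 0 T (n / k)) with hA3
    set E1 := ((H82SZ.om T * H82SZ.diag T ((Λ : ArithmeticFunction ℝ) * H82SZ.fk c0 α P T)
      (H82SZ.y0 c0 α T) : ℝ) : ℂ) with hE1
    set E2 := H82SZ.Dj P T 1 (ArithmeticFunction.log * H82SZ.fk c0 α P T) with hE2
    set E3 := H82SZ.Dj P T 0 ((Λ : ArithmeticFunction ℝ) * ArithmeticFunction.log * H82SZ.fk c0 α P T) with hE3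
    have e : (-1) * A1 + ((-(L : ℂ)⁻¹) * A2 + (L : ℂ)⁻¹ * A3) - (-E1 + (L : ℂ)⁻¹ * (E3 - E2)) =
        -(A1 - E1) + ((L : ℂ)⁻¹ * (A3 - E3) - (L : ℂ)⁻¹ * (A2 - E2)) := by ring
    rw [e]
    refine (norm_add_le _ _).trans ?_
    have f1 : ‖-(A1 - E1)‖ ≤ Cd * (6 * Cf * T ^ (1 - ε / 2)) := by
      rw [norm_neg]
      exact k1.trans (by gcongr)
    have f2 : ‖(L : ℂ)⁻¹ * (A2 - E2)‖ ≤ 36 * C1 * Cf * T ^ (1 - ε / 2) := by
      rw [norm_mul]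
      have := norm_nonneg (A2 - E2)
      nlinarith
    have f3 : ‖(L : ℂ)⁻¹ * (A3 - E3)‖ ≤ 36 * C0 * Cf * T ^ (1 - ε / 2) := by
      rw [norm_mul]
      have := norm_nonneg (A3 - E3)
      nlinarith
    have f4 := norm_sub_le ((L : ℂ)⁻¹ * (A3 - E3)) ((L : ℂ)⁻¹ * (A2 - E2))
    have e5 : (6 * Cd + 36 * C0 + 36 * C1) * Cf * T ^ (1 - ε / 2) = Cd * (6 * Cf * T ^ (1 - ε / 2)) +
      (36 * C1 * Cf * T ^ (1 - ε / 2) + 36 * C0 * Cf * T ^ (1 - ε / 2)) := by ring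
    rw [e5]
    linarith

end H74SZ
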